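import Pool.Agent.helper4.SR.Prim

/-!
The unique minimal normal subgroup `D G (n + 1)` has a complement.
-/

namespace Pool.Agent.helper4.SR

open Subgroup

variable {G : Type*} [Group G]

lemma normal_of_sup {V H M : Subgroup G} (hVH : V ⊔ H = ⊤)
    (h1 : ∀ v ∈ V, ∀ m ∈ M, v * m * v⁻¹ ∈ M) (h2 : ∀ h ∈ H, ∀ m ∈ M, h * m * h⁻¹ ∈ M) :
    M.Normal := by
  rw [← normalizer_eq_top_iff, ← top_le_iff, ← hVH, sup_le_iff, le_normalizer_iff,
    le_normalizer_iff]
  exact ⟨h1, h2⟩

/-- The union of the trivial and nontrivial case for one prime `q`. -/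
lemma compl_of_prime [Finite G] {n : ℕ} (h : Prim G (n + 1))
    (hc : ∀ a ∈ D G (n + 1), ∀ b ∈ D G (n + 1), a * b = b * a) {p : ℕ} (hp : p.Prime)
    (hV : ∀ v ∈ D G (n + 1), v ^ p = 1) {q : ℕ} (hq : q.Prime) (hqp : q ≠ p)
    (hqd : q ∣ Nat.card ((D G n).map (QuotientGroup.mk' (D G (n + 1))))) :
    ∃ H : Subgroup G, D G (n + 1) ⊓ H = ⊥ ∧ D G (n + 1) ⊔ H = ⊤ := by
  have := Fact.mk hq
  have := Fact.mk hp
  set V := D G (n + 1) with hVdef
  set f := QuotientGroup.mk' V with hf
  have hfs : Function.Surjective f := QuotientGroup.mk'_surjective V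
  have hker : f.ker = V := QuotientGroup.ker_mk' V
  set L := (D G n).map f with hL
  have hLn : L.Normal := Normal.map inferInstance f hfs
  have hLnil : Group.IsNilpotent L := by
    rw [← res_eq_bot_iff, hL, ← map_res, ← D_succ, Subgroup.map_eq_bot_iff, hker]
  obtain ⟨Q⟩ : Nonempty (Sylow q L) := inferInstance
  have hQn : (Q : Subgroup L).Normal := inferInstance
  have hQc : (Q : Subgroup L).Characteristic := Q.characteristic_of_normal hQn
  set S : Subgroup (G ⧸ V) := (Q : Subgroup L).map L.subtype with hS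
  have hSn : S.Normal := ConjAct.normal_of_characteristic_of_normal
  have hSp : IsPGroup q S := Q.isPGroup'.map _
  have hSb : S ≠ ⊥ := by
    rw [hS, Ne, (Subgroup.map_eq_bot_iff_of_injective _ L.subtype_injective)]
    exact Q.ne_bot_of_dvd_card hqd
  set N := S.comap f with hN
  have hNn : N.Normal := inferInstance
  have hVN : V ≤ N := hker ▸ ker_le_comap f S
  have hmapN : N.map f = S := map_comap_eq_self_of_surjective hfs S
  obtain ⟨P⟩ : Nonempty (Sylow q N) := inferInstance
  set P' : Subgroup G := (P : Subgroup N).map N.subtype with hP'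
  have hP'N : P' ≤ N := map_subtype_le _
  have hP'p : IsPGroup q P' := P.isPGroup'.map _
  have hfr := Sylow.normalizer_sup_eq_top P
  rw [← hP'] at hfr
  set H := normalizer (P' : Set G) with hH
  have hP'H : P' ≤ H := le_normalizer
  have hNle : N ≤ V ⊔ P' := by
    rw [← relIndex_eq_one]
    have h1 : (V ⊔ P').relIndex N ∣ V.relIndex N := relIndex_dvd_of_le_left N le_sup_left
    have h2 : (V ⊔ P').relIndex N ∣ P'.relIndex N := relIndex_dvd_of_le_left N le_sup_right
    have h3 : V.relIndex N = Nat.card S := by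
      have := relIndex_ker N f
      rwa [hker, hmapN] at this
    have h4 : P'.relIndex N = (P : Subgroup N).index := by
      rw [relIndex, hP', subgroupOf, comap_map_eq_self_of_injective N.subtype_injective]
    obtain ⟨k, hk⟩ := IsPGroup.iff_card.mp hSp
    rw [h3, hk] at h1
    rw [h4] at h2
    obtain ⟨j, hj, hj'⟩ := (Nat.dvd_prime_pow hq).mp h1
    rcases Nat.eq_zero_or_pos j with h0 | h0
    · rw [hj', h0, pow_zero]
    · exfalso
      apply P.not_dvd_index
      refine dvd_trans ?_ h2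
      rw [hj']
      exact dvd_pow_self q h0.ne'
  have hVH : V ⊔ H = ⊤ := by
    rw [← top_le_iff, ← hfr, sup_le_iff]
    exact ⟨le_sup_right, hNle.trans (sup_le_sup_left hP'H V)⟩
  have hnorm : (V ⊓ H).Normal := by
    apply normal_of_sup hVH
    · intro v hv m hm
      rw [hc v hv m hm.1, mul_inv_cancel_right]
      exact hm
    · intro k hk m hm
      exact ⟨(D_normal (n + 1)).conj_mem m hm.1 k, H.mul_mem (H.mul_mem hk hm.2) (H.inv_mem hk)⟩
  by_cases hb : V ⊓ H = ⊥
  · exact ⟨H, hb, hVH⟩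
  · exfalso
    have h1 : V ≤ H := (h.2 _ hnorm hb).trans inf_le_right
    have h2 : H = ⊤ := by rw [← hVH, sup_eq_right.mpr h1]
    have h3 : P'.Normal := normalizer_eq_top_iff.mp h2
    by_cases h4 : P' = ⊥
    · rw [h4, sup_bot_eq] at hNle
      apply hSb
      rw [← hmapN, Subgroup.map_eq_bot_iff, hker]
      exact hNle
    · have h5 : V ≤ P' := h.2 _ h3 h4
      obtain ⟨⟨v, hv⟩, hv1⟩ := Subgroup.ne_bot_iff_exists_ne_one.mp h.1
      obtain ⟨k, hk⟩ := hP'p ⟨v, h5 hv⟩
      have hk' : v ^ q ^ k = 1 := by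
        have := congrArg Subtype.val hk
        simpa using this
      have h6 : orderOf (v : G) ∣ p := orderOf_dvd_of_pow_eq_one (hV v hv)
      have h7 : orderOf (v : G) ∣ q ^ k := orderOf_dvd_of_pow_eq_one hk'
      have h8 : Nat.Coprime p (q ^ k) :=
        Nat.Coprime.pow_right k ((Nat.coprime_primes hp hq).mpr hqp.symm)
      have h9 : orderOf (v : G) = 1 := Nat.eq_one_of_dvd_coprimes h8 h6 h7
      apply hv1
      exact Subtype.ext (orderOf_eq_one_iff.mp h9)

lemma exists_compl [Finite G] {n : ℕ} (h : Prim G (n + 1))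
    (hc : ∀ a ∈ D G (n + 1), ∀ b ∈ D G (n + 1), a * b = b * a) {p : ℕ} (hp : p.Prime)
    (hV : ∀ v ∈ D G (n + 1), v ^ p = 1) :
    ∃ H : Subgroup G, D G (n + 1) ⊓ H = ⊥ ∧ D G (n + 1) ⊔ H = ⊤ := by
  by_contra hcon
  have := Fact.mk hp
  set f := QuotientGroup.mk' (D G (n + 1)) with hf
  have h1 : ∀ {q : ℕ}, q.Prime → q ∣ Nat.card ((D G n).map f) → q = p := by
    intro q hq hqd
    by_contra hqp
    exact hcon (compl_of_prime h hc hp hV hq hqp hqd)
  have h2 := Nat.eq_prime_pow_of_unique_prime_dvd (Nat.card_pos.ne') h1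
  have h3 : IsPGroup p ((D G n).map f) := IsPGroup.of_card h2
  have h4 : IsPGroup p (D G n) := by
    intro x
    obtain ⟨k, hk⟩ := h3 ⟨f x, mem_map_of_mem f x.2⟩
    refine ⟨k + 1, ?_⟩
    have hk' : f ((x : G) ^ p ^ k) = 1 := by
      rw [map_pow]
      have := congrArg Subtype.val hk
      simpa using this
    rw [← MonoidHom.mem_ker, QuotientGroup.ker_mk'] at hk'
    apply Subtype.ext
    rw [pow_succ, pow_mul]
    exact hV _ hk'
  apply h.1
  rw [D_succ, res_eq_bot_iff]
  exact h4.isNilpotent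

end Pool.Agent.helper4.SR
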