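import Pool.Agent.helper4.SR.Key
import Pool.Agent.helper4.SR.Compl

/-!
The key lemma for subgroups of a group.
-/

namespace Pool.Agent.helper4.SR

open Subgroup

variable {G : Type*} [Group G]

lemma inv_parts {V H : Subgroup G} [V.Normal] (hc : ∀ a ∈ V, ∀ b ∈ V, a * b = b * a)
    (hinf : V ⊓ H = ⊥) {u h v a : G} (hu : u ∈ V) (hh : h ∈ H) (hv : v ∈ V) (ha : a ∈ H)
    (heq : (u * h) * (v * a) * (u * h)⁻¹ = (v * a)⁻¹) :
    h * a * h⁻¹ = a⁻¹ ∧ v * ((a * h) * v * (a * h)⁻¹) = u * (a * u * a⁻¹)⁻¹ := by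
  have hVn : V.Normal := inferInstance
  have e1 : h * a * h⁻¹ * a = (u * (h * v * h⁻¹) * ((h * a * h⁻¹) * u⁻¹ * (h * a * h⁻¹)⁻¹))⁻¹ *
      (a⁻¹ * v⁻¹ * a) := by
    have : (u * (h * v * h⁻¹) * ((h * a * h⁻¹) * u⁻¹ * (h * a * h⁻¹)⁻¹)) * (h * a * h⁻¹) * a
        = (u * h) * (v * a) * (u * h)⁻¹ * a := by group
    rw [heq] at this
    rw [eq_inv_mul_iff_mul_eq, ← mul_assoc, this]
    group
  have hHmem : h * a * h⁻¹ * a ∈ H := mul_mem (mul_mem (mul_mem hh ha) (inv_mem hh)) ha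
  have hVmem : h * a * h⁻¹ * a ∈ V := by
    rw [e1]
    refine mul_mem (inv_mem (mul_mem (mul_mem hu (hVn.conj_mem v hv h))
      (hVn.conj_mem _ (inv_mem hu) _))) ?_
    have := hVn.conj_mem _ (inv_mem hv) a⁻¹
    rwa [inv_inv] at this
  have h1 : h * a * h⁻¹ * a = 1 := by
    rw [← mem_bot, ← hinf]
    exact ⟨hVmem, hHmem⟩
  have h2 : h * a * h⁻¹ = a⁻¹ := mul_eq_one_iff_eq_inv.mp h1
  refine ⟨h2, ?_⟩
  have h3 : (a * u * a⁻¹) * ((a * h) * v * (a * h)⁻¹) * u⁻¹ = v⁻¹ := by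
    have e2 : (a * u * a⁻¹) * ((a * h) * v * (a * h)⁻¹) * u⁻¹
        = a * ((u * h) * (v * a) * (u * h)⁻¹) * (u * (h * a⁻¹ * h⁻¹) * u⁻¹ * u * (a⁻¹ * u⁻¹)) := by
      group
    have e3 : h * a⁻¹ * h⁻¹ = a := by
      have := congrArg (·⁻¹) h2
      simp only [mul_inv_rev, inv_inv] at this
      rw [← mul_assoc] at this
      exact this
    rw [e2, heq, e3]
    group
  have hm1 : a * u * a⁻¹ ∈ V := hVn.conj_mem u hu a
  have hm2 : (a * h) * v * (a * h)⁻¹ ∈ V := hVn.conj_mem v hv _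
  have h4 : (a * h) * v * (a * h)⁻¹ = (a * u * a⁻¹)⁻¹ * v⁻¹ * u := by
    rw [← h3]; group
  rw [h4, hc ((a * u * a⁻¹)⁻¹) (inv_mem hm1) v⁻¹ (inv_mem hv)]
  rw [← mul_assoc, ← mul_assoc, mul_inv_cancel, one_mul]
  exact hc _ (inv_mem hm1) u hu

theorem key_group [Finite G] (hI : Inv2 G) (V H : Subgroup G) [V.Normal]
    (hc : ∀ a ∈ V, ∀ b ∈ V, a * b = b * a) (hinf : V ⊓ H = ⊥) (hsup : V ⊔ H = ⊤)
    (hfaith : ∀ h ∈ H, (∀ v ∈ V, h * v * h⁻¹ = v) → h = 1) {r s : ℕ}
    (hr : r.Prime) (hr3 : 3 ≤ r) (hs : s.Prime) (hrs : s ≠ r)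
    (hcop : Nat.Coprime r (Nat.card V)) (R : Subgroup H) (hR : ∀ z ∈ R, ∃ m, z ^ (r ^ m) = 1)
    (x : H) (hx : ∃ k, x ^ (s ^ k) = 1) (hxR : ∀ z ∈ R, x * z * x⁻¹ ∈ R) :
    ∀ z ∈ R, x ^ 2 * z = z * x ^ 2 := by
  have hVn : V.Normal := inferInstance
  letI : CommGroup V :=
    { (inferInstance : Group V) with
      mul_comm := fun a b => Subtype.ext (hc a a.2 b b.2) }
  letI : MulAction H (Additive V) :=
    { smul := fun h v => Additive.ofMul ⟨(h : G) * (Additive.toMul v : V) * (h : G)⁻¹,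
        hVn.conj_mem _ (Additive.toMul v).2 _⟩
      one_smul := fun v => by
        apply Additive.toMul.injective
        apply Subtype.ext
        change ((1 : H) : G) * (Additive.toMul v : V) * ((1 : H) : G)⁻¹ = _
        simp
      mul_smul := fun g h v => by
        apply Additive.toMul.injective
        apply Subtype.ext
        change ((g * h : H) : G) * (Additive.toMul v : V) * ((g * h : H) : G)⁻¹
          = (g : G) * ((h : G) * (Additive.toMul v : V) * (h : G)⁻¹) * (g : G)⁻¹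
        rw [Subgroup.coe_mul]; group }
  have hsm : ∀ (h : H) (v : Additive V), ((Additive.toMul (h • v) : V) : G)
      = (h : G) * (Additive.toMul v : V) * (h : G)⁻¹ := fun h v => rfl
  letI : DistribMulAction H (Additive V) :=
    { smul_zero := fun h => by
        apply Additive.toMul.injective
        apply Subtype.ext
        rw [hsm]
        simp
      smul_add := fun h v w => by
        apply Additive.toMul.injective
        apply Subtype.ext
        rw [hsm, toMul_add, toMul_add]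
        change _ = ((Additive.toMul (h • v) : V) : G) * ((Additive.toMul (h • w) : V) : G)
        rw [hsm, hsm]
        change (h : G) * (((Additive.toMul v : V) : G) * ((Additive.toMul w : V) : G)) * (h : G)⁻¹
          = _
        group }
  have hext : ∀ v w : Additive V, ((Additive.toMul v : V) : G) = ((Additive.toMul w : V) : G) →
      v = w := fun v w h => Additive.toMul.injective (Subtype.ext h)
  have hstar : Star H (Additive V) := by
    intro a b v w
    obtain ⟨g, hg1, hg2⟩ := hI (((Additive.toMul v : V) : G) * a) (((Additive.toMul w : V) : G) * b)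
    have hg : g ∈ ((V ⊔ H : Subgroup G) : Set G) := by rw [hsup]; trivial
    rw [normal_mul] at hg
    obtain ⟨u, hu, h, hh, rfl⟩ := Set.mem_mul.mp hg
    obtain ⟨h1, h2⟩ := inv_parts hc hinf hu hh (Additive.toMul v).2 a.2 hg1
    obtain ⟨h3, h4⟩ := inv_parts hc hinf hu hh (Additive.toMul w).2 b.2 hg2
    refine ⟨⟨h, hh⟩, Additive.ofMul ⟨u, hu⟩, Subtype.ext h1, Subtype.ext h3, ?_, ?_⟩
    · apply hext
      exact h2.trans (div_eq_mul_inv _ _).symm
    · apply hext
      exact h4.trans (div_eq_mul_inv _ _).symm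
  refine key hstar ?_ hr hr3 hs hrs ?_ R hR x hx hxR
  · intro h hh
    apply Subtype.ext
    refine hfaith h h.2 fun v hv => ?_
    have := congrArg (fun w => ((Additive.toMul w : V) : G)) (hh (Additive.ofMul ⟨v, hv⟩))
    exact this
  · exact hcop

end Pool.Agent.helper4.SR
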