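import Pool.Agent.helper4.SR.Struct
import Pool.Agent.helper4.SR.Link

/-!
The step from one primitive quotient to the next one.
-/

namespace Pool.Agent.helper4.SR

open Subgroup

section

variable {G : Type*} [Group G]

lemma faithful {n : ℕ} (h : Prim G n) {H : Subgroup G}
    (hinf : D G n ⊓ H = ⊥) (hsup : D G n ⊔ H = ⊤) :
    ∀ k ∈ H, (∀ v ∈ D G n, k * v * k⁻¹ = v) → k = 1 := by
  have hn : (centralizer (D G n : Set G) ⊓ H).Normal := by
    apply normal_of_sup hsup
    · rintro v hv m ⟨hm1, hm2⟩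
      rw [mem_centralizer_iff.mp hm1 v hv, mul_inv_cancel_right]
      exact ⟨hm1, hm2⟩
    · rintro k hk m ⟨hm1, hm2⟩
      have hcn : (centralizer (D G n : Set G)).Normal := inferInstance
      exact ⟨hcn.conj_mem m hm1 k, H.mul_mem (H.mul_mem hk hm2) (H.inv_mem hk)⟩
  have hb : centralizer (D G n : Set G) ⊓ H = ⊥ := by
    by_contra hne
    apply h.1
    rw [← le_bot_iff, ← hinf]
    exact le_inf le_rfl ((h.2 _ hn hne).trans inf_le_right)
  intro k hk hkv
  rw [← mem_bot, ← hb]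
  refine mem_inf.mpr ⟨?_, hk⟩
  rw [mem_centralizer_iff]
  intro v hv
  exact (mul_inv_eq_iff_eq_mul.mp (hkv v hv)).symm

lemma no_normal_p [Finite G] {n : ℕ} (h : Prim G n) {p : ℕ} (hp : p.Prime)
    (hV : ∀ v ∈ D G n, v ^ p = 1) {H : Subgroup G}
    (hinf : D G n ⊓ H = ⊥) (hsup : D G n ⊔ H = ⊤) (P : Subgroup H) (hPn : P.Normal)
    (hPp : IsPGroup p P) : P = ⊥ := by
  have := Fact.mk hp
  set P' := P.map H.subtype with hP'
  have hP'p : IsPGroup p P' := hPp.map _
  have hVp : IsPGroup p (D G n) := fun v => ⟨1, Subtype.ext (by simpa using hV v v.2)⟩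
  set Q := D G n ⊔ P' with hQ
  have hQp : IsPGroup p Q := hVp.to_sup_of_normal_left hP'p
  have hVQ : D G n ≤ Q := le_sup_left
  have hQn : Q.Normal := by
    apply normal_of_sup hsup
    · intro v hv m hm
      exact Q.mul_mem (Q.mul_mem (hVQ hv) hm) (Q.inv_mem (hVQ hv))
    · intro k hk m hm
      have hm' : m ∈ ((D G n ⊔ P' : Subgroup G) : Set G) := hm
      rw [normal_mul] at hm'
      obtain ⟨v, hv, t, ht, rfl⟩ := Set.mem_mul.mp hm'
      have e1 : k * (v * t) * k⁻¹ = (k * v * k⁻¹) * (k * t * k⁻¹) := by group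
      rw [e1]
      refine Q.mul_mem (hVQ ((D_normal n).conj_mem v hv k)) ?_
      have h2 : k * t * k⁻¹ ∈ P' := by
        obtain ⟨t', ht', rfl⟩ := mem_map.mp ht
        exact mem_map.mpr ⟨⟨k, hk⟩ * t' * ⟨k, hk⟩⁻¹, hPn.conj_mem t' ht' _, rfl⟩
      exact (le_sup_right : P' ≤ Q) h2
  have hQnt : Nontrivial Q := by
    rw [Subgroup.nontrivial_iff_ne_bot]
    intro hb
    exact h.1 (le_bot_iff.mp (hb ▸ hVQ))
  have hZ := hQp.center_nontrivial
  have hZn : ((center Q).map Q.subtype).Normal := ConjAct.normal_of_characteristic_of_normal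
  have hZb : (center Q).map Q.subtype ≠ ⊥ := by
    rw [Ne, Subgroup.map_eq_bot_iff_of_injective _ Q.subtype_injective]
    exact (Subgroup.nontrivial_iff_ne_bot _).mp hZ
  have hVZ := h.2 _ hZn hZb
  rw [eq_bot_iff]
  intro t ht
  rw [mem_bot]
  apply Subtype.ext
  refine faithful h hinf hsup t t.2 ?_
  intro v hv
  obtain ⟨z, hz, hzv⟩ := mem_map.mp (hVZ hv)
  have ht' : (t : G) ∈ Q := (le_sup_right : P' ≤ Q) (mem_map.mpr ⟨t, ht, rfl⟩)
  have := mem_center_iff.mp hz ⟨t, ht'⟩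
  have h3 := congrArg Subtype.val this
  change (t : G) * (z : G) = (z : G) * t at h3
  rw [← hzv]
  change (t : G) * (z : G) * (t : G)⁻¹ = z
  rw [h3, mul_inv_cancel_right]

/-- A complement is isomorphic to the quotient. -/
noncomputable def complEquiv (V H : Subgroup G) [V.Normal] (hinf : V ⊓ H = ⊥)
    (hsup : V ⊔ H = ⊤) : H ≃* G ⧸ V :=
  MulEquiv.ofBijective ((QuotientGroup.mk' V).comp H.subtype) (by
    constructor
    · rw [← MonoidHom.ker_eq_bot_iff, eq_bot_iff]
      intro x hx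
      rw [MonoidHom.mem_ker, MonoidHom.comp_apply, ← MonoidHom.mem_ker,
        QuotientGroup.ker_mk'] at hx
      rw [mem_bot]
      apply Subtype.ext
      have : (x : G) ∈ V ⊓ H := ⟨hx, x.2⟩
      rw [hinf] at this
      exact mem_bot.mp this
    · intro y
      obtain ⟨g, rfl⟩ := QuotientGroup.mk'_surjective V y
      have hg : g ∈ ((V ⊔ H : Subgroup G) : Set G) := by rw [hsup]; trivial
      rw [normal_mul] at hg
      obtain ⟨u, hu, h, hh, rfl⟩ := Set.mem_mul.mp hg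
      refine ⟨⟨h, hh⟩, ?_⟩
      rw [MonoidHom.comp_apply, map_mul]
      have : QuotientGroup.mk' V u = 1 := by
        rw [← MonoidHom.mem_ker, QuotientGroup.ker_mk']
        exact hu
      rw [this, one_mul]
      rfl)

lemma Inv2.compl (hI : Inv2 G) {V H : Subgroup G} [V.Normal] (hinf : V ⊓ H = ⊥)
    (hsup : V ⊔ H = ⊤) : Inv2 H :=
  (hI.of_surjective _ (QuotientGroup.mk'_surjective V)).of_surjective
    (complEquiv V H hinf hsup).symm.toMonoidHom (complEquiv V H hinf hsup).symm.surjective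

lemma exists_ppart [Finite G] (x : G) {s : ℕ} (hs : s.Prime) :
    ∃ c a : ℕ, (x ^ c) ^ (s ^ a) = 1 ∧ ∀ d k : ℕ, d ∣ orderOf x → d ∣ s ^ k → c ≡ 1 [MOD d] := by
  obtain ⟨e, m, hm, hem⟩ := Nat.exists_eq_pow_mul_and_not_dvd (orderOf_pos x).ne' s hs.ne_one
  have hco : Nat.Coprime s m := (Nat.Prime.coprime_iff_not_dvd hs).mpr hm
  obtain ⟨c, hc1, hc2⟩ := Nat.chineseRemainder (hco.pow_left e) 1 0
  refine ⟨c, e, ?_, ?_⟩
  · rw [← pow_mul, ← orderOf_dvd_iff_pow_eq_one, hem, mul_comm]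
    exact Nat.mul_dvd_mul ((Nat.modEq_zero_iff_dvd).mp hc2) dvd_rfl
  · intro d k hd hk
    rw [hem] at hd
    have h1 : Nat.Coprime d m := Nat.Coprime.coprime_dvd_left hk (hco.pow_left k)
    exact hc1.of_dvd (h1.dvd_of_dvd_mul_right hd)

lemma map_ppart {G' : Type*} [Group G'] (f : G →* G') {x : G} {c s k : ℕ}
    (h : ∀ d k : ℕ, d ∣ orderOf x → d ∣ s ^ k → c ≡ 1 [MOD d]) (hk : (f x) ^ (s ^ k) = 1) :
    f (x ^ c) = f x := by
  have h1 := h (orderOf (f x)) k (orderOf_map_dvd f x) (orderOf_dvd_of_pow_eq_one hk)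
  rw [map_pow]
  nth_rw 2 [← pow_one (f x)]
  exact pow_eq_pow_iff_modEq.mpr h1

end

theorem step {K : Type*} [Group K] [Finite K] [Group.IsSolvable K] (hI : Inv2 K) {n : ℕ}
    (hP : Prim K (n + 3)) {p : ℕ} (hp : p.Prime) (hV : ∀ v ∈ D K (n + 3), v ^ p = 1) :
    p ≠ 2 ∧ ∃ (H : Subgroup K) (N : Subgroup H) (_ : N.Normal), Inv2 (H ⧸ N) ∧
      Prim (H ⧸ N) (n + 2) ∧ ∀ v ∈ D (H ⧸ N) (n + 2), v ^ 2 = 1 := by
  classical
  have hc := hP.comm
  obtain ⟨H, hinf, hsup⟩ := exists_compl hP hc hp hV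
  set V := D K (n + 3) with hVdef
  have hVn : V.Normal := D_normal _
  set π := QuotientGroup.mk' V with hπ
  have hπs : Function.Surjective π := QuotientGroup.mk'_surjective V
  have hπker : π.ker = V := QuotientGroup.ker_mk' V
  let e := complEquiv V H hinf hsup
  have hDe : ∀ m, (D H m).map e.toMonoidHom = (D K m).map π := by
    intro m
    rw [map_D e.toMonoidHom e.surjective m, map_D π hπs m]
  have hbot : D H (n + 3) = ⊥ := by
    have h1 := hDe (n + 3)
    rw [← hVdef, (Subgroup.map_eq_bot_iff V).mpr hπker.ge,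
      Subgroup.map_eq_bot_iff_of_injective _ e.injective] at h1
    exact h1
  have hfaithK := faithful hP hinf hsup
  have hne : D H (n + 2) ≠ ⊥ := by
    intro h0
    have h1 := hDe (n + 2)
    rw [h0, Subgroup.map_bot] at h1
    have h2 : D K (n + 2) ≤ V := by
      rw [← hπker, ← Subgroup.map_eq_bot_iff]
      exact h1.symm
    apply hP.1
    rw [D_succ, eq_bot_iff, ← res_eq_bot_of_comm V hc]
    exact res_mono h2
  have hJnil : Group.IsNilpotent (D H (n + 2)) := by
    rw [← res_eq_bot_iff, ← D_succ]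
    exact hbot
  obtain ⟨N, hNn, hP2⟩ := exists_prim (n + 2) hne
  have hIH : Inv2 H := hI.compl hinf hsup
  set ρ := QuotientGroup.mk' N with hρ
  have hρs : Function.Surjective ρ := QuotientGroup.mk'_surjective N
  have hI2 : Inv2 (H ⧸ N) := hIH.of_surjective ρ hρs
  have hc2 := hP2.comm
  obtain ⟨r, hr, hV2⟩ := hP2.exists_prime
  have := Fact.mk hr
  have := Fact.mk hp
  obtain ⟨R⟩ : Nonempty (Sylow r (D H (n + 2))) := inferInstance
  have hRn : (R : Subgroup (D H (n + 2))).Normal := inferInstance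
  have hRc : (R : Subgroup (D H (n + 2))).Characteristic := R.characteristic_of_normal hRn
  set R' : Subgroup H := (R : Subgroup (D H (n + 2))).map (D H (n + 2)).subtype with hR'
  have hR'n : R'.Normal := ConjAct.normal_of_characteristic_of_normal
  have hR'p : IsPGroup r R' := R.isPGroup'.map _
  have hlift : ∀ v ∈ D (H ⧸ N) (n + 2), ∃ z ∈ R', ρ z = v := by
    intro v hv
    rw [← map_D ρ hρs] at hv
    obtain ⟨j, hj, rfl⟩ := mem_map.mp hv
    obtain ⟨c, a, hca, hcd⟩ := exists_ppart j hr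
    have h1 : ρ (j ^ c) = ρ j := by
      refine map_ppart ρ hcd (k := 1) ?_
      rw [pow_one]
      exact hV2 _ (by rw [← map_D ρ hρs]; exact hv)
    refine ⟨j ^ c, ?_, h1⟩
    have hmem : j ^ c ∈ D H (n + 2) := pow_mem hj c
    refine mem_map.mpr ⟨⟨j ^ c, hmem⟩, ?_, rfl⟩
    have hzp : IsPGroup r (zpowers (⟨j ^ c, hmem⟩ : D H (n + 2))) := by
      rintro ⟨y, hy⟩
      obtain ⟨i, rfl⟩ := mem_zpowers_iff.mp hy
      refine ⟨a, Subtype.ext ?_⟩
      change ((⟨j ^ c, hmem⟩ : D H (n + 2)) ^ i) ^ r ^ a = 1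
      rw [← zpow_natCast, ← zpow_mul, mul_comm, zpow_mul, zpow_natCast]
      have : (⟨j ^ c, hmem⟩ : D H (n + 2)) ^ r ^ a = 1 := Subtype.ext hca
      rw [this, one_zpow]
    have h2 : zpowers (⟨j ^ c, hmem⟩ : D H (n + 2)) ≤ R := by
      have h3 := R.is_maximal' (R.isPGroup'.to_sup_of_normal_left hzp) le_sup_left
      exact sup_eq_left.mp h3
    exact h2 (mem_zpowers _)
  have hrp : r ≠ p := by
    intro hrp
    have h1 : R' = ⊥ := by
      refine no_normal_p hP hp hV hinf hsup R' hR'n ?_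
      rw [← hrp]
      exact hR'p
    apply hP2.1
    rw [eq_bot_iff]
    intro v hv
    obtain ⟨z, hz, rfl⟩ := hlift v hv
    rw [h1, mem_bot] at hz
    rw [hz, map_one]
    exact one_mem _
  have hr2 : r = 2 := by
    by_contra hr2
    have hr3 : 3 ≤ r := by
      have := hr.two_le
      omega
    obtain ⟨H2, hinf2, hsup2⟩ := exists_compl hP2 hc2 hr hV2
    have hfaith2 := faithful hP2 hinf2 hsup2
    have hI3 : Inv2 H2 := hI2.compl hinf2 hsup2
    have hVp : IsPGroup p V := fun v => ⟨1, Subtype.ext (by simpa using hV v v.2)⟩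
    have hcop : Nat.Coprime r (Nat.card V) := by
      obtain ⟨k, hk⟩ := IsPGroup.iff_card.mp hVp
      rw [hk]
      exact Nat.Coprime.pow_right k ((Nat.coprime_primes hr hp).mpr hrp)
    have hsq : ∀ s : ℕ, s.Prime → s ≠ r → ∀ y : H2, (∃ k, y ^ (s ^ k) = 1) → y ^ 2 = 1 := by
      rintro s hs hsr y ⟨k, hk⟩
      obtain ⟨x0, hx0⟩ := hρs (y : H ⧸ N)
      obtain ⟨c, a, hca, hcd⟩ := exists_ppart x0 hs
      have h1 : ρ (x0 ^ c) = ρ x0 := by
        refine map_ppart ρ hcd (k := k) ?_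
        rw [hx0]
        have := congrArg Subtype.val hk
        simpa using this
      have hkey := key_group hI V H hc hinf hsup hfaithK hr hr3 hs hsr hcop R'
        (fun z hz => by
          obtain ⟨m, hm⟩ := hR'p ⟨z, hz⟩
          exact ⟨m, by simpa using congrArg Subtype.val hm⟩)
        (x0 ^ c) ⟨a, hca⟩ (fun z hz => hR'n.conj_mem z hz _)
      apply Subtype.ext
      refine hfaith2 _ (y ^ 2).2 ?_
      intro v hv
      obtain ⟨z, hz, rfl⟩ := hlift v hv
      have h2 := congrArg ρ (hkey z hz)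
      rw [map_mul, map_mul, map_pow, h1, hx0] at h2
      rw [mul_inv_eq_iff_eq_mul]
      exact h2
    have hcomm : ∀ a b : H2, a * b = b * a :=
      comm_of_struct hI3 hr2 hsq (fun P hPn hPp => no_normal_p hP2 hr hV2 hinf2 hsup2 P hPn hPp)
    have hc3 : ∀ a b : (H ⧸ N) ⧸ D (H ⧸ N) (n + 2), a * b = b * a := by
      intro a b
      let e2 := complEquiv _ H2 hinf2 hsup2
      obtain ⟨a, rfl⟩ := e2.surjective a
      obtain ⟨b, rfl⟩ := e2.surjective b
      rw [← map_mul, hcomm, map_mul]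
    have h1 : D (H ⧸ N) 1 ≤ D (H ⧸ N) (n + 2) := by
      have h2 : (D (H ⧸ N) 1).map (QuotientGroup.mk' (D (H ⧸ N) (n + 2))) = ⊥ := by
        rw [map_D _ (QuotientGroup.mk'_surjective _)]
        exact res_eq_bot_of_comm _ fun a _ b _ => hc3 a b
      rwa [Subgroup.map_eq_bot_iff, QuotientGroup.ker_mk'] at h2
    apply hP2.1
    rw [eq_bot_iff]
    calc D (H ⧸ N) (n + 2) ≤ D (H ⧸ N) 2 := D_antitone (by omega)
      _ = res (D (H ⧸ N) 1) := rfl
      _ ≤ res (D (H ⧸ N) (n + 2)) := res_mono h1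
      _ = ⊥ := res_eq_bot_of_comm _ hc2
  refine ⟨fun h => hrp (hr2.trans h.symm), H, N, hNn, hI2, hP2, ?_⟩
  intro v hv
  have h3 := hV2 v hv
  rwa [hr2] at h3

/-- The fourth iterated nilpotent residual is trivial. -/
theorem D_four {G : Type*} [Group G] [Finite G] [Group.IsSolvable G] (hI : Inv2 G) :
    D G 4 = ⊥ := by
  by_contra hne
  obtain ⟨N, hN, hP⟩ := exists_prim 4 hne
  obtain ⟨p, hp, hV⟩ := hP.exists_prime
  obtain ⟨-, H, N', hN', hI2, hP2, hV2⟩ :=
    step (n := 1) (hI.of_surjective _ (QuotientGroup.mk'_surjective N)) hP hp hV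
  exact (step (n := 0) hI2 hP2 Nat.prime_two hV2).1 rfl

end Pool.Agent.helper4.SR
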