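import Mathlib

/-!
A rigidity lemma for irreducible actions of a two generated group on a finite abelian group.

`A` and `B` are additive automorphisms of the finite abelian group `U`, which has no proper
nonzero subgroup stable under both, and which do not commute. If every pair `(v, w)` is, up to
a pair of the form `(t - A t, t - B t)`, sent to `(-v, -w)` by some map
`(v, w) ↦ (A (h v), B (h w))`, with `h` inverting `A` and `B`, then a single `h` works for all
pairs, and commutes with all endomorphisms commuting with `A` and `B`.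
-/

namespace Pool.Agent.helper4.SR

section

variable {U : Type*} [AddCommGroup U] (A B : U ≃+ U)

/-- `h` inverts both `A` and `B`. -/
def Inverts (h : U ≃+ U) : Prop :=
  (∀ u, h (A u) = A.symm (h u)) ∧ (∀ u, h (B u) = B.symm (h u))

/-- The pairs `(t - A t, t - B t)`. -/
def cob : AddSubgroup (U × U) :=
  ((AddMonoidHom.id U - (A : U →+ U)).prod (AddMonoidHom.id U - (B : U →+ U))).range

/-- The endomorphisms commuting with `A` and `B`. -/
def CC (e : U →+ U) : Prop := (∀ u, A (e u) = e (A u)) ∧ (∀ u, B (e u) = e (B u))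

variable {A B}

lemma mem_cob {c : U × U} : c ∈ cob A B ↔ ∃ t, c.1 = t - A t ∧ c.2 = t - B t := by
  constructor
  · rintro ⟨t, rfl⟩
    exact ⟨t, rfl, rfl⟩
  · rintro ⟨t, h1, h2⟩
    exact ⟨t, Prod.ext h1.symm h2.symm⟩

/-- Diagonal action on pairs. -/
def dg (e : U →+ U) : U × U →+ U × U := AddMonoidHom.prodMap e e

@[simp] lemma dg_apply (e : U →+ U) (c : U × U) : dg e c = (e c.1, e c.2) := rfl

lemma dg_mem {e : U →+ U} (he : CC A B e) {c : U × U} (hc : c ∈ cob A B) :
    dg e c ∈ cob A B := by
  obtain ⟨t, h1, h2⟩ := mem_cob.mp hc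
  refine mem_cob.mpr ⟨e t, ?_, ?_⟩
  · rw [dg_apply, h1, map_sub, he.1]
  · rw [dg_apply, h2, map_sub, he.2]

lemma CC.comp {e f : U →+ U} (he : CC A B e) (hf : CC A B f) : CC A B (e.comp f) :=
  ⟨fun u => by simp [he.1, hf.1], fun u => by simp [he.2, hf.2]⟩

lemma CC.neg {e : U →+ U} (he : CC A B e) : CC A B (-e) :=
  ⟨fun u => by simp [he.1], fun u => by simp [he.2]⟩

lemma CC.add {e f : U →+ U} (he : CC A B e) (hf : CC A B f) : CC A B (e + f) :=
  ⟨fun u => by simp [he.1, hf.1], fun u => by simp [he.2, hf.2]⟩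

lemma CC.sub {e f : U →+ U} (he : CC A B e) (hf : CC A B f) : CC A B (e - f) :=
  ⟨fun u => by simp [he.1, hf.1], fun u => by simp [he.2, hf.2]⟩

lemma CC.id : CC A B (AddMonoidHom.id U) := ⟨fun _ => rfl, fun _ => rfl⟩

lemma CC.zero : CC A B (0 : U →+ U) := ⟨fun u => by simp, fun u => by simp⟩

/-- Irreducibility. -/
def Irred (A B : U ≃+ U) : Prop :=
  ∀ W : AddSubgroup U, (∀ w ∈ W, A w ∈ W) → (∀ w ∈ W, B w ∈ W) → W = ⊥ ∨ W = ⊤

variable [Finite U]

lemma CC.bij {e : U →+ U} (he : CC A B e) (hirr : Irred A B) (h0 : e ≠ 0) :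
    Function.Bijective e := by
  have hinj : Function.Injective e := by
    have h1 := hirr e.ker
      (fun w hw => by
        rw [AddMonoidHom.mem_ker] at hw ⊢
        rw [← he.1, hw, map_zero])
      (fun w hw => by
        rw [AddMonoidHom.mem_ker] at hw ⊢
        rw [← he.2, hw, map_zero])
    rcases h1 with h1 | h1
    · exact (AddMonoidHom.ker_eq_bot_iff e).mp h1
    · exfalso
      apply h0
      ext u
      have : u ∈ e.ker := by rw [h1]; trivial
      exact this
  exact Finite.injective_iff_bijective.mp hinj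

/-- The inverse of a nonzero element. -/
lemma CC.exists_inv {e : U →+ U} (he : CC A B e) (hirr : Irred A B) (h0 : e ≠ 0) :
    ∃ f : U →+ U, CC A B f ∧ (∀ u, e (f u) = u) ∧ (∀ u, f (e u) = u) := by
  have hb := he.bij hirr h0
  let E := AddEquiv.ofBijective e hb
  have h1 : ∀ u, e (E.symm u) = u := fun u => E.apply_symm_apply u
  have h2 : ∀ u, E.symm (e u) = u := fun u => E.symm_apply_apply u
  refine ⟨(E.symm : U →+ U), ⟨fun u => ?_, fun u => ?_⟩, h1, h2⟩
  · apply hb.1
    change e (A (E.symm u)) = e (E.symm (A u))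
    rw [← he.1, h1, h1]
  · apply hb.1
    change e (B (E.symm u)) = e (E.symm (B u))
    rw [← he.2, h1, h1]

lemma card_cob_le : Nat.card (cob A B) ≤ Nat.card U := by
  unfold cob
  exact Nat.card_le_card_of_surjective _
    (AddMonoidHom.rangeRestrict_surjective
      ((AddMonoidHom.id U - (A : U →+ U)).prod (AddMonoidHom.id U - (B : U →+ U))))

lemma exists_notMem_cob [Nontrivial U] : ∃ c : U × U, c ∉ cob A B := by
  by_contra hcon
  push Not at hcon
  have h1 : cob A B = ⊤ := by
    ext c; simp [hcon c]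
  have h2 := card_cob_le (A := A) (B := B)
  rw [h1] at h2
  have h3 : Nat.card (⊤ : AddSubgroup (U × U)) = Nat.card U * Nat.card U := by
    rw [AddSubgroup.card_top, Nat.card_prod]
  rw [h3] at h2
  have h4 : 1 < Nat.card U := Finite.one_lt_card
  nlinarith

lemma mem_cob_of_dg (hirr : Irred A B) {e : U →+ U} (he : CC A B e) (h0 : e ≠ 0)
    {c : U × U} (hc : dg e c ∈ cob A B) : c ∈ cob A B := by
  obtain ⟨f, hf, -, h2⟩ := he.exists_inv hirr h0
  have := dg_mem hf hc
  simpa [h2] using this

/-- Independent pairs modulo the pairs `(t - A t, t - B t)`. -/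
def Indep (A B : U ≃+ U) (c c' : U × U) : Prop :=
  ∀ e, CC A B e → ∀ e', CC A B e' → dg e c + dg e' c' ∈ cob A B → e = 0 ∧ e' = 0

omit [Finite U] in
lemma Indep.symm {c c' : U × U} (h : Indep A B c c') : Indep A B c' c := by
  intro e he e' he' hm
  rw [add_comm] at hm
  exact (h e' he' e he hm).symm

omit [Finite U] in
lemma dg_zero (c : U × U) : dg (0 : U →+ U) c = 0 := by ext <;> simp

lemma exists_of_not_indep (hirr : Irred A B) {c c' : U × U} (hc : c ∉ cob A B)
    (h : ¬ Indep A B c c') : ∃ f, CC A B f ∧ c' - dg f c ∈ cob A B := by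
  unfold Indep at h
  push Not at h
  obtain ⟨e, he, e', he', hmem, h2⟩ := h
  have he'0 : e' ≠ 0 := by
    intro h0
    rw [h0] at hmem
    have he0 : e ≠ 0 := fun h3 => h2 h3 h0
    apply hc
    apply mem_cob_of_dg hirr he he0
    rwa [dg_zero, add_zero] at hmem
  obtain ⟨f, hf, h3, h4⟩ := he'.exists_inv hirr he'0
  refine ⟨-(f.comp e), (hf.comp he).neg, ?_⟩
  have := dg_mem hf hmem
  have h5 : c' - dg (-(f.comp e)) c = dg f (dg e c + dg e' c') := by
    ext
    · simp [h4, add_comm]
    · simp [h4, add_comm]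
  rw [h5]
  exact this

/-- The additive map determined by `h`, up to sign. -/
def Psi (A B h : U ≃+ U) (c : U × U) : U × U := (-(A (h c.1)), -(B (h c.2)))

omit [Finite U] in
lemma Psi_add (h : U ≃+ U) (c c' : U × U) : Psi A B h (c + c') = Psi A B h c + Psi A B h c' := by
  unfold Psi
  ext <;> simp [add_comm]

omit [Finite U] in
lemma Psi_mem {h : U ≃+ U} (hh : Inverts A B h) {c : U × U} (hc : c ∈ cob A B) :
    Psi A B h c ∈ cob A B := by
  obtain ⟨t, h1, h2⟩ := mem_cob.mp hc
  refine mem_cob.mpr ⟨h t, ?_, ?_⟩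
  · simp [Psi, h1, hh.1]
  · simp [Psi, h2, hh.2]

/-- By the theorem of Wedderburn, the commuting endomorphisms commute with each other. -/
lemma CC.comm [Nontrivial U] (hirr : Irred A B) {e f : U →+ U} (he : CC A B e) (hf : CC A B f)
    (u : U) : e (f u) = f (e u) := by
  let S : Subring (AddMonoid.End U) :=
    { carrier := {e : AddMonoid.End U | CC A B e}
      mul_mem' := fun {e f} he hf => CC.comp he hf
      one_mem' := CC.id
      add_mem' := fun {e f} he hf => CC.add he hf
      zero_mem' := CC.zero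
      neg_mem' := fun {e} he => CC.neg he }
  have hdom : IsDomain S := by
    have : NoZeroDivisors S := by
      constructor
      rintro ⟨e, he⟩ ⟨f, hf⟩ hef
      by_cases h0 : e = 0
      · left; exact Subtype.ext h0
      · right
        apply Subtype.ext
        obtain ⟨g, -, -, h3⟩ := CC.exists_inv he hirr h0
        have h4 : e * f = 0 := congrArg Subtype.val hef
        apply AddMonoidHom.ext
        intro u
        have h5 : e (f u) = 0 := DFunLike.congr_fun h4 u
        have h6 := h3 (f u)
        change g (e (f u)) = f u at h6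
        rw [h5, map_zero] at h6
        exact h6.symm
    have hnt : Nontrivial S := by
      refine ⟨⟨0, 1, ?_⟩⟩
      intro h
      obtain ⟨u, hu⟩ := exists_ne (0 : U)
      have h2 : (0 : AddMonoid.End U) = 1 := congrArg Subtype.val h
      exact hu (DFunLike.congr_fun h2 u).symm
    exact NoZeroDivisors.to_isDomain S
  have hfin : Finite S := by
    have : Finite (AddMonoid.End U) := by
      exact Finite.of_injective (fun e : AddMonoid.End U => (e : U → U)) DFunLike.coe_injective
    infer_instance
  have hfield : IsField S := Finite.isDomain_to_isField S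
  have hcomm := hfield.mul_comm ⟨e, he⟩ ⟨f, hf⟩
  exact DFunLike.congr_fun (congrArg Subtype.val hcomm) u

lemma exists_indep [Nontrivial U] (hirr : Irred A B) (hnc : ∃ w, A (B w) ≠ B (A w)) :
    ∃ c c' : U × U, Indep A B c c' ∧ c ∉ cob A B ∧ c' ∉ cob A B := by
  obtain ⟨c, hc⟩ := exists_notMem_cob (A := A) (B := B)
  by_contra hcon
  push Not at hcon
  have h1 : ∀ c', ∃ f, CC A B f ∧ c' - dg f c ∈ cob A B := by
    intro c'
    by_cases h : Indep A B c c'
    · refine ⟨0, CC.zero, ?_⟩
      rw [dg_zero, sub_zero]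
      exact hcon c c' h hc
    · exact exists_of_not_indep hirr hc h
  have : Finite (U →+ U) := by
    exact Finite.of_injective (fun e : U →+ U => (e : U → U)) DFunLike.coe_injective
  let T := {e : U →+ U // CC A B e}
  obtain ⟨w0, hw0⟩ := exists_ne (0 : U)
  have hsurj : Function.Surjective (fun p : T × cob A B => dg p.1.1 c + p.2) := by
    intro c'
    obtain ⟨f, hf, h2⟩ := h1 c'
    refine ⟨(⟨f, hf⟩, ⟨_, h2⟩), ?_⟩
    change dg f c + (c' - dg f c) = c'
    abel
  have hcard1 : Nat.card U * Nat.card U ≤ Nat.card T * Nat.card U := by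
    calc Nat.card U * Nat.card U = Nat.card (U × U) := (Nat.card_prod _ _).symm
      _ ≤ Nat.card (T × cob A B) := Nat.card_le_card_of_surjective _ hsurj
      _ = Nat.card T * Nat.card (cob A B) := Nat.card_prod _ _
      _ ≤ _ := Nat.mul_le_mul_left _ card_cob_le
  have hcard2 : Nat.card U ≤ Nat.card T := by
    have : 0 < Nat.card U := Nat.card_pos
    exact Nat.le_of_mul_le_mul_right hcard1 this
  have hinj : Function.Injective (fun e : T => e.1 w0) := by
    intro e f hef
    by_contra hne
    have h4 : e.1 - f.1 ≠ 0 := fun h => hne (Subtype.ext (sub_eq_zero.mp h))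
    have h5 := ((e.2.sub f.2).bij hirr h4).1
    apply hw0
    apply h5
    rw [map_zero]
    change e.1 w0 - f.1 w0 = 0
    exact sub_eq_zero.mpr hef
  have hbij : Function.Bijective (fun e : T => e.1 w0) := by
    rw [Nat.bijective_iff_injective_and_card]
    exact ⟨hinj, le_antisymm (Nat.card_le_card_of_injective _ hinj) hcard2⟩
  obtain ⟨⟨ea, hea'⟩, hea⟩ := hbij.2 (A w0)
  obtain ⟨⟨eb, heb'⟩, heb⟩ := hbij.2 (B w0)
  obtain ⟨w, hw⟩ := hnc
  apply hw
  obtain ⟨⟨e, he⟩, rfl⟩ := hbij.2 w
  change ea w0 = A w0 at hea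
  change eb w0 = B w0 at heb
  change A (B (e w0)) = B (A (e w0))
  rw [he.2, he.1, he.1, he.2, ← hea, ← heb, heb'.1, hea'.2, ← hea, ← heb, hea'.comm hirr heb']

/-- The rigidity lemma. -/
theorem rigid [Nontrivial U] (hirr : Irred A B) (hnc : ∃ w, A (B w) ≠ B (A w))
    (hstar : ∀ c : U × U, c ∉ cob A B →
      ∃ h : U ≃+ U, Inverts A B h ∧ c - Psi A B h c ∈ cob A B) :
    ∃ h : U ≃+ U, Inverts A B h ∧ (∀ e : U →+ U, CC A B e → ∀ u, h (e u) = e (h u)) ∧
      ∀ c : U × U, c - Psi A B h c ∈ cob A B := by
  obtain ⟨c1, c2, hind, hc1, hc2⟩ := exists_indep hirr hnc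
  obtain ⟨h0, hh0, -⟩ := hstar c1 hc1
  -- every inverting map differs from `h0` by a commuting endomorphism
  have key : ∀ c : U × U, ∃ f : U →+ U, CC A B f ∧ Psi A B h0 c - dg f c ∈ cob A B := by
    intro c
    by_cases hc : c ∈ cob A B
    · exact ⟨0, CC.zero, by rw [dg_zero, sub_zero]; exact Psi_mem hh0 hc⟩
    · obtain ⟨h, hh, hm⟩ := hstar c hc
      -- f = h0 ∘ h⁻¹
      let f : U →+ U := ((h.symm.trans h0 : U ≃+ U) : U →+ U)
      have hf : ∀ u, f (h u) = h0 u := fun u => by simp [f]
      have hfC : CC A B f := by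
        constructor
        · intro u
          obtain ⟨v, rfl⟩ := h.surjective u
          have h1 : A (h v) = h (A.symm v) := by
            have := hh.1 (A.symm v)
            rw [A.apply_symm_apply] at this
            rw [this, A.apply_symm_apply]
          have h2 : A (h0 v) = h0 (A.symm v) := by
            have := hh0.1 (A.symm v)
            rw [A.apply_symm_apply] at this
            rw [this, A.apply_symm_apply]
          rw [hf, h1, hf, h2]
        · intro u
          obtain ⟨v, rfl⟩ := h.surjective u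
          have h1 : B (h v) = h (B.symm v) := by
            have := hh.2 (B.symm v)
            rw [B.apply_symm_apply] at this
            rw [this, B.apply_symm_apply]
          have h2 : B (h0 v) = h0 (B.symm v) := by
            have := hh0.2 (B.symm v)
            rw [B.apply_symm_apply] at this
            rw [this, B.apply_symm_apply]
          rw [hf, h1, hf, h2]
      refine ⟨f, hfC, ?_⟩
      have h3 : Psi A B h0 c - dg f c = - dg f (c - Psi A B h c) := by
        ext
        · simp only [Psi, Prod.fst_sub, dg_apply, Prod.fst_neg, map_sub, map_neg]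
          rw [← hfC.1, hf]; abel
        · simp only [Psi, Prod.snd_sub, dg_apply, Prod.snd_neg, map_sub, map_neg]
          rw [← hfC.2, hf]; abel
      rw [h3]
      exact AddSubgroup.neg_mem _ (dg_mem hfC hm)
  choose η hη1 hη2 using key
  have hpair : ∀ c c' : U × U, Indep A B c c' → η c = η c' := by
    intro c c' hi
    have h1 := hη2 (c + c')
    rw [Psi_add, map_add] at h1
    have h2 : dg (η (c + c') - η c) c + dg (η (c + c') - η c') c' ∈ cob A B := by
      have h3 : dg (η (c + c') - η c) c + dg (η (c + c') - η c') c'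
          = (Psi A B h0 c - dg (η c) c) + (Psi A B h0 c' - dg (η c') c')
            - (Psi A B h0 c + Psi A B h0 c' - (dg (η (c + c')) c + dg (η (c + c')) c')) := by
        ext <;> simp <;> abel
      rw [h3]
      exact AddSubgroup.sub_mem _ (AddSubgroup.add_mem _ (hη2 c) (hη2 c')) h1
    obtain ⟨h4, h5⟩ := hi _ ((hη1 _).sub (hη1 _)) _ ((hη1 _).sub (hη1 _)) h2
    exact (sub_eq_zero.mp h4).symm.trans (sub_eq_zero.mp h5)
  have hall : ∀ c : U × U, Psi A B h0 c - dg (η c1) c ∈ cob A B := by
    intro c
    by_cases hc : c ∈ cob A B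
    · exact AddSubgroup.sub_mem _ (Psi_mem hh0 hc) (dg_mem (hη1 _) hc)
    · by_cases h1 : Indep A B c1 c
      · rw [hpair c1 c h1]; exact hη2 c
      · obtain ⟨f, hf, hfm⟩ := exists_of_not_indep hirr hc1 h1
        have h2 : Indep A B c2 c := by
          intro e he e' he' hm
          have h3 : dg (e'.comp f) c1 + dg e c2 ∈ cob A B := by
            have h4 : dg (e'.comp f) c1 + dg e c2 = (dg e c2 + dg e' c) - dg e' (c - dg f c1) := by
              ext <;> simp <;> abel
            rw [h4]
            exact AddSubgroup.sub_mem _ hm (dg_mem he' hfm)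
          obtain ⟨h5, h6⟩ := hind _ (he'.comp hf) _ he h3
          refine ⟨h6, ?_⟩
          by_contra he0
          obtain ⟨g, -, -, hg⟩ := he'.exists_inv hirr he0
          have hf0 : f = 0 := by
            ext u
            have := DFunLike.congr_fun h5 u
            have h7 := hg (f u)
            simp only [AddMonoidHom.comp_apply, AddMonoidHom.zero_apply] at this
            rw [this, map_zero] at h7
            exact h7.symm
          apply hc
          rwa [hf0, dg_zero, sub_zero] at hfm
        rw [hpair c1 c2 hind, hpair c2 c h2]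
        exact hη2 c
  -- the scalar is invertible
  have hε0 : η c1 ≠ 0 := by
    intro h1
    obtain ⟨c, hc⟩ := exists_notMem_cob (A := A) (B := B)
    apply hc
    have h2 := hall (h0.symm (A.symm (-c.1)), h0.symm (B.symm (-c.2)))
    rw [h1, dg_zero, sub_zero] at h2
    simpa [Psi] using h2
  obtain ⟨g, hg, hg1, hg2⟩ := (hη1 c1).exists_inv hirr hε0
  have hgbij : Function.Bijective g := ⟨fun x y hxy => by rw [← hg1 x, ← hg1 y, hxy],
    fun x => ⟨_, hg2 x⟩⟩
  let G : U ≃+ U := AddEquiv.ofBijective g hgbij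
  have hG : ∀ u, G u = g u := fun u => rfl
  have hinv : Inverts A B (h0.trans G) := by
    constructor
    · intro u
      simp only [AddEquiv.trans_apply, hG]
      rw [hh0.1]
      apply A.injective
      rw [A.apply_symm_apply, hg.1, A.apply_symm_apply]
    · intro u
      simp only [AddEquiv.trans_apply, hG]
      rw [hh0.2]
      apply B.injective
      rw [B.apply_symm_apply, hg.2, B.apply_symm_apply]
  have hfix : ∀ c : U × U, c - Psi A B (h0.trans G) c ∈ cob A B := by
    intro c
    have h3 : c - Psi A B (h0.trans G) c = - dg g (Psi A B h0 c - dg (η c1) c) := by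
      ext
      · simp only [Psi, Prod.fst_sub, dg_apply, Prod.fst_neg, map_sub, map_neg, hg2,
          AddEquiv.trans_apply, hG]
        rw [← hg.1]; abel
      · simp only [Psi, Prod.snd_sub, dg_apply, Prod.snd_neg, map_sub, map_neg, hg2,
          AddEquiv.trans_apply, hG]
        rw [← hg.2]; abel
    rw [h3]
    exact AddSubgroup.neg_mem _ (dg_mem hg (hall c))
  refine ⟨h0.trans G, hinv, ?_, hfix⟩
  set h := h0.trans G with hh
  intro e he
  have hA' : ∀ v, A (h v) = h (A.symm v) := by
    intro v
    have := hinv.1 (A.symm v)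
    rw [A.apply_symm_apply] at this
    rw [this, A.apply_symm_apply]
  have hB' : ∀ v, B (h v) = h (B.symm v) := by
    intro v
    have := hinv.2 (B.symm v)
    rw [B.apply_symm_apply] at this
    rw [this, B.apply_symm_apply]
  have heA : ∀ v, A.symm (e v) = e (A.symm v) := by
    intro v
    apply A.injective
    rw [A.apply_symm_apply, he.1, A.apply_symm_apply]
  have heB : ∀ v, B.symm (e v) = e (B.symm v) := by
    intro v
    apply B.injective
    rw [B.apply_symm_apply, he.2, B.apply_symm_apply]
  let e' : U →+ U := (h : U →+ U).comp (e.comp (h.symm : U →+ U))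
  have he' : ∀ u, e' (h u) = h (e u) := fun u => by simp [e']
  have heC : CC A B e' := by
    constructor
    · intro u
      obtain ⟨v, rfl⟩ := h.surjective u
      rw [he', hA', hA', he', heA]
    · intro u
      obtain ⟨v, rfl⟩ := h.surjective u
      rw [he', hB', hB', he', heB]
  have hd : ∀ c, dg (e - e') c ∈ cob A B := by
    intro c
    have h3 : dg (e - e') c = (dg e c - Psi A B h (dg e c)) - dg e' (c - Psi A B h c) := by
      have h4 : Psi A B h (dg e c) = dg e' (Psi A B h c) := by
        ext
        · simp only [Psi, dg_apply, map_neg]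
          rw [← heC.1, he']
        · simp only [Psi, dg_apply, map_neg]
          rw [← heC.2, he']
      rw [h4, map_sub]
      ext <;> simp
    rw [h3]
    exact AddSubgroup.sub_mem _ (hfix _) (dg_mem heC (hfix c))
  have hee : e - e' = 0 := by
    by_contra hne
    obtain ⟨c, hc⟩ := exists_notMem_cob (A := A) (B := B)
    exact hc (mem_cob_of_dg hirr (he.sub heC) hne (hd c))
  intro u
  rw [← he', ← sub_eq_zero.mp hee]

/-- The fixed points of an automorphism. -/
def fx (A : U ≃+ U) : AddSubgroup U := (AddMonoidHom.id U - (A : U →+ U)).ker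

omit [Finite U] in
lemma mem_fx {A : U ≃+ U} {u : U} : u ∈ fx A ↔ A u = u := by
  unfold fx
  rw [AddMonoidHom.mem_ker]
  change u - A u = 0 ↔ _
  rw [sub_eq_zero]
  exact eq_comm

lemma card_fx_mul (A : U ≃+ U) :
    Nat.card (fx A) * Nat.card (AddMonoidHom.id U - (A : U →+ U)).range = Nat.card U := by
  have := AddSubgroup.card_eq_card_quotient_mul_card_addSubgroup (fx A)
  rw [this, mul_comm]
  congr 1
  exact Nat.card_congr (QuotientAddGroup.quotientKerEquivRange _).toEquiv.symm

/-- The main inequality. -/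
theorem card_le [Nontrivial U] (hirr : Irred A B) (hnc : ∃ w, A (B w) ≠ B (A w))
    (hstar : ∀ c : U × U, c ∉ cob A B →
      ∃ h : U ≃+ U, Inverts A B h ∧ c - Psi A B h c ∈ cob A B) :
    Nat.card U ≤ Nat.card (fx A) * Nat.card (fx B) * Nat.card (fx (A.symm.trans B)) := by
  obtain ⟨h, hh, -, hfix⟩ := rigid hirr hnc hstar
  have h1 : ∀ v, ∃ t, B t = t ∧ v + A (h v) = t - A t := by
    intro v
    obtain ⟨t, ht1, ht2⟩ := mem_cob.mp (hfix (v, 0))
    simp only [Psi, Prod.fst_sub, Prod.snd_sub, map_zero, neg_zero, sub_zero, sub_neg_eq_add]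
      at ht1 ht2
    exact ⟨t, (sub_eq_zero.mp ht2.symm).symm, ht1⟩
  have h2 : ∀ w, ∃ t, A t = t ∧ w + B (h w) = t - B t := by
    intro w
    obtain ⟨t, ht1, ht2⟩ := mem_cob.mp (hfix (0, w))
    simp only [Psi, Prod.fst_sub, Prod.snd_sub, map_zero, neg_zero, sub_zero, sub_neg_eq_add]
      at ht1 ht2
    exact ⟨t, (sub_eq_zero.mp ht1.symm).symm, ht2⟩
  choose p hp1 hp2 using h1
  choose q hq1 hq2 using h2
  have hsurj : ∀ y ∈ (AddMonoidHom.id U - ((A.symm.trans B : U ≃+ U) : U →+ U)).range,
      ∃ s : fx B × fx A, (s.1 : U) - A s.1 - ((s.2 : U) - B s.2) = y := by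
    rintro _ ⟨y, rfl⟩
    obtain ⟨v, rfl⟩ : ∃ v, A (h v) = y := ⟨h.symm (A.symm y), by simp⟩
    refine ⟨(⟨p v, mem_fx.mpr (hp1 v)⟩, ⟨q v, mem_fx.mpr (hq1 v)⟩), ?_⟩
    change p v - A (p v) - (q v - B (q v)) = A (h v) - B (A.symm (A (h v)))
    rw [← hp2, ← hq2, A.symm_apply_apply]
    abel
  have hcard : Nat.card (AddMonoidHom.id U - ((A.symm.trans B : U ≃+ U) : U →+ U)).range
      ≤ Nat.card (fx B) * Nat.card (fx A) := by
    rw [← Nat.card_prod]
    choose s hs using hsurj
    exact Nat.card_le_card_of_injective (fun y => s y.1 y.2) (fun y y' hyy => by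
      apply Subtype.ext
      rw [← hs y.1 y.2, ← hs y'.1 y'.2]
      simp only at hyy
      rw [hyy])
  rw [← card_fx_mul (A.symm.trans B), mul_comm]
  refine Nat.mul_le_mul_right _ (hcard.trans (le_of_eq (mul_comm _ _)))

end

end Pool.Agent.helper4.SR
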