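import Mathlib
import Pool.Agent.helper4.SR.Scalar

/-!
From a group action with simultaneous inversion to the rigidity lemma.
-/

open scoped Pointwise

namespace Pool.Agent.helper4.SR

variable {H V : Type*} [Group H] [Finite H] [AddCommGroup V] [Finite V] [DistribMulAction H V]

/-- The simultaneous inversion property of the semidirect product `V ⋊ H`, in terms of the
action. -/
def Star (H V : Type*) [Group H] [AddCommGroup V] [DistribMulAction H V] : Prop :=
  ∀ (a b : H) (v w : V), ∃ (h : H) (t : V), h * a * h⁻¹ = a⁻¹ ∧ h * b * h⁻¹ = b⁻¹ ∧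
    v + (a * h) • v = t - a • t ∧ w + (b * h) • w = t - b • t

omit [Finite H] [Finite V] in
lemma smul_mem_of {U : AddSubgroup V} {h : H} (hh : h • U = U) {u : V} (hu : u ∈ U) :
    h • u ∈ U := by
  have := AddSubgroup.smul_mem_pointwise_smul u h U hu
  rwa [hh] at this

omit [Finite H] in
lemma smul_eq_of {U : AddSubgroup V} {h : H} (hh : ∀ u ∈ U, h • u ∈ U) : h • U = U := by
  have h1 : h • U ≤ U := by
    intro x hx
    obtain ⟨u, hu, rfl⟩ := (AddSubgroup.mem_smul_pointwise_iff_exists _ _ _).mp hx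
    exact hh u hu
  have h2 : Nat.card (h • U : AddSubgroup V) = Nat.card U := by
    refine (Nat.card_congr (Equiv.ofBijective (fun u : U => (⟨h • (u : V),
      AddSubgroup.smul_mem_pointwise_smul _ _ _ u.2⟩ : (h • U : AddSubgroup V))) ⟨?_, ?_⟩)).symm
    · intro u v huv
      simpa using huv
    · rintro ⟨x, hx⟩
      obtain ⟨u, hu, rfl⟩ := (AddSubgroup.mem_smul_pointwise_iff_exists _ _ _).mp hx
      exact ⟨⟨u, hu⟩, rfl⟩
  exact AddSubgroup.eq_of_le_of_card_ge h1 h2.ge

/-- The restriction of the action of `h` to a stable subgroup. -/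
def act (U : AddSubgroup V) (h : H) (hh : h • U = U) : U ≃+ U where
  toFun u := ⟨h • (u : V), smul_mem_of hh u.2⟩
  invFun u := ⟨h⁻¹ • (u : V), smul_mem_of (by rw [inv_smul_eq_iff, hh]) u.2⟩
  left_inv u := by ext; simp
  right_inv u := by ext; simp
  map_add' u v := by ext; simp

omit [Finite H] [Finite V] in
@[simp] lemma act_apply (U : AddSubgroup V) (h : H) (hh : h • U = U) (u : U) :
    (act U h hh u : V) = h • (u : V) := rfl

omit [Finite H] [Finite V] in
@[simp] lemma act_symm_apply (U : AddSubgroup V) (h : H) (hh : h • U = U) (u : U) :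
    ((act U h hh).symm u : V) = h⁻¹ • (u : V) := rfl

/-- Vectors moved into a subgroup without fixed vectors. -/
lemma reduce_fixed (a b : H) (R0 : Subgroup H) (hR0 : R0 ≤ Subgroup.closure {a, b})
    (haR : ∀ z ∈ R0, a⁻¹ * z * a ∈ R0) (hbR : ∀ z ∈ R0, b⁻¹ * z * b ∈ R0)
    (hcop : Nat.Coprime (Nat.card R0) (Nat.card V))
    (W : AddSubgroup V) (haW : a • W = W) (hbW : b • W = W)
    (hfix : ∀ u ∈ W, (∀ z ∈ R0, z • u = u) → u = 0) (t : V) (hta : t - a • t ∈ W)
    (htb : t - b • t ∈ W) :
    ∃ t1 ∈ W, t - a • t = t1 - a • t1 ∧ t - b • t = t1 - b • t1 := by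
  classical
  have := Fintype.ofFinite R0
  have hclo : ∀ m ∈ Subgroup.closure {a, b}, t - m • t ∈ W ∧ m • W = W := by
    intro m hm
    induction hm using Subgroup.closure_induction with
    | mem x hx =>
      rcases hx with rfl | hx
      · exact ⟨hta, haW⟩
      · rw [Set.mem_singleton_iff] at hx; subst hx; exact ⟨htb, hbW⟩
    | one => simp
    | mul x y _ _ hx hy =>
      refine ⟨?_, by rw [mul_smul, hy.2, hx.2]⟩
      have h1 : t - (x * y) • t = (t - x • t) + x • (t - y • t) := by
        rw [mul_smul, smul_sub]; abel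
      rw [h1]
      exact AddSubgroup.add_mem _ hx.1 (smul_mem_of hx.2 hy.1)
    | inv x _ hx =>
      have h2 : x⁻¹ • W = W := by rw [inv_smul_eq_iff, hx.2]
      refine ⟨?_, h2⟩
      have h1 : t - x⁻¹ • t = -(x⁻¹ • (t - x • t)) := by
        rw [smul_sub, inv_smul_smul]; abel
      rw [h1]
      exact AddSubgroup.neg_mem _ (smul_mem_of h2 hx.1)
  obtain ⟨k, hk⟩ : ∃ k : ℤ, ∀ v : V, k • (Nat.card R0 • v) = v := by
    refine ⟨Nat.gcdA (Nat.card R0) (Nat.card V), fun v => ?_⟩
    have h1 := Nat.gcd_eq_gcd_ab (Nat.card R0) (Nat.card V)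
    rw [hcop.gcd_eq_one] at h1
    have h2 : (Nat.card V) • v = 0 := card_nsmul_eq_zero'
    rw [← natCast_zsmul, ← mul_smul]
    have h3 : (Nat.gcdA (Nat.card R0) (Nat.card V) * (Nat.card R0 : ℤ))
        = 1 - Nat.gcdB (Nat.card R0) (Nat.card V) * (Nat.card V : ℤ) := by
      push_cast at h1 ⊢
      linarith
    rw [h3, sub_smul, one_smul, mul_smul, natCast_zsmul, h2, smul_zero, sub_zero]
  set N : V := ∑ z : R0, (z : H) • t with hN
  have hNW : Nat.card R0 • t - N ∈ W := by
    have h1 : Nat.card R0 • t - N = ∑ z : R0, (t - (z : H) • t) := by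
      rw [Finset.sum_sub_distrib, Finset.sum_const, Finset.card_univ, Nat.card_eq_fintype_card]
    rw [h1]
    exact AddSubgroup.sum_mem _ fun z _ => (hclo z (hR0 z.2)).1
  have hNfix : ∀ z ∈ R0, z • N = N := by
    intro z hz
    rw [hN, Finset.smul_sum]
    refine Fintype.sum_equiv (Equiv.mulLeft (⟨z, hz⟩ : R0)) _ _ ?_
    intro y
    simp [mul_smul]
  have hmain : ∀ c : H, (∀ z ∈ R0, c⁻¹ * z * c ∈ R0) → c • W = W → t - c • t ∈ W → c • N = N := by
    intro c hcR hcW hct
    have h1 : N - c • N ∈ W := by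
      have h2 : N - c • N = -(Nat.card R0 • t - N) + Nat.card R0 • (t - c • t)
          + c • (Nat.card R0 • t - N) := by
        rw [smul_sub, smul_sub, smul_comm c (Nat.card R0) t]; abel
      rw [h2]
      exact AddSubgroup.add_mem _ (AddSubgroup.add_mem _ (AddSubgroup.neg_mem _ hNW)
        (AddSubgroup.nsmul_mem _ hct _)) (smul_mem_of hcW hNW)
    have h3 := hfix _ h1 (fun z hz => by
      rw [smul_sub, hNfix z hz]
      have h4 : z • c • N = c • (c⁻¹ * z * c) • N := by
        simp only [← mul_smul]; congr 1; group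
      rw [h4, hNfix _ (hcR z hz)])
    exact (sub_eq_zero.mp h3).symm
  have haN := hmain a haR haW hta
  have hbN := hmain b hbR hbW htb
  have ht : k • (Nat.card R0 • t) = t := hk t
  refine ⟨t - k • N, ?_, ?_, ?_⟩
  · have : t - k • N = k • (Nat.card R0 • t - N) := by rw [smul_sub, ht]
    rw [this]
    exact AddSubgroup.zsmul_mem _ hNW _
  · rw [smul_sub, smul_comm a k N, haN]; abel
  · rw [smul_sub, smul_comm b k N, hbN]; abel

/-- From `Star` to the hypothesis of the rigidity lemma. -/
theorem star_restrict (hstar : Star H V) (a b : H) (R0 : Subgroup H)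
    (hR0 : R0 ≤ Subgroup.closure {a, b})
    (haR : ∀ z ∈ R0, a⁻¹ * z * a ∈ R0) (hbR : ∀ z ∈ R0, b⁻¹ * z * b ∈ R0)
    (hinvR : ∀ h : H, h * a * h⁻¹ = a⁻¹ → h * b * h⁻¹ = b⁻¹ → ∀ z ∈ R0, h * z * h⁻¹ ∈ R0)
    (hcop : Nat.Coprime (Nat.card R0) (Nat.card V))
    (U : AddSubgroup V) (haU : a • U = U) (hbU : b • U = U)
    (hmin : ∀ W : AddSubgroup V, W ≤ U → a • W = W → b • W = W → W = ⊥ ∨ W = U)
    (hfix : ∀ u ∈ U, (∀ z ∈ R0, z • u = u) → u = 0) :
    ∀ c : U × U, c ∉ cob (act U a haU) (act U b hbU) →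
      ∃ h : U ≃+ U, Inverts (act U a haU) (act U b hbU) h ∧
        c - Psi (act U a haU) (act U b hbU) h c ∈ cob (act U a haU) (act U b hbU) := by
  intro c hc
  obtain ⟨g, t, hga, hgb, h1, h2⟩ := hstar a b (c.1 : V) (c.2 : V)
  have hga' : g * a = a⁻¹ * g := by rw [← hga]; group
  have hgb' : g * b = b⁻¹ * g := by rw [← hgb]; group
  have hga2 : a * g = g * a⁻¹ := by
    have : a * (g * a) * a⁻¹ = a * (a⁻¹ * g) * a⁻¹ := by rw [hga']
    simpa [mul_assoc] using this
  have hgb2 : b * g = g * b⁻¹ := by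
    have : b * (g * b) * b⁻¹ = b * (b⁻¹ * g) * b⁻¹ := by rw [hgb']
    simpa [mul_assoc] using this
  have hag : a • g • U = g • U := by
    rw [← mul_smul, hga2, mul_smul]
    congr 1
    rw [inv_smul_eq_iff, haU]
  have hbg : b • g • U = g • U := by
    rw [← mul_smul, hgb2, mul_smul]
    congr 1
    rw [inv_smul_eq_iff, hbU]
  by_cases hgU : g • U = U
  · have hta : t - a • t ∈ U := by
      rw [← h1]
      exact AddSubgroup.add_mem _ c.1.2 (by
        rw [mul_smul]; exact smul_mem_of haU (smul_mem_of hgU c.1.2))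
    have htb : t - b • t ∈ U := by
      rw [← h2]
      exact AddSubgroup.add_mem _ c.2.2 (by
        rw [mul_smul]; exact smul_mem_of hbU (smul_mem_of hgU c.2.2))
    obtain ⟨t1, ht1, h3, h4⟩ := reduce_fixed a b R0 hR0 haR hbR hcop U haU hbU hfix t hta htb
    refine ⟨act U g hgU, ⟨?_, ?_⟩, mem_cob.mpr ⟨⟨t1, ht1⟩, ?_, ?_⟩⟩
    · intro u
      ext
      simp only [act_apply, act_symm_apply, ← mul_smul, hga']
    · intro u
      ext
      simp only [act_apply, act_symm_apply, ← mul_smul, hgb']
    · ext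
      simp only [Psi, Prod.fst_sub, AddSubgroup.coe_sub, sub_neg_eq_add, AddSubgroup.coe_add,
        act_apply]
      rw [← mul_smul, h1, h3]
    · ext
      simp only [Psi, Prod.snd_sub, AddSubgroup.coe_sub, sub_neg_eq_add, AddSubgroup.coe_add,
        act_apply]
      rw [← mul_smul, h2, h4]
  · exfalso
    have hdisj : U ⊓ g • U = ⊥ := by
      have h3 := hmin (U ⊓ g • U) inf_le_left
        (smul_eq_of fun u hu => ⟨smul_mem_of haU hu.1, smul_mem_of hag hu.2⟩)
        (smul_eq_of fun u hu => ⟨smul_mem_of hbU hu.1, smul_mem_of hbg hu.2⟩)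
      rcases h3 with h3 | h3
      · exact h3
      · exfalso
        apply hgU
        have h4 : U ≤ g • U := le_trans (le_of_eq h3.symm) inf_le_right
        refine (AddSubgroup.eq_of_le_of_card_ge h4 ?_).symm
        refine le_of_eq (Nat.card_congr (Equiv.ofBijective (fun u : U => (⟨g • (u : V),
          AddSubgroup.smul_mem_pointwise_smul _ _ _ u.2⟩ : (g • U : AddSubgroup V)))
          ⟨?_, ?_⟩)).symm
        · intro u v huv
          simpa using huv
        · rintro ⟨x, hx⟩
          obtain ⟨u, hu, rfl⟩ := (AddSubgroup.mem_smul_pointwise_iff_exists _ _ _).mp hx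
          exact ⟨⟨u, hu⟩, rfl⟩
    have hmem0 : ∀ x ∈ U, x ∈ g • U → x = 0 := by
      intro x hx hx'
      have : x ∈ U ⊓ g • U := ⟨hx, hx'⟩
      rwa [hdisj] at this
    set W := U ⊔ g • U with hW
    have haW : a • W = W := smul_eq_of fun u hu => by
      obtain ⟨y, hy, x, hx, rfl⟩ := AddSubgroup.mem_sup.mp hu
      rw [smul_add]
      exact AddSubgroup.add_mem_sup (smul_mem_of haU hy) (smul_mem_of hag hx)
    have hbW : b • W = W := smul_eq_of fun u hu => by
      obtain ⟨y, hy, x, hx, rfl⟩ := AddSubgroup.mem_sup.mp hu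
      rw [smul_add]
      exact AddSubgroup.add_mem_sup (smul_mem_of hbU hy) (smul_mem_of hbg hx)
    have hagc : (a * g) • (c.1 : V) ∈ g • U := by
      rw [mul_smul]
      exact smul_mem_of hag (AddSubgroup.smul_mem_pointwise_smul _ _ _ c.1.2)
    have hbgc : (b * g) • (c.2 : V) ∈ g • U := by
      rw [mul_smul]
      exact smul_mem_of hbg (AddSubgroup.smul_mem_pointwise_smul _ _ _ c.2.2)
    have hta : t - a • t ∈ W := by
      rw [← h1]
      exact AddSubgroup.add_mem _ (AddSubgroup.mem_sup_left c.1.2)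
        (AddSubgroup.mem_sup_right hagc)
    have htb : t - b • t ∈ W := by
      rw [← h2]
      exact AddSubgroup.add_mem _ (AddSubgroup.mem_sup_left c.2.2)
        (AddSubgroup.mem_sup_right hbgc)
    have hstabR : ∀ z ∈ R0, z • U = U := by
      intro z hz
      have h3 : z ∈ Subgroup.closure {a, b} := hR0 hz
      have h4 : Subgroup.closure {a, b} ≤ MulAction.stabilizer H U := by
        rw [Subgroup.closure_le]
        rintro y (rfl | hy)
        · exact haU
        · rw [Set.mem_singleton_iff] at hy; subst hy; exact hbU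
      exact h4 h3
    have hstabR' : ∀ z ∈ R0, z • g • U = g • U := by
      intro z hz
      have h3 : z ∈ Subgroup.closure {a, b} := hR0 hz
      have h4 : Subgroup.closure {a, b} ≤ MulAction.stabilizer H (g • U) := by
        rw [Subgroup.closure_le]
        rintro y (rfl | hy)
        · exact hag
        · rw [Set.mem_singleton_iff] at hy; subst hy; exact hbg
      exact h4 h3
    have hfixW : ∀ u ∈ W, (∀ z ∈ R0, z • u = u) → u = 0 := by
      intro u hu hz
      obtain ⟨y, hy, x, hx, rfl⟩ := AddSubgroup.mem_sup.mp hu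
      have key : ∀ z ∈ R0, z • y = y ∧ z • x = x := by
        intro z hzR
        have h3 := hz z hzR
        rw [smul_add] at h3
        have h4 : z • y - y = x - z • x := by
          rw [sub_eq_sub_iff_add_eq_add, h3]; abel
        have h5 : z • y - y = 0 := by
          apply hmem0
          · exact AddSubgroup.sub_mem _ (smul_mem_of (hstabR z hzR) hy) hy
          · rw [h4]
            exact AddSubgroup.sub_mem _ hx (smul_mem_of (hstabR' z hzR) hx)
        refine ⟨sub_eq_zero.mp h5, ?_⟩
        rw [h5] at h4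
        exact (sub_eq_zero.mp h4.symm).symm
      have hy0 : y = 0 := hfix y hy fun z hzR => (key z hzR).1
      have hx0 : x = 0 := by
        obtain ⟨x', hx', rfl⟩ := (AddSubgroup.mem_smul_pointwise_iff_exists _ _ _).mp hx
        have : x' = 0 := by
          apply hfix x' hx'
          intro z hzR
          have h3 := (key _ (hinvR g hga hgb z hzR)).2
          rw [← mul_smul, inv_mul_cancel_right, mul_smul] at h3
          exact smul_left_cancel g h3
        rw [this, smul_zero]
      rw [hy0, hx0, add_zero]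
    obtain ⟨t1, ht1, h3, h4⟩ := reduce_fixed a b R0 hR0 haR hbR hcop W haW hbW hfixW t hta htb
    obtain ⟨s, hs, s', hs', rfl⟩ := AddSubgroup.mem_sup.mp ht1
    apply hc
    refine mem_cob.mpr ⟨⟨s, hs⟩, ?_, ?_⟩
    · ext
      simp only [AddSubgroup.coe_sub, act_apply]
      have h5 : (c.1 : V) - (s - a • s) = (s' - a • s') - (a * g) • (c.1 : V) := by
        have h6 : (c.1 : V) = (t - a • t) - (a * g) • (c.1 : V) := by rw [← h1]; abel
        rw [h3, smul_add] at h6
        rw [sub_eq_iff_eq_add]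
        conv_lhs => rw [h6]
        abel
      have h7 := hmem0 _ (AddSubgroup.sub_mem _ c.1.2 (AddSubgroup.sub_mem _ hs
        (smul_mem_of haU hs))) (by
          rw [h5]
          exact AddSubgroup.sub_mem _ (AddSubgroup.sub_mem _ hs' (smul_mem_of hag hs')) hagc)
      exact sub_eq_zero.mp h7
    · ext
      simp only [AddSubgroup.coe_sub, act_apply]
      have h5 : (c.2 : V) - (s - b • s) = (s' - b • s') - (b * g) • (c.2 : V) := by
        have h6 : (c.2 : V) = (t - b • t) - (b * g) • (c.2 : V) := by rw [← h2]; abel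
        rw [h4, smul_add] at h6
        rw [sub_eq_iff_eq_add]
        conv_lhs => rw [h6]
        abel
      have h7 := hmem0 _ (AddSubgroup.sub_mem _ c.2.2 (AddSubgroup.sub_mem _ hs
        (smul_mem_of hbU hs))) (by
          rw [h5]
          exact AddSubgroup.sub_mem _ (AddSubgroup.sub_mem _ hs' (smul_mem_of hbg hs')) hbgc)
      exact sub_eq_zero.mp h7

end Pool.Agent.helper4.SR
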