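import Mathlib
import Pool.Agent.helper4.SR.Action

/-!
Minimal stable subgroups without fixed vectors, and the nonabelian case.
-/

open scoped Pointwise

namespace Pool.Agent.helper4.SR

variable {H V : Type*} [Group H] [Finite H] [AddCommGroup V] [Finite V] [DistribMulAction H V]

omit [Finite H] [Finite V] in
lemma coprime_smul_eq_zero {n : ℕ} (hcop : Nat.Coprime n (Nat.card V)) {v : V} (h : n • v = 0) :
    v = 0 := by
  have h1 : addOrderOf v ∣ n := addOrderOf_dvd_of_nsmul_eq_zero h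
  have h2 : addOrderOf v ∣ Nat.card V := addOrderOf_dvd_natCard v
  have h3 := Nat.dvd_gcd h1 h2
  rw [hcop.gcd_eq_one, Nat.dvd_one] at h3
  exact AddMonoid.addOrderOf_eq_one_iff.mp h3

/-- There is a nonzero subgroup without `R0`-fixed vectors, stable under everything which
normalises `R0`. -/
lemma exists_stable (R0 : Subgroup H) (hcop : Nat.Coprime (Nat.card R0) (Nat.card V))
    (hact : ∃ z ∈ R0, ∃ v : V, z • v ≠ v) :
    ∃ W : AddSubgroup V, W ≠ ⊥ ∧ (∀ u ∈ W, (∀ z ∈ R0, z • u = u) → u = 0) ∧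
      ∀ c : H, (∀ z ∈ R0, c⁻¹ * z * c ∈ R0) → c • W = W := by
  classical
  have := Fintype.ofFinite R0
  let N : V →+ V := ∑ z : R0, DistribSMul.toAddMonoidHom V (z : H)
  have hN : ∀ v, N v = ∑ z : R0, (z : H) • v := by
    intro v
    simp [N]
  refine ⟨N.ker, ?_, ?_, ?_⟩
  · obtain ⟨z, hz, v, hv⟩ := hact
    intro hbot
    have h1 : z • v - v ∈ N.ker := by
      rw [AddMonoidHom.mem_ker, map_sub, hN, hN, sub_eq_zero]
      refine Fintype.sum_equiv (Equiv.mulRight (⟨z, hz⟩ : R0)) _ _ ?_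
      intro y
      simp [mul_smul]
    rw [hbot, AddSubgroup.mem_bot] at h1
    exact hv (sub_eq_zero.mp h1)
  · intro u hu hz
    rw [AddMonoidHom.mem_ker, hN] at hu
    rw [Finset.sum_congr rfl (fun (z : R0) _ => hz z z.2), Finset.sum_const, Finset.card_univ,
      ← Nat.card_eq_fintype_card] at hu
    exact coprime_smul_eq_zero hcop hu
  · intro c hc
    apply smul_eq_of
    intro u hu
    rw [AddMonoidHom.mem_ker, hN] at hu ⊢
    have hbij : Function.Bijective (fun z : R0 => (⟨c⁻¹ * z * c, hc z z.2⟩ : R0)) := by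
      rw [Fintype.bijective_iff_injective_and_card]
      refine ⟨?_, rfl⟩
      intro z z' hzz
      have : c⁻¹ * (z : H) * c = c⁻¹ * (z' : H) * c := congrArg Subtype.val hzz
      apply Subtype.ext
      simpa using this
    have h1 : ∑ z : R0, (z : H) • c • u = c • ∑ z : R0, (z : H) • u := by
      rw [Finset.smul_sum]
      refine Fintype.sum_equiv (Equiv.ofBijective _ hbij) _ _ ?_
      intro z
      simp only [Equiv.ofBijective_apply, ← mul_smul]
      congr 1
      group
    rw [h1, hu, smul_zero]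

omit [Finite H] in
/-- Minimal elements of a property of subgroups. -/
lemma exists_min (P : AddSubgroup V → Prop) (W : AddSubgroup V) (hW : P W) (hW0 : W ≠ ⊥) :
    ∃ U : AddSubgroup V, U ≤ W ∧ U ≠ ⊥ ∧ P U ∧ ∀ U' : AddSubgroup V, U' ≤ U → P U' →
      U' = ⊥ ∨ U' = U := by
  classical
  have hfin : Finite (AddSubgroup V) := inferInstance
  obtain ⟨U, hU1, hU2⟩ := (Set.toFinite {U : AddSubgroup V | U ≤ W ∧ U ≠ ⊥ ∧ P U}).exists_minimal
    ⟨W, le_rfl, hW0, hW⟩
  refine ⟨U, hU1.1, hU1.2.1, hU1.2.2, ?_⟩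
  intro U' hU' hP
  by_cases h0 : U' = ⊥
  · exact Or.inl h0
  · right
    exact le_antisymm hU' (hU2 ⟨hU'.trans hU1.1, h0, hP⟩ hU')

omit [Finite H] [Finite V] in
lemma irred_of (U : AddSubgroup V) (a b : H) (haU : a • U = U) (hbU : b • U = U) [Finite V]
    (hmin : ∀ W : AddSubgroup V, W ≤ U → a • W = W → b • W = W → W = ⊥ ∨ W = U) :
    Irred (act U a haU) (act U b hbU) := by
  intro W hWa hWb
  have h1 := hmin (W.map U.subtype) (by
      rintro _ ⟨w, -, rfl⟩; exact w.2)
    (smul_eq_of (by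
      rintro _ ⟨w, hw, rfl⟩
      exact ⟨_, hWa w hw, rfl⟩))
    (smul_eq_of (by
      rintro _ ⟨w, hw, rfl⟩
      exact ⟨_, hWb w hw, rfl⟩))
  rcases h1 with h1 | h1
  · left
    rw [eq_bot_iff]
    intro w hw
    have : (w : V) ∈ W.map U.subtype := ⟨w, hw, rfl⟩
    rw [h1, AddSubgroup.mem_bot] at this
    exact AddSubgroup.mem_bot.mpr (Subtype.ext this)
  · right
    rw [eq_top_iff]
    intro w _
    have : (w : V) ∈ W.map U.subtype := by rw [h1]; exact w.2
    obtain ⟨w', hw', h2⟩ := this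
    have : w' = w := Subtype.ext h2
    rwa [← this]

/-- The nonabelian case: a central commutator of odd order, inverted by everything inverting the
generators, acts trivially. -/
theorem beta (hstar : Star H V) (x u : H) (j : ℕ) (z : H)
    (hz : z = u * (x ^ j * u * (x⁻¹) ^ j) * u⁻¹ * (x ^ j * u⁻¹ * (x⁻¹) ^ j))
    (hz' : z⁻¹ = u⁻¹ * ((x⁻¹) ^ j * u⁻¹ * x ^ j) * u * ((x⁻¹) ^ j * u * x ^ j))
    (hzx : z * x = x * z) (hzu : z * u = u * z)
    (hodd : Odd (orderOf z)) (hcop : Nat.Coprime (orderOf z) (Nat.card V)) :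
    ∀ v : V, z • v = v := by
  by_contra hcon
  push Not at hcon
  obtain ⟨v0, hv0⟩ := hcon
  set R0 : Subgroup H := Subgroup.zpowers z with hR0
  have hcardR : Nat.card R0 = orderOf z := Nat.card_zpowers z
  have hcop' : Nat.Coprime (Nat.card R0) (Nat.card V) := by rw [hcardR]; exact hcop
  obtain ⟨W, hW0, hWfix, hWst⟩ := exists_stable R0 hcop'
    ⟨z, Subgroup.mem_zpowers z, v0, hv0⟩
  have hcz : ∀ c : H, z * c = c * z → ∀ y ∈ R0, c⁻¹ * y * c = y := by
    intro c hc y hy
    obtain ⟨k, rfl⟩ := Subgroup.mem_zpowers_iff.mp hy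
    have h1 : Commute (z ^ k) c := Commute.zpow_left hc k
    rw [mul_assoc, h1.eq, inv_mul_cancel_left]
  have hxR : ∀ y ∈ R0, x⁻¹ * y * x ∈ R0 := fun y hy => by rw [hcz x hzx y hy]; exact hy
  have huR : ∀ y ∈ R0, u⁻¹ * y * u ∈ R0 := fun y hy => by rw [hcz u hzu y hy]; exact hy
  obtain ⟨U, hUW, hU0, ⟨hxU, huU⟩, hmin⟩ := exists_min (fun U => x • U = U ∧ u • U = U) W
    ⟨hWst x hxR, hWst u huR⟩ hW0
  have hfix : ∀ y ∈ U, (∀ z ∈ R0, z • y = y) → y = 0 := fun y hy => hWfix y (hUW hy)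
  have hfixz : ∀ y ∈ U, z • y = y → y = 0 := by
    intro y hy hzy
    apply hfix y hy
    intro z' hz'
    have : R0 ≤ MulAction.stabilizer H y := by
      rw [hR0, Subgroup.zpowers_le]
      exact hzy
    exact this hz'
  have hclosure : R0 ≤ Subgroup.closure {x, u} := by
    rw [hR0, Subgroup.zpowers_le, hz]
    have hx : x ∈ Subgroup.closure {x, u} := Subgroup.subset_closure (by simp)
    have hu : u ∈ Subgroup.closure {x, u} := Subgroup.subset_closure (by simp)
    have hxj : x ^ j ∈ Subgroup.closure {x, u} := pow_mem hx j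
    have hxj' : (x⁻¹) ^ j ∈ Subgroup.closure {x, u} := pow_mem (inv_mem hx) j
    exact mul_mem (mul_mem (mul_mem hu (mul_mem (mul_mem hxj hu) hxj')) (inv_mem hu))
      (mul_mem (mul_mem hxj (inv_mem hu)) hxj')
  have hinvR : ∀ h : H, h * x * h⁻¹ = x⁻¹ → h * u * h⁻¹ = u⁻¹ → ∀ y ∈ R0, h * y * h⁻¹ ∈ R0 := by
    intro h hx hu y hy
    have hxj : ∀ n : ℕ, h * x ^ n * h⁻¹ = (x⁻¹) ^ n := by
      intro n; rw [← conj_pow, hx]
    have hxj' : ∀ n : ℕ, h * (x⁻¹) ^ n * h⁻¹ = x ^ n := by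
      intro n
      have : h * x⁻¹ * h⁻¹ = x := by
        have := congrArg (·⁻¹) hx
        simpa [mul_assoc] using this
      rw [← conj_pow, this]
    have hu' : h * u⁻¹ * h⁻¹ = u := by
      have := congrArg (·⁻¹) hu
      simpa [mul_assoc] using this
    have hzz : h * z * h⁻¹ = z⁻¹ := by
      rw [hz', hz]
      have h1 : h * (u * (x ^ j * u * (x⁻¹) ^ j) * u⁻¹ * (x ^ j * u⁻¹ * (x⁻¹) ^ j)) * h⁻¹
          = (h * u * h⁻¹) * ((h * x ^ j * h⁻¹) * (h * u * h⁻¹) * (h * (x⁻¹) ^ j * h⁻¹))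
            * (h * u⁻¹ * h⁻¹) * ((h * x ^ j * h⁻¹) * (h * u⁻¹ * h⁻¹) * (h * (x⁻¹) ^ j * h⁻¹)) := by
        group
      rw [h1, hu, hu', hxj, hxj']
    obtain ⟨k, rfl⟩ := Subgroup.mem_zpowers_iff.mp hy
    rw [← conj_zpow, hzz]
    exact zpow_mem (inv_mem (Subgroup.mem_zpowers z)) k
  have hst := star_restrict hstar x u R0 hclosure hxR huR hinvR hcop' U hxU huU
    (fun W h1 h2 h3 => hmin W h1 ⟨h2, h3⟩) hfix
  have hnt : Nontrivial U := (AddSubgroup.nontrivial_iff_ne_bot U).mpr hU0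
  have hzU : z • U = U := by
    have h4 : Subgroup.closure {x, u} ≤ MulAction.stabilizer H U := by
      rw [Subgroup.closure_le]
      rintro y (rfl | hy)
      · exact hxU
      · rw [Set.mem_singleton_iff] at hy; subst hy; exact huU
    exact h4 (hclosure (Subgroup.mem_zpowers z))
  obtain ⟨w1, hw1⟩ := exists_ne (0 : U)
  have hnc : ∃ w, act U x hxU (act U u huU w) ≠ act U u huU (act U x hxU w) := by
    by_contra hcon
    push Not at hcon
    have hc : ∀ w ∈ U, x • u • w = u • x • w := by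
      intro w hw
      exact congrArg Subtype.val (hcon ⟨w, hw⟩)
    have hc' : ∀ w ∈ U, x • u⁻¹ • w = u⁻¹ • x • w := by
      intro w hw
      have hu' : u⁻¹ • w ∈ U := smul_mem_of (by rw [inv_smul_eq_iff, huU]) hw
      have := hc _ hu'
      rw [smul_inv_smul] at this
      rw [this, inv_smul_smul]
    have hpow : ∀ n : ℕ, ∀ w ∈ U, x ^ n • u • w = u • x ^ n • w := by
      intro n
      induction n with
      | zero => intro w _; simp
      | succ n ih =>
        intro w hw
        have hxw : x • w ∈ U := smul_mem_of hxU hw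
        rw [pow_succ, mul_smul, hc w hw, ih _ hxw, mul_smul]
    have hpow' : ∀ n : ℕ, ∀ w ∈ U, x ^ n • u⁻¹ • w = u⁻¹ • x ^ n • w := by
      intro n
      induction n with
      | zero => intro w _; simp
      | succ n ih =>
        intro w hw
        have hxw : x • w ∈ U := smul_mem_of hxU hw
        rw [pow_succ, mul_smul, hc' w hw, ih _ hxw, mul_smul]
    have hstab : ∀ g ∈ MulAction.stabilizer H U, ∀ w ∈ U, g • w ∈ U :=
      fun g hg w hw => smul_mem_of hg hw
    have hxs : x ∈ MulAction.stabilizer H U := hxU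
    have hus : u ∈ MulAction.stabilizer H U := huU
    apply hw1
    apply Subtype.ext
    apply hfixz _ w1.2
    rw [hz]
    simp only [mul_smul]
    have e1 : ((x⁻¹) ^ j • (w1 : V)) ∈ U := hstab _ (pow_mem (inv_mem hxs) j) _ w1.2
    have e2 : u⁻¹ • (w1 : V) ∈ U := hstab _ (inv_mem hus) _ w1.2
    rw [hpow' j _ e1]
    have e3 : x ^ j • (x⁻¹) ^ j • (w1 : V) = w1 := by
      rw [← mul_smul, inv_pow, mul_inv_cancel, one_smul]
    rw [e3]
    have e4 : u⁻¹ • u⁻¹ • (w1 : V) ∈ U := hstab _ (inv_mem hus) _ e2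
    have e5 : (x⁻¹) ^ j • u⁻¹ • u⁻¹ • (w1 : V) ∈ U := hstab _ (pow_mem (inv_mem hxs) j) _ e4
    rw [hpow j _ e5, ← mul_smul (x ^ j), inv_pow, mul_inv_cancel, one_smul, smul_inv_smul,
      smul_inv_smul]
  obtain ⟨h, hinv, hcomm, -⟩ := rigid (irred_of U x u hxU huU
    (fun W h1 h2 h3 => hmin W h1 ⟨h2, h3⟩)) hnc hst
  have hCC : CC (act U x hxU) (act U u huU) ((act U z hzU : U ≃+ U) : U →+ U) := by
    constructor
    · intro w
      ext
      simp only [AddMonoidHom.coe_coe, act_apply, ← mul_smul, hzx]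
    · intro w
      ext
      simp only [AddMonoidHom.coe_coe, act_apply, ← mul_smul, hzu]
  have hz1 : ∀ w : U, h (act U z hzU w) = act U z hzU (h w) := fun w => hcomm _ hCC w
  -- h inverts z
  have hX : ∀ w : U, h (act U x hxU w) = (act U x hxU).symm (h w) := hinv.1
  have hY : ∀ w : U, h (act U u huU w) = (act U u huU).symm (h w) := hinv.2
  have hX' : ∀ w : U, h ((act U x hxU).symm w) = act U x hxU (h w) := by
    intro w
    have := hX ((act U x hxU).symm w)
    rw [AddEquiv.apply_symm_apply] at this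
    rw [this, AddEquiv.apply_symm_apply]
  have hY' : ∀ w : U, h ((act U u huU).symm w) = act U u huU (h w) := by
    intro w
    have := hY ((act U u huU).symm w)
    rw [AddEquiv.apply_symm_apply] at this
    rw [this, AddEquiv.apply_symm_apply]
  let T : H → H → Prop := fun g g' => ∀ w y : U, (y : V) = g • (w : V) → (h y : V) = g' • (h w : V)
  have hTmul : ∀ g g' k k' : H, T g g' → T k k' → k • U = U → T (g * k) (g' * k') := by
    intro g g' k k' hg hk hkU w y hy
    have h1 := hk w ⟨k • (w : V), smul_mem_of hkU w.2⟩ rfl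
    have h2 := hg ⟨k • (w : V), smul_mem_of hkU w.2⟩ y (by rw [hy, mul_smul])
    rw [h2, h1, mul_smul]
  have hTx : T x x⁻¹ := by
    intro w y hy
    have : y = act U x hxU w := Subtype.ext hy
    rw [this, hX, act_symm_apply]
  have hTx' : T x⁻¹ x := by
    intro w y hy
    have : y = (act U x hxU).symm w := Subtype.ext hy
    rw [this, hX', act_apply]
  have hTu : T u u⁻¹ := by
    intro w y hy
    have : y = act U u huU w := Subtype.ext hy
    rw [this, hY, act_symm_apply]
  have hTu' : T u⁻¹ u := by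
    intro w y hy
    have : y = (act U u huU).symm w := Subtype.ext hy
    rw [this, hY', act_apply]
  have hT1 : T 1 1 := by
    intro w y hy
    rw [one_smul] at hy
    rw [one_smul, Subtype.ext hy]
  have hxs : x ∈ MulAction.stabilizer H U := hxU
  have hus : u ∈ MulAction.stabilizer H U := huU
  have hTpow : ∀ g g' : H, T g g' → g ∈ MulAction.stabilizer H U → ∀ n : ℕ,
      T (g ^ n) (g' ^ n) := by
    intro g g' hg hgU n
    induction n with
    | zero => simpa using hT1
    | succ n ih =>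
      rw [pow_succ, pow_succ]
      exact hTmul _ _ _ _ ih hg hgU
  have hTz : T z z⁻¹ := by
    rw [hz', hz]
    have s1 : x ^ j ∈ MulAction.stabilizer H U := pow_mem hxs j
    have s2 : (x⁻¹) ^ j ∈ MulAction.stabilizer H U := pow_mem (inv_mem hxs) j
    have s3 : u⁻¹ ∈ MulAction.stabilizer H U := inv_mem hus
    have t1 := hTpow _ _ hTx hxs j
    have t2 := hTpow _ _ hTx' (inv_mem hxs) j
    exact hTmul _ _ _ _ (hTmul _ _ _ _ (hTmul _ _ _ _ hTu
      (hTmul _ _ _ _ (hTmul _ _ _ _ t1 hTu hus) t2 s2) (mul_mem (mul_mem s1 hus) s2)) hTu' s3)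
      (hTmul _ _ _ _ (hTmul _ _ _ _ t1 hTu' s3) t2 s2) (mul_mem (mul_mem s1 s3) s2)
  -- conclude
  obtain ⟨w, hw⟩ := h.surjective w1
  have h1 := hTz w (act U z hzU w) rfl
  rw [hz1, act_apply, hw] at h1
  have h2 : (z * z) • (w1 : V) = w1 := by rw [mul_smul, h1, smul_inv_smul]
  obtain ⟨m, hm⟩ := hodd
  have h3 : ∀ n : ℕ, (z * z) ^ n • (w1 : V) = w1 := by
    intro n
    induction n with
    | zero => simp
    | succ n ih => rw [pow_succ, mul_smul, h2, ih]
  have h4 : z • (w1 : V) = w1 := by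
    have h5 : z ^ (2 * m + 1) = 1 := by rw [← hm]; exact pow_orderOf_eq_one z
    have h6 : (z * z) ^ m * z = 1 := by rw [← pow_two, ← pow_mul, ← pow_succ, h5]
    have h7 : z = ((z * z) ^ m)⁻¹ := eq_inv_of_mul_eq_one_right h6
    rw [h7, inv_smul_eq_iff, h3]
  exact hw1 (Subtype.ext (hfixz _ w1.2 h4))

end Pool.Agent.helper4.SR
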