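import Mathlib
import Pool.Agent.helper4.SR.Beta

/-!
The fixed points of an element acting on an abelian `r`-group of operators: at most the cube
root of the whole.
-/

open scoped Pointwise

namespace Pool.Agent.helper4.SR

variable {H V : Type*} [Group H] [Finite H] [AddCommGroup V] [Finite V] [DistribMulAction H V]

lemma card_proper {r : ℕ} [Fact r.Prime] {R K : Subgroup H} (hR : IsPGroup r R) (hK : K ≤ R)
    (hne : K ≠ R) : Nat.card K * r ≤ Nat.card R := by
  have hr : r.Prime := Fact.out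
  obtain ⟨n, hn⟩ := IsPGroup.iff_card.mp hR
  have h1 : Nat.card K ∣ Nat.card R := Subgroup.card_dvd_of_le hK
  rw [hn] at h1
  obtain ⟨m, hm, hm'⟩ := (Nat.dvd_prime_pow hr).mp h1
  have h2 : m ≠ n := by
    intro h
    apply hne
    exact Subgroup.eq_of_le_of_card_ge hK (by rw [hm', hn, h])
  rw [hm', hn, ← pow_succ]
  exact Nat.pow_le_pow_right hr.pos (by omega)

/-- The elements of `R` fixing `Y` pointwise. -/
def kerR (R : Subgroup H) (Y : AddSubgroup V) : Subgroup H where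
  carrier := {z | z ∈ R ∧ ∀ y ∈ Y, z • y = y}
  mul_mem' := by
    rintro a b ⟨ha, ha'⟩ ⟨hb, hb'⟩
    exact ⟨mul_mem ha hb, fun y hy => by rw [mul_smul, hb' y hy, ha' y hy]⟩
  one_mem' := ⟨one_mem _, fun y _ => one_smul _ y⟩
  inv_mem' := by
    rintro a ⟨ha, ha'⟩
    exact ⟨inv_mem ha, fun y hy => by rw [inv_smul_eq_iff, ha' y hy]⟩

/-- The map `v ↦ v - c v`. -/
def dl (c : H) : V →+ V := AddMonoidHom.id V - DistribSMul.toAddMonoidHom V c

omit [Finite H] [Finite V] in
@[simp] lemma dl_apply (c : H) (v : V) : dl c v = v - c • v := rfl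

omit [Finite H] [Finite V] in
lemma dl_comm {c d : H} (h : c * d = d * c) (v : V) : dl c (dl d v) = dl d (dl c v) := by
  simp only [dl_apply, smul_sub, ← mul_smul, h]
  abel

omit [Finite H] [Finite V] in
lemma dl_smul {c d : H} (h : c * d = d * c) (v : V) : dl c (d • v) = d • dl c v := by
  simp only [dl_apply, smul_sub, ← mul_smul, h]

theorem cube_le {r : ℕ} [Fact r.Prime] (hr3 : 3 ≤ r) (R : Subgroup H)
    (hab : ∀ a ∈ R, ∀ b ∈ R, a * b = b * a) (hRp : IsPGroup r R) (x x' : H)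
    (hxR : ∀ z ∈ R, x * z * x⁻¹ ∈ R) (hx' : ∀ z ∈ R, x' * z * x'⁻¹ = x * z * x⁻¹)
    (hc1 : ∀ K : Subgroup H, (∀ z ∈ R, z * (x * z * x⁻¹)⁻¹ ∈ K) → R ≤ K)
    (hc2 : ∀ K : Subgroup H, (∀ z ∈ R, z * (x * (x * z * x⁻¹) * x⁻¹)⁻¹ ∈ K) → R ≤ K)
    (U : AddSubgroup V) (hU0 : U ≠ ⊥) (hx'U : x' • U = U) (hRU : ∀ z ∈ R, z • U = U)
    (hmin : ∀ W : AddSubgroup V, W ≤ U → x' • W = W → (∀ z ∈ R, z • W = W) → W = ⊥ ∨ W = U)
    (hfix : ∀ u ∈ U, (∀ z ∈ R, z • u = u) → u = 0) :
    Nat.card (fx (act U x' hx'U)) ^ 3 ≤ Nat.card U := by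
  classical
  -- a minimal `R`-stable subgroup
  obtain ⟨Y, hYU, hY0, hYR, hYmin⟩ := exists_min (fun Y => ∀ z ∈ R, z • Y = Y) U hRU hU0
  set KY := kerR R Y with hKY
  have hKYR : KY ≤ R := fun z hz => hz.1
  have hnot : ¬ R ≤ KY := by
    intro h
    apply hY0
    rw [eq_bot_iff]
    intro y hy
    exact AddSubgroup.mem_bot.mpr (hfix y (hYU hy) fun z hz => (h hz).2 y hy)
  have hinj : ∀ c ∈ R, c ∉ KY → ∀ y ∈ Y, dl c y = 0 → y = 0 := by
    intro c hc hcK y hy h0
    -- the fixed points of c in Y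
    let F : AddSubgroup V := Y ⊓ (dl c : V →+ V).ker
    have hF := hYmin F inf_le_left (by
      intro z hz
      apply smul_eq_of
      rintro v ⟨hv, hv'⟩
      refine ⟨smul_mem_of (hYR z hz) hv, ?_⟩
      have hv2 : dl c v = 0 := hv'
      change dl c (z • v) = 0
      rw [dl_smul (hab c hc z hz), hv2, smul_zero])
    rcases hF with hF | hF
    · have : y ∈ F := ⟨hy, h0⟩
      rw [hF] at this
      exact this
    · exfalso
      apply hcK
      refine ⟨hc, fun v hv => ?_⟩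
      have h1 : v ∈ F := by rw [hF]; exact hv
      have h2 : dl c v = 0 := h1.2
      rw [dl_apply, sub_eq_zero] at h2
      exact h2.symm
  -- three proper subgroups
  have hinvR : ∀ z ∈ R, x⁻¹ * z * x ∈ R := by
    intro z hz
    have hbij : Function.Bijective (fun z : R => (⟨x * z * x⁻¹, hxR z z.2⟩ : R)) := by
      apply Finite.injective_iff_bijective.mp
      intro z z' hzz
      have : x * (z : H) * x⁻¹ = x * (z' : H) * x⁻¹ := congrArg Subtype.val hzz
      apply Subtype.ext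
      simpa using this
    obtain ⟨y, hy⟩ := hbij.2 ⟨z, hz⟩
    have h1 : x * (y : H) * x⁻¹ = z := congrArg Subtype.val hy
    have h2 : x⁻¹ * z * x = y := by rw [← h1]; group
    rw [h2]; exact y.2
  let mk : (H →* H) → (H →* H) → Subgroup H := fun f g =>
    { carrier := {z | z ∈ R ∧ f z ∈ R ∧ g z ∈ R ∧ f z * (g z)⁻¹ ∈ KY}
      mul_mem' := by
        rintro a b ⟨ha, ha1, ha2, ha3⟩ ⟨hb, hb1, hb2, hb3⟩
        refine ⟨mul_mem ha hb, by rw [map_mul]; exact mul_mem ha1 hb1,
          by rw [map_mul]; exact mul_mem ha2 hb2, ?_⟩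
        have h1 : f (a * b) * (g (a * b))⁻¹ = (f a * (g a)⁻¹) * (f b * (g b)⁻¹) := by
          rw [map_mul, map_mul, mul_inv_rev]
          have e1 : f b * ((g b)⁻¹ * (g a)⁻¹) = (g a)⁻¹ * (f b * (g b)⁻¹) := by
            rw [← mul_assoc]
            exact hab _ (mul_mem hb1 (inv_mem hb2)) _ (inv_mem ha2)
          rw [mul_assoc, e1]; group
        rw [h1]
        exact mul_mem ha3 hb3
      one_mem' := by
        refine ⟨one_mem _, ?_, ?_, ?_⟩ <;> simp [one_mem]
      inv_mem' := by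
        rintro a ⟨ha, ha1, ha2, ha3⟩
        refine ⟨inv_mem ha, by rw [map_inv]; exact inv_mem ha1,
          by rw [map_inv]; exact inv_mem ha2, ?_⟩
        have h1 : f a⁻¹ * (g a⁻¹)⁻¹ = (f a * (g a)⁻¹)⁻¹ := by
          rw [map_inv, map_inv, mul_inv_rev, inv_inv]
          exact hab _ (inv_mem ha1) _ ha2
        rw [h1]
        exact inv_mem ha3 }
  let f0 : H →* H := MonoidHom.id H
  let f1 : H →* H := (MulAut.conj x : H ≃* H)
  let f2 : H →* H := (MulAut.conj (x * x) : H ≃* H)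
  have hf1 : ∀ z, f1 z = x * z * x⁻¹ := fun z => rfl
  have hf2 : ∀ z, f2 z = x * (x * z * x⁻¹) * x⁻¹ := fun z => by
    change (x * x) * z * (x * x)⁻¹ = _
    group
  have hf1R : ∀ z ∈ R, f1 z ∈ R := fun z hz => by rw [hf1]; exact hxR z hz
  have hf2R : ∀ z ∈ R, f2 z ∈ R := fun z hz => by rw [hf2]; exact hxR _ (hxR z hz)
  have hmkle : ∀ f g, mk f g ≤ R := fun f g z hz => hz.1
  have hB01 : mk f0 f1 ≠ R := by
    intro h
    apply hnot
    apply hc1
    intro z hz
    rw [← h] at hz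
    exact hz.2.2.2
  have hB02 : mk f0 f2 ≠ R := by
    intro h
    apply hnot
    apply hc2
    intro z hz
    rw [← h] at hz
    have := hz.2.2.2
    rwa [hf2] at this
  have hB12 : mk f1 f2 ≠ R := by
    intro h
    apply hnot
    apply hc1
    intro z hz
    have hz2 : x⁻¹ * z * x ∈ mk f1 f2 := by rw [h]; exact hinvR z hz
    have h3 := hz2.2.2.2
    rw [hf2, hf1] at h3
    have h4 : x * (x⁻¹ * z * x) * x⁻¹ = z := by group
    rwa [h4] at h3
  obtain ⟨z0, hz0R, hz01, hz02, hz12⟩ : ∃ z0 ∈ R, z0 ∉ mk f0 f1 ∧ z0 ∉ mk f0 f2 ∧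
      z0 ∉ mk f1 f2 := by
    by_contra hcon
    push Not at hcon
    have := Fintype.ofFinite H
    have hsub : (R : Set H).toFinset ⊆ insert 1 (((mk f0 f1 : Set H).toFinset.erase 1) ∪
        (((mk f0 f2 : Set H).toFinset.erase 1) ∪ ((mk f1 f2 : Set H).toFinset.erase 1))) := by
      intro z hz
      rw [Set.mem_toFinset] at hz
      by_cases h1 : z = 1
      · simp [h1]
      · simp only [Finset.mem_insert, Finset.mem_union, Finset.mem_erase, Set.mem_toFinset]
        right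
        by_cases h2 : z ∈ mk f0 f1
        · left; exact ⟨h1, h2⟩
        · by_cases h3 : z ∈ mk f0 f2
          · right; left; exact ⟨h1, h3⟩
          · right; right; exact ⟨h1, hcon z hz h2 h3⟩
    have hc := Finset.card_le_card hsub
    have hcard : ∀ K : Subgroup H, (K : Set H).toFinset.card = Nat.card K := by
      intro K
      rw [Set.toFinset_card, Nat.card_eq_fintype_card]
      rfl
    have her : ∀ K : Subgroup H, ((K : Set H).toFinset.erase 1).card = Nat.card K - 1 := by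
      intro K
      rw [Finset.card_erase_of_mem (by simp [one_mem]), hcard]
    rw [hcard] at hc
    have h5 := (hc.trans (Finset.card_insert_le _ _)).trans
      (Nat.add_le_add_right ((Finset.card_union_le _ _).trans
        (Nat.add_le_add_left (Finset.card_union_le _ _) _)) 1)
    rw [her, her, her] at h5
    have p1 := card_proper hRp (hmkle f0 f1) hB01
    have p2 := card_proper hRp (hmkle f0 f2) hB02
    have p3 := card_proper hRp (hmkle f1 f2) hB12
    have q1 : 0 < Nat.card (mk f0 f1) := Nat.card_pos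
    have q2 : 0 < Nat.card (mk f0 f2) := Nat.card_pos
    have q3 : 0 < Nat.card (mk f1 f2) := Nat.card_pos
    have m1 : Nat.card (mk f0 f1) * 3 ≤ Nat.card R := (Nat.mul_le_mul_left _ hr3).trans p1
    have m2 : Nat.card (mk f0 f2) * 3 ≤ Nat.card R := (Nat.mul_le_mul_left _ hr3).trans p2
    have m3 : Nat.card (mk f1 f2) * 3 ≤ Nat.card R := (Nat.mul_le_mul_left _ hr3).trans p3
    omega
  set z1 := x * z0 * x⁻¹ with hz1
  set z2 := x * z1 * x⁻¹ with hz2
  have hz1R : z1 ∈ R := hxR z0 hz0R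
  have hz2R : z2 ∈ R := hxR z1 hz1R
  have hk01 : z0 * z1⁻¹ ∉ KY := fun h => hz01 ⟨hz0R, hz0R, hf1R z0 hz0R, h⟩
  have hk02 : z0 * z2⁻¹ ∉ KY := fun h => hz02 ⟨hz0R, hz0R, hf2R z0 hz0R, by
    rw [hf2, ← hz1, ← hz2]; exact h⟩
  have hk12 : z1 * z2⁻¹ ∉ KY := fun h => hz12 ⟨hz0R, hf1R z0 hz0R, hf2R z0 hz0R, by
    rw [hf2, hf1, ← hz1, ← hz2]; exact h⟩
  -- maps commuting with R killing a fixed vector of x' kill U
  have hkill : ∀ (Φ : V →+ V), (∀ z ∈ R, ∀ v, Φ (z • v) = z • Φ v) → ∀ t ∈ U, x' • t = t →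
      t ≠ 0 → Φ t = 0 → ∀ u ∈ U, Φ u = 0 := by
    intro Φ hΦ t ht htx ht0 h0
    let L : AddSubgroup V := AddSubgroup.closure {v | ∃ z ∈ R, v = z • t}
    have hLU : L ≤ U := by
      rw [AddSubgroup.closure_le]
      rintro _ ⟨z, hz, rfl⟩
      exact smul_mem_of (hRU z hz) ht
    have htL : t ∈ L := AddSubgroup.subset_closure ⟨1, one_mem _, (one_smul _ _).symm⟩
    have hst : ∀ g : H, (∀ z ∈ R, ∃ z' ∈ R, g • z • t = z' • t) → g • L = L := by
      intro g hg
      apply smul_eq_of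
      intro v hv
      have : L ≤ L.comap (DistribSMul.toAddMonoidHom V g) := by
        rw [AddSubgroup.closure_le]
        rintro _ ⟨z, hz, rfl⟩
        obtain ⟨z', hz', h⟩ := hg z hz
        change g • z • t ∈ L
        rw [h]
        exact AddSubgroup.subset_closure ⟨z', hz', rfl⟩
      exact this hv
    have h1 := hmin L hLU
      (hst x' fun z hz => ⟨x * z * x⁻¹, hxR z hz, by
        rw [← hx' z hz, mul_smul, mul_smul, inv_smul_eq_iff.mpr htx.symm]⟩)
      (fun g hg => hst g fun z hz => ⟨g * z, mul_mem hg hz, by rw [mul_smul]⟩)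
    have hLU' : L = U := by
      rcases h1 with h1 | h1
      · exfalso
        rw [h1] at htL
        exact ht0 htL
      · exact h1
    intro u hu
    rw [← hLU'] at hu
    have : L ≤ Φ.ker := by
      rw [AddSubgroup.closure_le]
      rintro _ ⟨z, hz, rfl⟩
      change Φ (z • t) = 0
      rw [hΦ z hz, h0, smul_zero]
    exact this hu
  obtain ⟨y0, hy0⟩ : ∃ y ∈ Y, y ≠ 0 := by
    by_contra hcon
    push Not at hcon
    exact hY0 ((AddSubgroup.eq_bot_iff_forall _).mpr hcon)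
  have c01R : z0 * z1⁻¹ ∈ R := mul_mem hz0R (inv_mem hz1R)
  have c02R : z0 * z2⁻¹ ∈ R := mul_mem hz0R (inv_mem hz2R)
  have c12R : z1 * z2⁻¹ ∈ R := mul_mem hz1R (inv_mem hz2R)
  have hdY : ∀ c ∈ R, ∀ y ∈ Y, dl c y ∈ Y := fun c hc y hy => by
    rw [dl_apply]; exact AddSubgroup.sub_mem _ hy (smul_mem_of (hYR c hc) hy)
  -- main computation
  have hmain : ∀ t0 ∈ U, ∀ t1 ∈ U, ∀ t2 ∈ U, x' • t0 = t0 → x' • t1 = t1 → x' • t2 = t2 →
      t0 + z0 • t1 + z0 • z0 • t2 = 0 → t0 = 0 ∧ t1 = 0 ∧ t2 = 0 := by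
    intro t0 ht0 t1 ht1 t2 ht2 hx0 hx1 hx2 h0
    have hconj : ∀ z ∈ R, ∀ t : V, x' • t = t → x' • z • t = (x * z * x⁻¹) • t := by
      intro z hz t ht
      rw [← hx' z hz, mul_smul, mul_smul, inv_smul_eq_iff.mpr ht.symm]
    have hstep : ∀ z ∈ R, t0 + z • t1 + z • z • t2 = 0 →
        t0 + (x * z * x⁻¹) • t1 + (x * z * x⁻¹) • (x * z * x⁻¹) • t2 = 0 := by
      intro z hz h
      have h1 := congrArg (x' • ·) h
      simp only [smul_add, smul_zero] at h1
      rw [hx0, hconj z hz t1 hx1, ← mul_smul z z t2, hconj (z * z) (mul_mem hz hz) t2 hx2] at h1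
      rw [← mul_smul (x * z * x⁻¹)]
      have h2 : x * (z * z) * x⁻¹ = (x * z * x⁻¹) * (x * z * x⁻¹) := by group
      rwa [h2] at h1
    have h1 := hstep z0 hz0R h0
    rw [← hz1] at h1
    have h2 := hstep z1 hz1R h1
    rw [← hz2] at h2
    -- differences
    have key : ∀ a b : H, a ∈ R → b ∈ R → t0 + a • t1 + a • a • t2 = 0 →
        t0 + b • t1 + b • b • t2 = 0 → dl (a * b⁻¹) (t1 + a • t2 + b • t2) = 0 := by
      intro a b ha hb e1 e2
      have h3 : b • dl (a * b⁻¹) (t1 + a • t2 + b • t2)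
          = (b • t1 + b • b • t2) - (a • t1 + a • a • t2) := by
        rw [dl_apply, smul_sub]
        have e3 : b • (a * b⁻¹) • (t1 + a • t2 + b • t2) = a • (t1 + a • t2 + b • t2) := by
          rw [← mul_smul]
          congr 1
          rw [hab a ha _ (inv_mem hb)]
          group
        rw [e3]
        simp only [smul_add]
        have e4 : b • a • t2 = a • b • t2 := by rw [← mul_smul, ← mul_smul, hab b hb a ha]
        rw [e4]
        abel
      have h4 : (b • t1 + b • b • t2) - (a • t1 + a • a • t2) = 0 := by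
        have e5 : b • t1 + b • b • t2 = -t0 := by
          rw [eq_neg_iff_add_eq_zero, ← e2]; abel
        have e6 : a • t1 + a • a • t2 = -t0 := by
          rw [eq_neg_iff_add_eq_zero, ← e1]; abel
        rw [e5, e6, sub_self]
      rw [h4] at h3
      exact (smul_eq_zero_iff_eq b).mp h3
    have k1 := key z0 z1 hz0R hz1R h0 h1
    have k2 := key z0 z2 hz0R hz2R h0 h2
    have ht2 : t2 = 0 := by
      by_contra hne
      let Φ : V →+ V := (dl (z0 * z1⁻¹) : V →+ V).comp
        ((dl (z0 * z2⁻¹) : V →+ V).comp (dl (z1 * z2⁻¹) : V →+ V))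
      have hΦ : ∀ v, Φ v = dl (z0 * z1⁻¹) (dl (z0 * z2⁻¹) (dl (z1 * z2⁻¹) v)) := fun v => rfl
      have hΦc : ∀ z ∈ R, ∀ v, Φ (z • v) = z • Φ v := by
        intro z hz v
        rw [hΦ, hΦ, dl_smul (hab _ c12R z hz), dl_smul (hab _ c02R z hz),
          dl_smul (hab _ c01R z hz)]
      have hΦ0 : Φ t2 = 0 := by
        have e1 : z2 • dl (z1 * z2⁻¹) t2 = (t1 + z0 • t2 + z2 • t2) - (t1 + z0 • t2 + z1 • t2) := by
          rw [dl_apply, smul_sub]
          have e3 : z2 • (z1 * z2⁻¹) • t2 = z1 • t2 := by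
            rw [← mul_smul]
            congr 1
            rw [hab z1 hz1R _ (inv_mem hz2R)]
            group
          rw [e3]; abel
        have e2 : z2 • Φ t2 = 0 := by
          rw [hΦ, ← dl_smul (hab _ c01R z2 hz2R), ← dl_smul (hab _ c02R z2 hz2R), e1, map_sub,
            k2, zero_sub, map_neg, dl_comm (hab _ c01R _ c02R), k1, map_zero, neg_zero]
        exact (smul_eq_zero_iff_eq z2).mp e2
      have h5 := hkill Φ hΦc t2 ht2 hx2 hne hΦ0 y0 (hYU hy0.1)
      rw [hΦ] at h5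
      apply hy0.2
      apply hinj _ c12R hk12 _ hy0.1
      apply hinj _ c02R hk02 _ (hdY _ c12R _ hy0.1)
      exact hinj _ c01R hk01 _ (hdY _ c02R _ (hdY _ c12R _ hy0.1)) h5
    rw [ht2] at k1 h0
    simp only [smul_zero, add_zero] at k1 h0
    have ht1 : t1 = 0 := by
      by_contra hne
      have h5 := hkill (dl (z0 * z1⁻¹)) (fun z hz v => dl_smul (hab _ c01R z hz) v) t1 ht1 hx1 hne
        k1 y0 (hYU hy0.1)
      exact hy0.2 (hinj _ c01R hk01 _ hy0.1 h5)
    rw [ht1, smul_zero, add_zero] at h0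
    exact ⟨h0, ht1, ht2⟩
  -- injection
  set W := fx (act U x' hx'U) with hW
  have hWx : ∀ w ∈ W, x' • (w : V) = w := by
    intro w hw
    exact congrArg Subtype.val (mem_fx.mp hw)
  have hz0U := hRU z0 hz0R
  let F : W × W × W →+ U :=
    { toFun := fun p => (p.1 : U) + act U z0 hz0U (p.2.1 : U)
        + act U z0 hz0U (act U z0 hz0U (p.2.2 : U))
      map_zero' := by simp
      map_add' := by
        intro p q
        simp only [Prod.fst_add, Prod.snd_add, AddSubgroup.coe_add, map_add]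
        abel }
  have hFinj : Function.Injective F := by
    rw [injective_iff_map_eq_zero]
    rintro ⟨t0, t1, t2⟩ h
    have h' : ((t0 : U) : V) + z0 • ((t1 : U) : V) + z0 • z0 • ((t2 : U) : V) = 0 :=
      congrArg Subtype.val h
    obtain ⟨e0, e1, e2⟩ := hmain _ (t0 : U).2 _ (t1 : U).2 _ (t2 : U).2 (hWx _ t0.2)
      (hWx _ t1.2) (hWx _ t2.2) h'
    ext
    · exact e0
    · exact e1
    · exact e2
  have h1 := Nat.card_le_card_of_injective F hFinj
  rw [Nat.card_prod, Nat.card_prod] at h1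
  calc Nat.card W ^ 3 = Nat.card W * (Nat.card W * Nat.card W) := by ring
    _ ≤ _ := h1

end Pool.Agent.helper4.SR
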