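import Mathlib
import Pool.Agent.helper4.SR.Cube

/-!
On average, the elements of an abelian `r`-group of operators without fixed vectors have few
fixed vectors.
-/

open scoped Pointwise

namespace Pool.Agent.helper4.SR

variable {H V : Type*} [Group H] [Finite H] [AddCommGroup V] [Finite V] [DistribMulAction H V]

omit [Finite H] [Finite V] in
lemma card_eq_mul_relIndex {A B : AddSubgroup V} (h : A ≤ B) :
    Nat.card B = Nat.card A * A.relIndex B := by
  have := AddSubgroup.relIndex_mul_relIndex (⊥ : AddSubgroup V) A B bot_le h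
  rw [AddSubgroup.relIndex_bot_left, AddSubgroup.relIndex_bot_left] at this
  exact this.symm

lemma relIndex_ne (A B : AddSubgroup V) : A.relIndex B ≠ 0 := by
  intro h
  have h1 : A.relIndex B ∣ Nat.card B := AddSubgroup.relIndex_dvd_card A B
  rw [h, zero_dvd_iff] at h1
  exact Nat.card_pos.ne' h1

theorem prod_card_le {r : ℕ} [Fact r.Prime] (R : Subgroup H) [Fintype R]
    (hab : ∀ a ∈ R, ∀ b ∈ R, a * b = b * a) (hRp : IsPGroup r R)
    (hcop : Nat.Coprime (Nat.card R) (Nat.card V)) (n : ℕ) :
    ∀ N : AddSubgroup V, Nat.card N = n → (∀ z ∈ R, z • N = N) →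
      (∀ u ∈ N, (∀ z ∈ R, z • u = u) → u = 0) →
      (∏ z : R, Nat.card (N ⊓ (dl (z : H)).ker : AddSubgroup V)) ^ r
        ≤ Nat.card N ^ Nat.card R := by
  classical
  induction n using Nat.strong_induction_on with
  | _ n ih =>
  intro N hn hNR hNfix
  by_cases hN0 : N = ⊥
  · subst hN0
    have h1 : ∀ z : R, Nat.card ((⊥ : AddSubgroup V) ⊓ (dl (z : H)).ker : AddSubgroup V) = 1 := by
      intro z
      rw [bot_inf_eq, AddSubgroup.card_bot]
    rw [Finset.prod_congr rfl (fun z _ => h1 z)]
    simp
  · -- a maximal proper stable subgroup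
    obtain ⟨N', ⟨hN'lt, hN'R⟩, hmax⟩ :=
      (Set.toFinite {N' : AddSubgroup V | N' < N ∧ ∀ z ∈ R, z • N' = N'}).exists_maximal
        ⟨⊥, bot_lt_iff_ne_bot.mpr hN0, fun z _ => smul_eq_of (by
          intro u hu
          rw [AddSubgroup.mem_bot] at hu ⊢
          rw [hu, smul_zero])⟩
    have hN'N : N' ≤ N := hN'lt.le
    -- elements acting trivially on the quotient
    let K : Subgroup H :=
      { carrier := {u | u ∈ R ∧ ∀ v ∈ N, u • v - v ∈ N'}
        mul_mem' := by
          rintro a b ⟨ha, ha'⟩ ⟨hb, hb'⟩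
          refine ⟨mul_mem ha hb, fun v hv => ?_⟩
          have h1 : (a * b) • v - v = a • (b • v - v) + (a • v - v) := by
            rw [mul_smul, smul_sub]; abel
          rw [h1]
          exact AddSubgroup.add_mem _ (smul_mem_of (hN'R a ha) (hb' v hv)) (ha' v hv)
        one_mem' := ⟨one_mem _, fun v _ => by rw [one_smul, sub_self]; exact zero_mem _⟩
        inv_mem' := by
          rintro a ⟨ha, ha'⟩
          refine ⟨inv_mem ha, fun v hv => ?_⟩
          have h1 : a⁻¹ • v - v = -(a⁻¹ • (a • v - v)) := by
            rw [smul_sub, inv_smul_smul]; abel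
          rw [h1]
          exact AddSubgroup.neg_mem _ (smul_mem_of (hN'R _ (inv_mem ha)) (ha' v hv)) }
    have hKR : K ≤ R := fun u hu => hu.1
    have hKne : K ≠ R := by
      intro h
      obtain ⟨v, hv, hv'⟩ := SetLike.exists_of_lt hN'lt
      have hS0 : ∑ z : R, (z : H) • v = 0 := by
        apply hNfix
        · exact AddSubgroup.sum_mem _ fun z _ => smul_mem_of (hNR z z.2) hv
        · intro z hz
          rw [Finset.smul_sum]
          refine Fintype.sum_equiv (Equiv.mulLeft (⟨z, hz⟩ : R)) _ _ ?_
          intro y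
          simp [mul_smul]
      have h1 : Nat.card R • v ∈ N' := by
        have h2 : Nat.card R • v = -∑ z : R, ((z : H) • v - v) := by
          rw [Finset.sum_sub_distrib, hS0, Finset.sum_const, Finset.card_univ,
            Nat.card_eq_fintype_card]
          simp
        rw [h2]
        refine AddSubgroup.neg_mem _ (AddSubgroup.sum_mem _ fun z _ => ?_)
        have hz : (z : H) ∈ K := by rw [h]; exact z.2
        exact hz.2 v hv
      apply hv'
      have h3 := Nat.gcd_eq_gcd_ab (Nat.card R) (Nat.card V)
      rw [hcop.gcd_eq_one] at h3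
      have h4 : (Nat.card V) • v = 0 := card_nsmul_eq_zero'
      have h5 : v = Nat.gcdA (Nat.card R) (Nat.card V) • (Nat.card R • v) := by
        rw [← natCast_zsmul, ← mul_smul]
        have h6 : (Nat.gcdA (Nat.card R) (Nat.card V) * (Nat.card R : ℤ))
            = 1 - Nat.gcdB (Nat.card R) (Nat.card V) * (Nat.card V : ℤ) := by
          push_cast at h3 ⊢
          linarith
        rw [h6, sub_smul, one_smul, mul_smul, natCast_zsmul, h4, smul_zero, sub_zero]
      rw [h5]
      exact AddSubgroup.zsmul_mem _ h1 _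
    have hKcard := card_proper hRp hKR hKne
    set q := N'.relIndex N with hq
    have hqpos : 0 < q := Nat.pos_of_ne_zero (relIndex_ne _ _)
    have hNq : Nat.card N = Nat.card N' * q := card_eq_mul_relIndex hN'N
    have hterm : ∀ z : R, Nat.card (N ⊓ (dl (z : H)).ker : AddSubgroup V)
        ≤ Nat.card (N' ⊓ (dl (z : H)).ker : AddSubgroup V) * (if (z : H) ∈ K then q else 1) := by
      intro z
      by_cases hz : (z : H) ∈ K
      · rw [if_pos hz]
        have hle : N' ⊓ (dl (z : H)).ker ≤ N ⊓ (dl (z : H)).ker := inf_le_inf_right _ hN'N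
        rw [card_eq_mul_relIndex hle]
        apply Nat.mul_le_mul_left
        have h1 : N' ⊓ (dl (z : H)).ker = N' ⊓ (N ⊓ (dl (z : H)).ker) := by
          rw [← inf_assoc, inf_eq_left.mpr hN'N]
        rw [h1, AddSubgroup.inf_relIndex_right]
        exact AddSubgroup.relIndex_le_of_le_right inf_le_left (relIndex_ne _ _)
      · rw [if_neg hz, mul_one]
        have hle : N ⊓ (dl (z : H)).ker ≤ N' := by
          by_contra hcon
          set M := (N ⊓ (dl (z : H)).ker) ⊔ N' with hM
          have hMN : M ≤ N := sup_le inf_le_left hN'N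
          have hMR : ∀ y ∈ R, y • M = M := by
            intro y hy
            apply smul_eq_of
            intro v hv
            obtain ⟨a, ha, b, hb, rfl⟩ := AddSubgroup.mem_sup.mp hv
            rw [smul_add]
            refine AddSubgroup.add_mem_sup ?_ (smul_mem_of (hN'R y hy) hb)
            refine ⟨smul_mem_of (hNR y hy) ha.1, ?_⟩
            have ha2 : dl (z : H) a = 0 := ha.2
            change dl (z : H) (y • a) = 0
            rw [dl_smul (hab _ z.2 y hy), ha2, smul_zero]
          have hMeq : M = N := by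
            by_contra hne
            have h1 : M < N := lt_of_le_of_ne hMN hne
            have h2 := hmax ⟨h1, hMR⟩ le_sup_right
            exact hcon (le_sup_left.trans h2)
          apply hz
          refine ⟨z.2, fun v hv => ?_⟩
          rw [← hMeq] at hv
          obtain ⟨a, ha, b, hb, rfl⟩ := AddSubgroup.mem_sup.mp hv
          have ha2 : dl (z : H) a = 0 := ha.2
          rw [dl_apply, sub_eq_zero] at ha2
          rw [smul_add, ← ha2, add_sub_add_left_eq_sub]
          exact AddSubgroup.sub_mem _ (smul_mem_of (hN'R _ z.2) hb) hb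
        have heq : N ⊓ (dl (z : H)).ker ≤ N' ⊓ (dl (z : H)).ker := le_inf hle inf_le_right
        exact Nat.card_le_card_of_injective _ (AddSubgroup.inclusion_injective heq)
    have hih := ih (Nat.card N') (by
      rw [← hn]
      exact lt_of_le_of_ne (by rw [hNq]; exact Nat.le_mul_of_pos_right _ hqpos) (by
        intro h
        exact hN'lt.ne (AddSubgroup.eq_of_le_of_card_ge hN'N h.ge))) N' rfl hN'R
      (fun u hu => hNfix u (hN'N hu))
    calc (∏ z : R, Nat.card (N ⊓ (dl (z : H)).ker : AddSubgroup V)) ^ r
        ≤ (∏ z : R, (Nat.card (N' ⊓ (dl (z : H)).ker : AddSubgroup V) *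
            (if (z : H) ∈ K then q else 1))) ^ r :=
          Nat.pow_le_pow_left (Finset.prod_le_prod' fun z _ => hterm z) _
      _ = (∏ z : R, Nat.card (N' ⊓ (dl (z : H)).ker : AddSubgroup V)) ^ r *
            (∏ z : R, (if (z : H) ∈ K then q else 1)) ^ r := by
          rw [Finset.prod_mul_distrib, mul_pow]
      _ ≤ Nat.card N' ^ Nat.card R * q ^ Nat.card R := by
          refine Nat.mul_le_mul hih ?_
          rw [Finset.prod_ite, Finset.prod_const, Finset.prod_const_one, mul_one, ← pow_mul]
          apply Nat.pow_le_pow_right hqpos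
          refine le_trans (Nat.mul_le_mul_right _ (le_of_eq ?_)) hKcard
          rw [← Fintype.card_subtype, ← Nat.card_eq_fintype_card]
          exact Nat.card_congr ⟨fun z => ⟨z.1.1, z.2⟩, fun z => ⟨⟨z.1, hKR z.2⟩, z.2⟩,
            fun z => by simp, fun z => by simp⟩
      _ = Nat.card N ^ Nat.card R := by rw [hNq, mul_pow]

/-- Some nontrivial element has few fixed points. -/
theorem exists_few {r : ℕ} [Fact r.Prime] (hr3 : 3 ≤ r) (R : Subgroup H)
    (hab : ∀ a ∈ R, ∀ b ∈ R, a * b = b * a) (hRp : IsPGroup r R)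
    (hcop : Nat.Coprime (Nat.card R) (Nat.card V)) (N : AddSubgroup V) (hN0 : N ≠ ⊥)
    (hNR : ∀ z ∈ R, z • N = N) (hNfix : ∀ u ∈ N, (∀ z ∈ R, z • u = u) → u = 0) :
    ∃ u ∈ R, u ≠ 1 ∧ Nat.card (N ⊓ (dl u).ker : AddSubgroup V) ^ 3 < Nat.card N := by
  classical
  have := Fintype.ofFinite R
  by_contra hcon
  push Not at hcon
  have h1 := prod_card_le R hab hRp hcop _ N rfl hNR hNfix
  have hc1 : 1 < Nat.card N := by
    have : Nontrivial N := (AddSubgroup.nontrivial_iff_ne_bot N).mpr hN0
    exact Finite.one_lt_card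
  set P := ∏ z : R, Nat.card (N ⊓ (dl (z : H)).ker : AddSubgroup V) with hP
  have hPpos : 0 < P := Finset.prod_pos fun z _ => Nat.card_pos
  have h2 : P ^ 3 ≤ Nat.card N ^ Nat.card R := (Nat.pow_le_pow_right hPpos hr3).trans h1
  have h3 : Nat.card N ^ (Nat.card R + 2) ≤ P ^ 3 := by
    rw [hP, ← Finset.prod_pow]
    have h4 : ∀ z : R, (if z = 1 then Nat.card N ^ 3 else Nat.card N)
        ≤ Nat.card (N ⊓ (dl (z : H)).ker : AddSubgroup V) ^ 3 := by
      intro z
      by_cases hz : z = 1
      · rw [if_pos hz]
        apply Nat.pow_le_pow_left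
        apply le_of_eq
        congr 1
        have : N ⊓ (dl (z : H)).ker = N := by
          rw [inf_eq_left]
          intro v _
          change dl (z : H) v = 0
          rw [hz, dl_apply]
          simp
        rw [this]
      · rw [if_neg hz]
        exact hcon z z.2 (fun h => hz (Subtype.ext h))
    refine le_trans (le_of_eq ?_) (Finset.prod_le_prod' fun z _ => h4 z)
    rw [← Finset.mul_prod_erase Finset.univ _ (Finset.mem_univ (1 : R)), if_pos rfl]
    rw [Finset.prod_congr rfl (fun z hz => if_neg (Finset.ne_of_mem_erase hz)),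
      Finset.prod_const, Finset.card_erase_of_mem (Finset.mem_univ _), Finset.card_univ,
      ← Nat.card_eq_fintype_card, ← pow_add]
    congr 1
    have : 0 < Nat.card R := Nat.card_pos
    omega
  have h5 := h3.trans h2
  have h6 := (Nat.pow_le_pow_iff_right hc1).mp h5
  omega

end Pool.Agent.helper4.SR
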