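import Mathlib
import Pool.Agent.helper4.SR.Average

/-!
The abelian case.
-/

open scoped Pointwise

namespace Pool.Agent.helper4.SR

variable {H V : Type*} [Group H] [Finite H] [AddCommGroup V] [Finite V] [DistribMulAction H V]

omit [Finite H] [Finite V] in
lemma card_fx_act (U : AddSubgroup V) (u : H) (hu : u • U = U) :
    Nat.card (fx (act U u hu)) = Nat.card (U ⊓ (dl u).ker : AddSubgroup V) := by
  refine Nat.card_congr ⟨fun w => ⟨((w : U) : V), (w : U).2, ?_⟩,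
    fun v => ⟨⟨v.1, v.2.1⟩, ?_⟩, fun w => rfl, fun v => rfl⟩
  · have : u • ((w : U) : V) = ((w : U) : V) := congrArg Subtype.val (mem_fx.mp w.2)
    change dl u ((w : U) : V) = 0
    rw [dl_apply, this, sub_self]
  · rw [mem_fx]
    apply Subtype.ext
    have h1 : dl u v.1 = 0 := v.2.2
    rw [dl_apply, sub_eq_zero] at h1
    exact h1.symm

theorem alpha (hstar : Star H V) {r : ℕ} [Fact r.Prime] (hr3 : 3 ≤ r) (x : H) (R : Subgroup H)
    (hab : ∀ a ∈ R, ∀ b ∈ R, a * b = b * a) (hRp : IsPGroup r R)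
    (hcop : Nat.Coprime (Nat.card R) (Nat.card V))
    (hxR : ∀ z ∈ R, x * z * x⁻¹ ∈ R)
    (hgen : ∀ u ∈ R, u ≠ 1 → ∀ K : Subgroup H, u ∈ K → (∀ k ∈ K, x * k * x⁻¹ ∈ K) → R ≤ K)
    (hc1 : ∀ K : Subgroup H, (∀ z ∈ R, z * (x * z * x⁻¹)⁻¹ ∈ K) → R ≤ K)
    (hc2 : ∀ K : Subgroup H, (∀ z ∈ R, z * (x * (x * z * x⁻¹) * x⁻¹)⁻¹ ∈ K) → R ≤ K)
    (hact : ∃ z ∈ R, ∃ v : V, z • v ≠ v) : False := by
  have hinvR : ∀ z ∈ R, x⁻¹ * z * x ∈ R := by
    intro z hz
    have hbij : Function.Bijective (fun z : R => (⟨x * z * x⁻¹, hxR z z.2⟩ : R)) := by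
      apply Finite.injective_iff_bijective.mp
      intro z z' hzz
      have : x * (z : H) * x⁻¹ = x * (z' : H) * x⁻¹ := congrArg Subtype.val hzz
      apply Subtype.ext
      simpa using this
    obtain ⟨y, hy⟩ := hbij.2 ⟨z, hz⟩
    have h1 : x * (y : H) * x⁻¹ = z := congrArg Subtype.val hy
    have h2 : x⁻¹ * z * x = y := by rw [← h1]; group
    rw [h2]; exact y.2
  obtain ⟨W, hW0, hWfix, hWst⟩ := exists_stable R hcop hact
  obtain ⟨U, hUW, hU0, ⟨hxU, hRU⟩, hmin⟩ :=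
    exists_min (fun U => x • U = U ∧ ∀ z ∈ R, z • U = U) W
    ⟨hWst x hinvR, fun z hz => hWst z fun y hy => mul_mem (mul_mem (inv_mem hz) hy) hz⟩ hW0
  have hfix : ∀ y ∈ U, (∀ z ∈ R, z • y = y) → y = 0 := fun y hy => hWfix y (hUW hy)
  -- few fixed points
  obtain ⟨u, huR, hu1, hfew⟩ := exists_few hr3 R hab hRp hcop U hU0 hRU hfix
  have huU : u • U = U := hRU u huR
  have hbU : (u * x) • U = U := by rw [mul_smul, hxU, huU]
  have hx' : ∀ z ∈ R, (u * x) * z * (u * x)⁻¹ = x * z * x⁻¹ := by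
    intro z hz
    have h1 : (u * x) * z * (u * x)⁻¹ = u * (x * z * x⁻¹) * u⁻¹ := by group
    rw [h1, hab u huR _ (hxR z hz)]
    group
  have c1 := cube_le hr3 R hab hRp x x hxR (fun z _ => rfl) hc1 hc2 U hU0 hxU hRU
    (fun W h1 h2 h3 => hmin W h1 ⟨h2, h3⟩) hfix
  have c2 := cube_le hr3 R hab hRp x (u * x) hxR hx' hc1 hc2 U hU0 hbU hRU
    (fun W h1 h2 h3 => hmin W h1 ⟨by
      have h4 : u⁻¹ • W = W := by rw [inv_smul_eq_iff, h3 u huR]
      have h5 : x • W = u⁻¹ • (u * x) • W := by rw [mul_smul, inv_smul_smul]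
      rw [h5, h2, h4], h3⟩) hfix
  -- apply the inequality to `x`, `u * x`
  have hRclo : R ≤ Subgroup.closure {x, u * x} := by
    have hx : x ∈ Subgroup.closure {x, u * x} := Subgroup.subset_closure (by simp)
    have hux : u * x ∈ Subgroup.closure {x, u * x} := Subgroup.subset_closure (by simp)
    have hu : u ∈ Subgroup.closure {x, u * x} := by
      have h1 : (u * x) * x⁻¹ ∈ Subgroup.closure {x, u * x} := mul_mem hux (inv_mem hx)
      rwa [mul_inv_cancel_right] at h1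
    exact hgen u huR hu1 _ hu fun k hk => mul_mem (mul_mem hx hk) (inv_mem hx)
  have hbR : ∀ z ∈ R, (u * x)⁻¹ * z * (u * x) ∈ R := by
    intro z hz
    have h1 : (u * x)⁻¹ * z * (u * x) = x⁻¹ * (u⁻¹ * z * u) * x := by group
    rw [h1]
    exact hinvR _ (mul_mem (mul_mem (inv_mem huR) hz) huR)
  have hmin' : ∀ W : AddSubgroup V, W ≤ U → x • W = W → (u * x) • W = W → W = ⊥ ∨ W = U := by
    intro W hW hxW huxW
    have huW : u • W = W := by
      have h1 : u • W = (u * x) • x⁻¹ • W := by rw [mul_smul, smul_inv_smul]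
      have h2 : x⁻¹ • W = W := by rw [inv_smul_eq_iff, hxW]
      rw [h1, h2, huxW]
    refine hmin W hW ⟨hxW, ?_⟩
    have hK := hgen u huR hu1 (MulAction.stabilizer H W) huW (fun k hk => by
      have hx : x ∈ MulAction.stabilizer H W := hxW
      exact mul_mem (mul_mem hx hk) (inv_mem hx))
    intro z hz
    exact hK hz
  have hinv : ∀ h : H, h * x * h⁻¹ = x⁻¹ → h * (u * x) * h⁻¹ = (u * x)⁻¹ →
      ∀ z ∈ R, h * z * h⁻¹ ∈ R := by
    intro h h1 h2
    have h3 : h * u * h⁻¹ = x⁻¹ * u⁻¹ * x := by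
      have h4 : h * (u * x) * h⁻¹ = (h * u * h⁻¹) * (h * x * h⁻¹) := by group
      rw [h4, h1] at h2
      have h5 : h * u * h⁻¹ = (u * x)⁻¹ * x := by
        rw [← h2]; group
      rw [h5]; group
    have hK := hgen u huR hu1 (R.comap (MulAut.conj h : H ≃* H).toMonoidHom) (by
      change h * u * h⁻¹ ∈ R
      rw [h3]; exact hinvR _ (inv_mem huR)) (fun k hk => by
      change h * k * h⁻¹ ∈ R at hk
      change h * (x * k * x⁻¹) * h⁻¹ ∈ R
      have h4 : h * (x * k * x⁻¹) * h⁻¹ = (h * x * h⁻¹) * (h * k * h⁻¹) * (h * x * h⁻¹)⁻¹ := by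
        group
      rw [h4, h1, inv_inv]
      exact hinvR _ hk)
    intro z hz
    exact hK hz
  have hst := star_restrict hstar x (u * x) R hRclo hinvR hbR hinv hcop U hxU hbU hmin' hfix
  have hnt : Nontrivial U := (AddSubgroup.nontrivial_iff_ne_bot U).mpr hU0
  have hnc : ∃ w, act U x hxU (act U (u * x) hbU w) ≠ act U (u * x) hbU (act U x hxU w) := by
    by_contra hcon
    push Not at hcon
    have hc : ∀ w ∈ U, x • (u * x) • w = (u * x) • x • w := by
      intro w hw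
      exact congrArg Subtype.val (hcon ⟨w, hw⟩)
    -- elements of R commuting with x on U
    set KU : Subgroup H := kerR ⊤ U with hKU
    have hKUx : ∀ k ∈ KU, x * k * x⁻¹ ∈ KU := by
      rintro k ⟨-, hk⟩
      refine ⟨trivial, fun y hy => ?_⟩
      have h1 : x⁻¹ • y ∈ U := smul_mem_of (by rw [inv_smul_eq_iff, hxU]) hy
      rw [mul_smul, mul_smul, hk _ h1, smul_inv_smul]
    let K' : Subgroup H :=
      { carrier := {z | z ∈ R ∧ z * (x * z * x⁻¹)⁻¹ ∈ KU}
        mul_mem' := by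
          rintro a b ⟨ha, ha'⟩ ⟨hb, hb'⟩
          refine ⟨mul_mem ha hb, ?_⟩
          have h1 : a * b * (x * (a * b) * x⁻¹)⁻¹
              = (a * (x * a * x⁻¹)⁻¹) * (b * (x * b * x⁻¹)⁻¹) := by
            have e0 : x * (a * b) * x⁻¹ = (x * a * x⁻¹) * (x * b * x⁻¹) := by group
            have e1 : b * (x * b * x⁻¹)⁻¹ * (x * a * x⁻¹)⁻¹
                = (x * a * x⁻¹)⁻¹ * (b * (x * b * x⁻¹)⁻¹) :=
              hab _ (mul_mem hb (inv_mem (hxR b hb))) _ (inv_mem (hxR a ha))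
            rw [e0, mul_inv_rev]
            calc a * b * ((x * b * x⁻¹)⁻¹ * (x * a * x⁻¹)⁻¹)
                = a * (b * (x * b * x⁻¹)⁻¹ * (x * a * x⁻¹)⁻¹) := by group
              _ = a * ((x * a * x⁻¹)⁻¹ * (b * (x * b * x⁻¹)⁻¹)) := by rw [e1]
              _ = _ := by group
          rw [h1]
          exact mul_mem ha' hb'
        one_mem' := by
          refine ⟨one_mem _, ?_⟩
          have : (1 : H) * (x * 1 * x⁻¹)⁻¹ = 1 := by group
          rw [this]; exact one_mem _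
        inv_mem' := by
          rintro a ⟨ha, ha'⟩
          refine ⟨inv_mem ha, ?_⟩
          have h1 : a⁻¹ * (x * a⁻¹ * x⁻¹)⁻¹ = (a * (x * a * x⁻¹)⁻¹)⁻¹ := by
            have e1 : a⁻¹ * (x * a * x⁻¹) = (x * a * x⁻¹) * a⁻¹ := hab _ (inv_mem ha) _ (hxR a ha)
            calc a⁻¹ * (x * a⁻¹ * x⁻¹)⁻¹ = a⁻¹ * (x * a * x⁻¹) := by group
              _ = (x * a * x⁻¹) * a⁻¹ := e1
              _ = _ := by group
          rw [h1]; exact inv_mem ha' }
    have huK' : u ∈ K' := by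
      refine ⟨huR, trivial, fun y hy => ?_⟩
      have hw : x⁻¹ • x⁻¹ • y ∈ U := by
        have h0 : x⁻¹ • U = U := by rw [inv_smul_eq_iff, hxU]
        exact smul_mem_of h0 (smul_mem_of h0 hy)
      have h1 := hc _ hw
      simp only [mul_smul, smul_inv_smul] at h1
      -- x • u • x⁻¹ • y = u • y
      rw [mul_smul]
      have h2 : (x * u * x⁻¹)⁻¹ • y = u⁻¹ • y := by
        rw [inv_smul_eq_iff, mul_smul, mul_smul]
        have hy2 : u⁻¹ • y ∈ U := smul_mem_of (by rw [inv_smul_eq_iff, huU]) hy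
        have hw2 : x⁻¹ • x⁻¹ • u⁻¹ • y ∈ U := by
          have h0 : x⁻¹ • U = U := by rw [inv_smul_eq_iff, hxU]
          exact smul_mem_of h0 (smul_mem_of h0 hy2)
        have h3 := hc _ hw2
        simp only [mul_smul, smul_inv_smul] at h3
        exact h3.symm
      rw [h2, smul_inv_smul]
    have hK := hgen u huR hu1 K' huK' (fun k hk => by
      refine ⟨hxR k hk.1, ?_⟩
      have h1 : x * k * x⁻¹ * (x * (x * k * x⁻¹) * x⁻¹)⁻¹ = x * (k * (x * k * x⁻¹)⁻¹) * x⁻¹ := by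
        group
      rw [h1]
      exact hKUx _ hk.2)
    have hR := hc1 KU fun z hz => (hK hz).2
    apply hU0
    rw [eq_bot_iff]
    intro y hy
    exact AddSubgroup.mem_bot.mpr (hfix y hy fun z hz => (hR hz).2 y hy)
  have hmain := card_le (irred_of U x (u * x) hxU hbU hmin') hnc hst
  have hthird : Nat.card (fx ((act U x hxU).symm.trans (act U (u * x) hbU)))
      = Nat.card (U ⊓ (dl u).ker : AddSubgroup V) := by
    rw [← card_fx_act U u huU]
    congr 2
    ext w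
    rw [mem_fx, mem_fx]
    have h1 : ((act U x hxU).symm.trans (act U (u * x) hbU)) w = act U u huU w := by
      apply Subtype.ext
      simp only [AddEquiv.trans_apply, act_apply, act_symm_apply, mul_smul, smul_inv_smul]
    rw [h1]
  rw [hthird] at hmain
  set n := Nat.card U
  set p := Nat.card (fx (act U x hxU))
  set q := Nat.card (fx (act U (u * x) hbU))
  set s := Nat.card (U ⊓ (dl u).ker : AddSubgroup V)
  have hn : 0 < n := Nat.card_pos
  have h1 : n ^ 3 ≤ (p * q * s) ^ 3 := Nat.pow_le_pow_left hmain 3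
  have h2 : (p * q * s) ^ 3 = p ^ 3 * q ^ 3 * s ^ 3 := by ring
  have h3 : p ^ 3 * q ^ 3 ≤ n * n := Nat.mul_le_mul c1 c2
  have h4 : p ^ 3 * q ^ 3 * s ^ 3 < n * n * n := by
    calc p ^ 3 * q ^ 3 * s ^ 3 ≤ n * n * s ^ 3 := Nat.mul_le_mul_right _ h3
      _ < n * n * n := Nat.mul_lt_mul_of_pos_left hfew (Nat.mul_pos hn hn)
  have h5 : n ^ 3 = n * n * n := by ring
  omega

end Pool.Agent.helper4.SR
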