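import Pool.Agent.helper4.SR.Resid

/-!
Finite groups in which the `n`-th iterated nilpotent residual is the unique minimal normal
subgroup; complements.
-/

namespace Pool.Agent.helper4.SR

open Subgroup

/-- Any two elements are inverted simultaneously by some element. -/
def Inv2 (G : Type*) [Group G] : Prop :=
  ∀ x y : G, ∃ g : G, g * x * g⁻¹ = x⁻¹ ∧ g * y * g⁻¹ = y⁻¹

lemma Inv2.of_surjective {G G' : Type*} [Group G] [Group G'] (f : G →* G')
    (hf : Function.Surjective f) (h : Inv2 G) : Inv2 G' := by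
  intro x y
  obtain ⟨x, rfl⟩ := hf x
  obtain ⟨y, rfl⟩ := hf y
  obtain ⟨g, h1, h2⟩ := h x y
  exact ⟨f g, by rw [← map_inv, ← map_inv, ← map_mul, ← map_mul, h1],
    by rw [← map_inv, ← map_inv, ← map_mul, ← map_mul, h2]⟩

/-- The `n`-th iterated nilpotent residual is nontrivial and contained in every nontrivial normal
subgroup. -/
def Prim (G : Type*) [Group G] (n : ℕ) : Prop :=
  D G n ≠ ⊥ ∧ ∀ N : Subgroup G, N.Normal → N ≠ ⊥ → D G n ≤ N

variable {G : Type*} [Group G]

lemma exists_prim [Finite G] (n : ℕ) (h : D G n ≠ ⊥) :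
    ∃ (N : Subgroup G) (_ : N.Normal), Prim (G ⧸ N) n := by
  let S : Set (Subgroup G) := {N | N.Normal ∧ ¬ D G n ≤ N}
  have hS : S.Finite := Set.toFinite _
  have hne : S.Nonempty := ⟨⊥, inferInstance, fun hb => h (le_bot_iff.mp hb)⟩
  obtain ⟨N, hN⟩ := hS.exists_maximal hne
  obtain ⟨hNn, hNd⟩ := hN.prop
  have := hNn
  refine ⟨N, hNn, ?_, ?_⟩
  · intro hb
    apply hNd
    rw [← map_D (QuotientGroup.mk' N) (QuotientGroup.mk'_surjective N), Subgroup.map_eq_bot_iff,
      QuotientGroup.ker_mk'] at hb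
    exact hb
  · intro M hM hMb
    have := hM
    have h1 : N ≤ M.comap (QuotientGroup.mk' N) := by
      have := ker_le_comap (QuotientGroup.mk' N) M
      rwa [QuotientGroup.ker_mk'] at this
    have h2 : M.comap (QuotientGroup.mk' N) ∉ S := by
      intro h3
      have h4 := hN.le_of_ge h3 h1
      apply hMb
      rw [← map_comap_eq_self_of_surjective (QuotientGroup.mk'_surjective N) M,
        Subgroup.map_eq_bot_iff, QuotientGroup.ker_mk']
      exact h4
    have h3 : D G n ≤ M.comap (QuotientGroup.mk' N) := by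
      by_contra h4
      exact h2 ⟨inferInstance, h4⟩
    rw [← map_D (QuotientGroup.mk' N) (QuotientGroup.mk'_surjective N)]
    exact map_le_iff_le_comap.mpr h3

/-- `V` is abelian. -/
lemma Prim.comm [Finite G] [Group.IsSolvable G] {n : ℕ} (h : Prim G n) :
    ∀ a ∈ D G n, ∀ b ∈ D G n, a * b = b * a := by
  have h1 : ⁅D G n, D G n⁆ < D G n := Group.IsSolvable.commutator_lt_of_ne_bot h.1
  have h2 : ⁅D G n, D G n⁆ = ⊥ := by
    by_contra hne
    exact absurd (h.2 _ inferInstance hne) (not_le_of_gt h1)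
  rw [commutator_eq_bot_iff_le_centralizer] at h2
  intro a ha b hb
  exact (mem_centralizer_iff.mp (h2 ha) b hb).symm

/-- `V` has prime exponent. -/
lemma Prim.exists_prime [Finite G] [Group.IsSolvable G] {n : ℕ} (h : Prim G n) :
    ∃ p : ℕ, p.Prime ∧ ∀ v ∈ D G n, v ^ p = 1 := by
  have hc := h.comm
  have hnt : Nat.card (D G n) ≠ 1 := by
    rw [Ne, Subgroup.card_eq_one]
    exact h.1
  obtain ⟨p, hp, hpd⟩ := Nat.exists_prime_and_dvd hnt
  have := Fact.mk hp
  obtain ⟨v, hv⟩ := exists_prime_orderOf_dvd_card' (G := D G n) p hpd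
  let N : Subgroup G :=
    { carrier := {v | v ∈ D G n ∧ v ^ p = 1}
      one_mem' := ⟨one_mem _, one_pow p⟩
      mul_mem' := by
        rintro a b ⟨ha, ha'⟩ ⟨hb, hb'⟩
        refine ⟨mul_mem ha hb, ?_⟩
        have : Commute a b := hc a ha b hb
        rw [this.mul_pow, ha', hb', one_mul]
      inv_mem' := by
        rintro a ⟨ha, ha'⟩
        exact ⟨inv_mem ha, by rw [inv_pow, ha', inv_one]⟩ }
  have hN : N.Normal := ⟨by
    rintro a ⟨ha, ha'⟩ g
    exact ⟨(D_normal n).conj_mem a ha g, by rw [conj_pow, ha', mul_one, mul_inv_cancel]⟩⟩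
  refine ⟨p, hp, fun w hw => ?_⟩
  have hNb : N ≠ ⊥ := by
    intro hb
    have h1 : (v : G) ∈ N := ⟨v.2, by
      rw [← hv]
      have := pow_orderOf_eq_one v
      exact_mod_cast congrArg (Subtype.val) this⟩
    rw [hb, mem_bot] at h1
    have h2 : v = 1 := Subtype.ext h1
    rw [h2, orderOf_one] at hv
    exact hp.one_lt.ne hv
  exact (h.2 N hN hNb hw).2

end Pool.Agent.helper4.SR
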