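import Pool.Agent.helper4.Amza.Bounds
import Pool.Agent.helper4.SR.Prim

/-!
Simply reducible groups: any two elements are inverted simultaneously.
-/

open scoped ComplexConjugate MonoidAlgebra

namespace Pool.Agent.helper4.SR

open Pool.Agent.helper4.Amza

variable {G : Type} [Group G] [Fintype G]

open Classical in
/-- The convolution formula for irreducible characters. -/
lemma conv {χ ψ : G → ℂ} (hχ : χ ∈ irrChars G) (hψ : ψ ∈ irrChars G) (g : G) :
    χ 1 * ∑ x : G, χ (g * x) * ψ x⁻¹ = if χ = ψ then (Nat.card G : ℂ) * χ g else 0 := by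
  have horth := irr_orthogonal hχ hψ
  have hzc : (∑ x : G, MonoidAlgebra.single x (ψ x⁻¹) : ℂ[G]) ∈ Submonoid.center ℂ[G] := by
    rw [Submonoid.mem_center_iff]
    intro y
    induction y using MonoidAlgebra.induction_on with
    | of g =>
      rw [Finset.mul_sum, Finset.sum_mul]
      simp only [MonoidAlgebra.of_apply, MonoidAlgebra.single_mul_single, one_mul, mul_one]
      refine Finset.sum_equiv (MulAut.conj g).toEquiv (by simp) ?_
      intro x _
      simp only [MulEquiv.toEquiv_eq_coe, EquivLike.coe_coe, MulAut.conj_apply]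
      have h1 : (g * x * g⁻¹)⁻¹ = g * x⁻¹ * g⁻¹ := by group
      rw [h1, irr_conj hψ]
      simp
    | add a b ha hb => rw [add_mul, mul_add, ha, hb]
    | smul r a ha => rw [smul_mul_assoc, mul_smul_comm, ha]
  obtain ⟨V, _, _, _, ρ, hρ, rfl⟩ := hχ
  set z : ℂ[G] := ∑ x : G, MonoidAlgebra.single x (ψ x⁻¹) with hz
  obtain ⟨c, hc⟩ := (Representation.IsIrreducible.algebraMap_intertwiningMap_bijective_of_isAlgClosed
      (ρ := ρ)).2 (Representation.IntertwiningMap.centralAlgebraMul ρ hzc)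
  have hc' : ρ.asAlgebraHom z = c • LinearMap.id := by
    have := congrArg (fun f => f.toLinearMap) hc
    simp only [Representation.IntertwiningMap.algebraMap_apply] at this
    exact this.symm
  have htr : ∀ g : G, LinearMap.trace ℂ V (ρ g * ρ.asAlgebraHom z)
      = ∑ x : G, ρ.character (g * x) * ψ x⁻¹ := by
    intro g
    rw [hz, map_sum, Finset.mul_sum, map_sum]
    refine Finset.sum_congr rfl fun x _ => ?_
    rw [Representation.asAlgebraHom_single, mul_smul_comm, ← map_mul, map_smul, smul_eq_mul,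
      mul_comm]
    rfl
  have htr2 : ∀ g : G, ∑ x : G, ρ.character (g * x) * ψ x⁻¹ = c * ρ.character g := by
    intro g
    rw [← htr g, hc', mul_smul_comm, map_smul, smul_eq_mul]
    congr 1
  have h1 := htr2 1
  simp only [one_mul] at h1
  rw [htr2 g, ← mul_assoc, mul_comm _ c, ← h1, horth]
  split_ifs <;> simp

/-- The number of `k` conjugating `a` to `g`. -/
noncomputable def cnt (a g : G) : ℂ := by
  classical exact ∑ k : G, if k * a * k⁻¹ = g then 1 else 0

open Classical in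
lemma sum_cnt_mul (f : G → ℂ) (a : G) : ∑ g : G, cnt a g * f g = ∑ k : G, f (k * a * k⁻¹) := by
  simp only [cnt, Finset.sum_mul]
  rw [Finset.sum_comm]
  refine Finset.sum_congr rfl fun k _ => ?_
  rw [Finset.sum_eq_single (k * a * k⁻¹)]
  · simp
  · intro b _ hb
    rw [if_neg (fun h => hb h.symm), zero_mul]
  · intro h; exact absurd (Finset.mem_univ _) h

/-- Column orthogonality. -/
lemma col (a g : G) : ∑ χ ∈ Irr G, χ a * χ g⁻¹ = cnt a g := by
  classical
  have key := eq_zero_of_orthogonal (G := G)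
    (fun g => (∑ χ ∈ Irr G, χ a * χ g⁻¹) - cnt a g) ?_ ?_ g
  · exact sub_eq_zero.mp key
  · intro g x
    have h2 : ∀ χ ∈ Irr G, χ a * χ (x * g * x⁻¹)⁻¹ = χ a * χ g⁻¹ := by
      intro χ hχ
      have : (x * g * x⁻¹)⁻¹ = x * g⁻¹ * x⁻¹ := by group
      rw [this, irr_conj (mem_Irr.mp hχ)]
    simp only [Finset.sum_congr rfl h2, cnt]
    congr 1
    refine Finset.sum_equiv (Equiv.mulLeft x⁻¹) (by simp) ?_
    intro k _
    have : k * a * k⁻¹ = x * g * x⁻¹ ↔ (x⁻¹ * k) * a * (x⁻¹ * k)⁻¹ = g := by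
      constructor
      · intro h
        calc (x⁻¹ * k) * a * (x⁻¹ * k)⁻¹ = x⁻¹ * (k * a * k⁻¹) * x := by group
          _ = g := by rw [h]; group
      · intro h
        rw [← h]; group
    rw [Equiv.coe_mulLeft]
    exact if_congr this rfl rfl
  · intro ψ hψ
    simp only [sub_mul, Finset.sum_sub_distrib]
    rw [sum_sum_irr hψ a, sum_cnt_mul]
    simp only [irr_conj hψ]
    rw [Finset.sum_const, Finset.card_univ, nsmul_eq_mul, Nat.card_eq_fintype_card]
    ring

variable (hreal : ∀ g : G, IsConj g g⁻¹)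

include hreal

omit [Fintype G] in
lemma irr_inv {χ : G → ℂ} (hχ : χ ∈ irrChars G) (g : G) : χ g⁻¹ = χ g :=
  (irr_isConj hχ (hreal g)).symm

open Classical in
lemma conv2 {χ ψ : G → ℂ} (hχ : χ ∈ irrChars G) (hψ : ψ ∈ irrChars G) (g h : G) :
    χ 1 * ∑ x : G, χ (g * x) * ψ (h * x)
      = if χ = ψ then (Nat.card G : ℂ) * χ (g * h⁻¹) else 0 := by
  rw [← conv hχ hψ]
  congr 1
  refine Finset.sum_equiv (Equiv.mulLeft h) (by simp) ?_
  intro x _
  rw [Equiv.coe_mulLeft, irr_inv hreal hψ]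
  congr 2
  group

lemma col2 (a g : G) : ∑ χ ∈ Irr G, χ a * χ g = cnt a g := by
  rw [← col]
  refine Finset.sum_congr rfl fun χ hχ => ?_
  rw [irr_inv hreal (mem_Irr.mp hχ)]

lemma parseval (f : G → ℂ) (hf : ∀ k g, f (k * g * k⁻¹) = f g) :
    ∑ ω ∈ Irr G, (∑ g : G, f g * ω g) ^ 2 = (Nat.card G : ℂ) * ∑ g : G, f g ^ 2 := by
  have h1 : ∑ ω ∈ Irr G, (∑ g : G, f g * ω g) ^ 2
      = ∑ g : G, ∑ h : G, f g * (cnt g h * f h) := by
    simp only [pow_two, Finset.sum_mul, Finset.mul_sum]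
    rw [Finset.sum_comm]
    refine Finset.sum_congr rfl fun g _ => ?_
    rw [Finset.sum_comm]
    refine Finset.sum_congr rfl fun h _ => ?_
    rw [← col2 hreal, Finset.sum_mul, Finset.mul_sum]
    refine Finset.sum_congr rfl fun ω _ => ?_
    ring
  rw [h1]
  simp only [← Finset.mul_sum, sum_cnt_mul, hf]
  rw [Finset.mul_sum]
  refine Finset.sum_congr rfl fun g _ => ?_
  rw [Finset.sum_const, Finset.card_univ, nsmul_eq_mul, Nat.card_eq_fintype_card]
  ring

/-- The sum of the squares of the triple products. -/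
lemma sum_triple :
    ∑ χ ∈ Irr G, ∑ ψ ∈ Irr G, ∑ ω ∈ Irr G, (∑ g : G, χ g * ψ g * ω g) ^ 2
      = (Nat.card G : ℂ) * ∑ g : G, cnt g g ^ 2 := by
  have h1 : ∀ χ ∈ Irr G, ∀ ψ ∈ Irr G, ∑ ω ∈ Irr G, (∑ g : G, χ g * ψ g * ω g) ^ 2
      = (Nat.card G : ℂ) * ∑ g : G, (χ g * ψ g) ^ 2 := by
    intro χ hχ ψ hψ
    refine parseval hreal _ ?_
    intro k g
    rw [irr_conj (mem_Irr.mp hχ), irr_conj (mem_Irr.mp hψ)]
  rw [Finset.sum_congr rfl fun χ hχ => Finset.sum_congr rfl fun ψ hψ => h1 χ hχ ψ hψ]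
  simp only [← Finset.mul_sum]
  congr 1
  calc ∑ χ ∈ Irr G, ∑ ψ ∈ Irr G, ∑ g : G, (χ g * ψ g) ^ 2
      = ∑ χ ∈ Irr G, ∑ g : G, ∑ ψ ∈ Irr G, (χ g * ψ g) ^ 2 :=
        Finset.sum_congr rfl fun χ _ => Finset.sum_comm
    _ = ∑ g : G, ∑ χ ∈ Irr G, ∑ ψ ∈ Irr G, (χ g * ψ g) ^ 2 := Finset.sum_comm
    _ = ∑ g : G, cnt g g ^ 2 := by
        refine Finset.sum_congr rfl fun g _ => ?_
        rw [← col2 hreal, pow_two, Finset.sum_mul_sum]
        refine Finset.sum_congr rfl fun χ _ => Finset.sum_congr rfl fun ψ _ => ?_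
        ring

end Pool.Agent.helper4.SR
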