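import Pool.Agent.helper4.SR.CharTwo

/-!
Simply reducible groups: any two elements are inverted simultaneously (conclusion).
-/

open scoped ComplexConjugate

namespace Pool.Agent.helper4.SR

open Pool.Agent.helper4.Amza

variable {G : Type} [Group G] [Fintype G]

lemma irr_one_ne {χ : G → ℂ} (hχ : χ ∈ irrChars G) : χ 1 ≠ 0 := by
  intro h
  have h1 : ∀ g : G, χ g = 0 := by
    intro g
    have := conv hχ hχ g
    rw [h, zero_mul, if_pos rfl] at this
    exact (mul_eq_zero.mp this.symm).resolve_left card_ne_zero'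
  have h2 := irr_orth_self hχ
  simp only [h1, mul_zero, Finset.sum_const_zero] at h2
  exact card_ne_zero' (G := G) h2.symm

theorem inv2_of_chars (hreal : ∀ g : G, IsConj g g⁻¹)
    (hm : ∀ χ ∈ irrChars G, ∀ ψ ∈ irrChars G, ∀ ω ∈ irrChars G,
      ∑ g : G, χ g * ψ g * ω g = 0 ∨ ∑ g : G, χ g * ψ g * ω g = (Nat.card G : ℂ)) :
    Inv2 G := by
  classical
  set c : ℂ := (Nat.card G : ℂ) with hc
  have hc0 : c ≠ 0 := card_ne_zero'
  let mt : (G → ℂ) × (G → ℂ) × (G → ℂ) → ℂ := fun t => ∑ g : G, t.1 g * t.2.1 g * t.2.2 g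
  let I3 : Finset ((G → ℂ) × (G → ℂ) × (G → ℂ)) := Irr G ×ˢ Irr G ×ˢ Irr G
  let T := I3.filter fun t => mt t ≠ 0
  let d : (G → ℂ) × (G → ℂ) × (G → ℂ) → ℂ := fun t => t.1 1 * t.2.1 1 * t.2.2 1
  let P : (G → ℂ) × (G → ℂ) × (G → ℂ) → G × G → ℂ := fun t X => phi t.1 t.2.1 t.2.2 X
  have hI : ∀ t ∈ I3, t.1 ∈ irrChars G ∧ t.2.1 ∈ irrChars G ∧ t.2.2 ∈ irrChars G := by
    intro t ht
    simp only [I3, Finset.mem_product, mem_Irr] at ht
    exact ht
  have hTI : ∀ t ∈ T, t ∈ I3 := fun t ht => (Finset.mem_filter.mp ht).1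
  have hTm : ∀ t ∈ T, mt t = c := by
    intro t ht
    obtain ⟨h1, h2⟩ := Finset.mem_filter.mp ht
    obtain ⟨ha, hb, hd⟩ := hI t h1
    exact (hm _ ha _ hb _ hd).resolve_left h2
  have hd0 : ∀ t ∈ T, d t ≠ 0 := by
    intro t ht
    obtain ⟨ha, hb, hd⟩ := hI t (hTI t ht)
    exact mul_ne_zero (mul_ne_zero (irr_one_ne ha) (irr_one_ne hb)) (irr_one_ne hd)
  have hinner : ∀ t ∈ T, ∀ s ∈ T, ∑ X : G × G, P t X * P s X
      = if t = s then c ^ 4 / d t else 0 := by
    intro t ht s hs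
    obtain ⟨ha, hb, hd⟩ := hI t (hTI t ht)
    obtain ⟨ha', hb', hd'⟩ := hI s (hTI s hs)
    have h1 := phi_inner hreal ha hb hd ha' hb' hd'
    have h2 : (t.1 = s.1 ∧ t.2.1 = s.2.1 ∧ t.2.2 = s.2.2) ↔ t = s := by
      rw [Prod.ext_iff, Prod.ext_iff]
    have h3 : ∑ g : G, t.1 g * t.2.1 g * t.2.2 g = c := hTm t ht
    rw [if_congr h2 rfl rfl, h3] at h1
    have h4 : t.1 1 * t.2.1 1 * t.2.2 1 = d t := rfl
    rw [h4] at h1
    have h5 := hd0 t ht
    by_cases hts : t = s
    · rw [if_pos hts] at h1 ⊢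
      rw [eq_div_iff h5, mul_comm, h1]
      ring
    · rw [if_neg hts] at h1 ⊢
      exact (mul_eq_zero.mp h1).resolve_left h5
  have hT : (T.card : ℂ) * c ^ 2 = c * ∑ u : G, cnt u u ^ 2 := by
    rw [← sum_triple hreal]
    have h1 : ∑ χ ∈ Irr G, ∑ ψ ∈ Irr G, ∑ ω ∈ Irr G, (∑ g : G, χ g * ψ g * ω g) ^ 2
        = ∑ t ∈ I3, mt t ^ 2 := by
      rw [Finset.sum_product]
      refine Finset.sum_congr rfl fun χ _ => ?_
      rw [Finset.sum_product]
    rw [h1, ← Finset.sum_filter_add_sum_filter_not I3 (fun t => mt t ≠ 0)]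
    have h2 : ∑ t ∈ I3 with ¬ mt t ≠ 0, mt t ^ 2 = 0 := by
      refine Finset.sum_eq_zero fun t ht => ?_
      have := (Finset.mem_filter.mp ht).2
      rw [not_not] at this
      rw [this]
      ring
    rw [h2, add_zero, Finset.sum_congr rfl (fun t ht => by rw [hTm t ht]), Finset.sum_const,
      nsmul_eq_mul]
  let E : G × G → G × G → ℂ := fun X A => ∑ t ∈ T, (d t / c ^ 3) * (P t X * P t A)
  have hPconj : ∀ t ∈ T, ∀ (k : G) (X : G × G), P t (k * X.1 * k⁻¹, k * X.2 * k⁻¹) = P t X := by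
    intro t ht k X
    obtain ⟨ha, hb, hd⟩ := hI t (hTI t ht)
    exact phi_conj ha hb hd k X
  have hKE : ∑ X : G × G, ∑ A : G × G, ker2 X A * E X A = c ^ 2 * T.card := by
    have h1 : ∀ X : G × G, ∑ A : G × G, ker2 X A * E X A
        = ∑ t ∈ T, (d t / c ^ 3) * (c * (P t X * P t X)) := by
      intro X
      simp only [E, Finset.mul_sum]
      rw [Finset.sum_comm]
      refine Finset.sum_congr rfl fun t ht => ?_
      have h2 := sum_ker2_mul (fun A => (d t / c ^ 3) * (P t X * P t A)) X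
      simp only [hPconj t ht, Finset.sum_const, Finset.card_univ, nsmul_eq_mul] at h2
      rw [h2, hc, Nat.card_eq_fintype_card]
      ring
    simp only [h1]
    rw [Finset.sum_comm]
    simp only [← Finset.mul_sum]
    rw [Finset.sum_congr rfl (g := fun _ => c ^ 2)]
    · rw [Finset.sum_const, nsmul_eq_mul, mul_comm]
    · intro t ht
      rw [hinner t ht t ht, if_pos rfl]
      have := hd0 t ht
      field_simp
  have hEE : ∑ X : G × G, ∑ A : G × G, E X A ^ 2 = c ^ 2 * T.card := by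
    have h1 : ∑ X : G × G, ∑ A : G × G, E X A ^ 2
        = ∑ t ∈ T, ∑ s ∈ T, ((d t / c ^ 3) * (d s / c ^ 3)) *
          ((∑ X : G × G, P t X * P s X) * (∑ A : G × G, P t A * P s A)) := by
      have h2 : ∀ X A : G × G, E X A ^ 2 = ∑ t ∈ T, ∑ s ∈ T, ((d t / c ^ 3) * (d s / c ^ 3)) *
          ((P t X * P s X) * (P t A * P s A)) := by
        intro X A
        simp only [E, pow_two, Finset.sum_mul_sum]
        refine Finset.sum_congr rfl fun t _ => Finset.sum_congr rfl fun s _ => ?_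
        ring
      simp only [h2]
      rw [sum4_comm]
      refine Finset.sum_congr rfl fun t _ => Finset.sum_congr rfl fun s _ => ?_
      rw [Finset.sum_mul_sum, Finset.mul_sum]
      refine Finset.sum_congr rfl fun X _ => ?_
      rw [Finset.mul_sum]
    rw [h1]
    have h3 : ∀ t ∈ T, ∑ s ∈ T, ((d t / c ^ 3) * (d s / c ^ 3)) *
          ((∑ X : G × G, P t X * P s X) * (∑ A : G × G, P t A * P s A)) = c ^ 2 := by
      intro t ht
      rw [Finset.sum_eq_single t]
      · rw [hinner t ht t ht, if_pos rfl]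
        have := hd0 t ht
        field_simp
      · intro s hs hst
        rw [hinner t ht s hs, if_neg (fun h => hst h.symm)]
        ring
      · intro h; exact absurd ht h
    rw [Finset.sum_congr rfl h3, Finset.sum_const, nsmul_eq_mul, mul_comm]
  have hzero : ∑ X : G × G, ∑ A : G × G, (ker2 X A - E X A) ^ 2 = 0 := by
    have h1 : ∀ X A : G × G, (ker2 X A - E X A) ^ 2
        = ker2 X A ^ 2 - 2 * (ker2 X A * E X A) + E X A ^ 2 := fun X A => by ring
    simp only [h1, Finset.sum_add_distrib, Finset.sum_sub_distrib, ← Finset.mul_sum]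
    rw [hKE, hEE, sum_ker2_sq, ← hc, ← hT]
    ring
  have hker_real : ∀ X A : G × G, conj (ker2 X A) = ker2 X A := by
    intro X A
    unfold ker2
    rw [map_sum]
    refine Finset.sum_congr rfl fun k _ => ?_
    split_ifs <;> simp
  have hd_real : ∀ t ∈ T, conj (d t) = d t := by
    intro t ht
    obtain ⟨ha, hb, hd⟩ := hI t (hTI t ht)
    obtain ⟨n1, h1⟩ := irr_one ha
    obtain ⟨n2, h2⟩ := irr_one hb
    obtain ⟨n3, h3⟩ := irr_one hd
    simp only [d, h1, h2, h3, map_mul, Complex.conj_natCast]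
  have hE_real : ∀ X A : G × G, conj (E X A) = E X A := by
    intro X A
    simp only [E, map_sum]
    refine Finset.sum_congr rfl fun t ht => ?_
    obtain ⟨ha, hb, hd⟩ := hI t (hTI t ht)
    rw [map_mul, map_mul, map_div₀, map_pow, hd_real t ht, hc, Complex.conj_natCast]
    have h1 : ∀ Y, conj (P t Y) = P t Y := phi_real ha hb hd hreal
    rw [h1, h1]
  have hsq : ∀ X A : G × G, (ker2 X A - E X A) ^ 2
      = ((Complex.normSq (ker2 X A - E X A) : ℝ) : ℂ) := by
    intro X A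
    rw [← Complex.mul_conj, map_sub, hker_real, hE_real, pow_two]
  have hzero' : ∑ X : G × G, ∑ A : G × G, Complex.normSq (ker2 X A - E X A) = 0 := by
    have h1 := hzero
    simp only [hsq] at h1
    exact_mod_cast h1
  have heq : ∀ X A : G × G, ker2 X A = E X A := by
    intro X A
    have h1 := (Finset.sum_eq_zero_iff_of_nonneg (fun X _ =>
      Finset.sum_nonneg fun A _ => Complex.normSq_nonneg _)).mp hzero' X (Finset.mem_univ X)
    have h2 := (Finset.sum_eq_zero_iff_of_nonneg (fun A _ => Complex.normSq_nonneg _)).mp h1 A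
      (Finset.mem_univ A)
    exact sub_eq_zero.mp (Complex.normSq_eq_zero.mp h2)
  intro x y
  have h1 : ker2 (x⁻¹, y⁻¹) (x, y) = ker2 (x, y) (x, y) := by
    rw [heq, heq]
    simp only [E]
    refine Finset.sum_congr rfl fun t ht => ?_
    obtain ⟨ha, hb, hd⟩ := hI t (hTI t ht)
    have h2 : P t (x⁻¹, y⁻¹) = P t (x, y) := phi_inv ha hb hd hreal (x, y)
    rw [h2]
  have hform : ∀ X A : G × G, ker2 X A
      = ((Finset.univ.filter fun k : G => (k * X.1 * k⁻¹, k * X.2 * k⁻¹) = A).card : ℂ) := by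
    intro X A
    unfold ker2
    rw [Finset.sum_boole]
  have h2 : (Finset.univ.filter fun k : G =>
      (k * (x, y).1 * k⁻¹, k * (x, y).2 * k⁻¹) = (x, y)).card ≠ 0 := by
    rw [Finset.card_ne_zero]
    exact ⟨1, by simp⟩
  have h3 : (Finset.univ.filter fun k : G =>
      (k * (x⁻¹, y⁻¹).1 * k⁻¹, k * (x⁻¹, y⁻¹).2 * k⁻¹) = (x, y)).card ≠ 0 := by
    rw [hform, hform] at h1
    have h4 : (Finset.univ.filter fun k : G =>
        (k * (x⁻¹, y⁻¹).1 * k⁻¹, k * (x⁻¹, y⁻¹).2 * k⁻¹) = (x, y)).card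
        = (Finset.univ.filter fun k : G =>
        (k * (x, y).1 * k⁻¹, k * (x, y).2 * k⁻¹) = (x, y)).card := by exact_mod_cast h1
    rw [h4]
    exact h2
  obtain ⟨k, hk⟩ := Finset.card_ne_zero.mp h3
  have h4 := (Finset.mem_filter.mp hk).2
  rw [Prod.ext_iff] at h4
  have h5 : ∀ z : G, k * z⁻¹ * k⁻¹ = z → k * z * k⁻¹ = z⁻¹ := by
    intro z hz
    have := congrArg (·⁻¹) hz
    simp only [mul_inv_rev, inv_inv] at this
    rw [← mul_assoc] at this
    exact this
  exact ⟨k, h5 x h4.1, h5 y h4.2⟩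

end Pool.Agent.helper4.SR
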