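import Pool.Agent.helper4.SR.Char

/-!
Simply reducible groups: any two elements are inverted simultaneously (kernel argument).
-/

open scoped ComplexConjugate

namespace Pool.Agent.helper4.SR

open Pool.Agent.helper4.Amza

variable {G : Type} [Group G] [Fintype G]

/-- Functions on pairs of elements attached to triples of characters. -/
noncomputable def phi (χ ψ ω : G → ℂ) (X : G × G) : ℂ :=
  ∑ g : G, χ (g * X.1) * ψ (g * X.2) * ω g

lemma phi_conj {χ ψ ω : G → ℂ} (hχ : χ ∈ irrChars G) (hψ : ψ ∈ irrChars G)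
    (hω : ω ∈ irrChars G) (k : G) (X : G × G) :
    phi χ ψ ω (k * X.1 * k⁻¹, k * X.2 * k⁻¹) = phi χ ψ ω X := by
  unfold phi
  refine Finset.sum_equiv (MulAut.conj k⁻¹).toEquiv (by simp) ?_
  intro g _
  have e1 : χ (g * (k * X.1 * k⁻¹)) = χ ((k⁻¹ * g * k) * X.1) := by
    rw [← irr_conj hχ ((k⁻¹ * g * k) * X.1) k]
    congr 1
    group
  have e2 : ψ (g * (k * X.2 * k⁻¹)) = ψ ((k⁻¹ * g * k) * X.2) := by
    rw [← irr_conj hψ ((k⁻¹ * g * k) * X.2) k]
    congr 1
    group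
  have e3 : ω g = ω (k⁻¹ * g * k) := by
    rw [← irr_conj hω g k⁻¹, inv_inv]
  simp only [MulEquiv.toEquiv_eq_coe, EquivLike.coe_coe, MulAut.conj_apply, inv_inv]
  rw [e1, e2, e3]

lemma phi_real {χ ψ ω : G → ℂ} (hχ : χ ∈ irrChars G) (hψ : ψ ∈ irrChars G)
    (hω : ω ∈ irrChars G) (hreal : ∀ g : G, IsConj g g⁻¹) (X : G × G) :
    conj (phi χ ψ ω X) = phi χ ψ ω X := by
  unfold phi
  rw [map_sum]
  refine Finset.sum_congr rfl fun g _ => ?_
  rw [map_mul, map_mul, irr_conj_eq_inv hχ, irr_conj_eq_inv hψ, irr_conj_eq_inv hω,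
    irr_inv hreal hχ, irr_inv hreal hψ, irr_inv hreal hω]

lemma phi_inv {χ ψ ω : G → ℂ} (hχ : χ ∈ irrChars G) (hψ : ψ ∈ irrChars G)
    (hω : ω ∈ irrChars G) (hreal : ∀ g : G, IsConj g g⁻¹) (X : G × G) :
    phi χ ψ ω (X.1⁻¹, X.2⁻¹) = phi χ ψ ω X := by
  unfold phi
  refine Finset.sum_equiv (Equiv.inv G) (by simp) ?_
  intro g _
  have e1 : χ (g * X.1⁻¹) = χ (g⁻¹ * X.1) := by
    rw [← irr_inv hreal hχ, ← irr_conj hχ (g⁻¹ * X.1) X.1]
    congr 1
    group
  have e2 : ψ (g * X.2⁻¹) = ψ (g⁻¹ * X.2) := by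
    rw [← irr_inv hreal hψ, ← irr_conj hψ (g⁻¹ * X.2) X.2]
    congr 1
    group
  rw [Equiv.inv_apply, e1, e2, irr_inv hreal hω]

open Classical in
lemma phi_inner (hreal : ∀ g : G, IsConj g g⁻¹) {χ ψ ω χ' ψ' ω' : G → ℂ} (hχ : χ ∈ irrChars G)
    (hψ : ψ ∈ irrChars G) (hω : ω ∈ irrChars G) (hχ' : χ' ∈ irrChars G) (hψ' : ψ' ∈ irrChars G)
    (hω' : ω' ∈ irrChars G) :
    (χ 1 * ψ 1 * ω 1) * ∑ X : G × G, phi χ ψ ω X * phi χ' ψ' ω' X
      = if χ = χ' ∧ ψ = ψ' ∧ ω = ω' then (Nat.card G : ℂ) ^ 3 * ∑ g : G, χ g * ψ g * ω g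
        else 0 := by
  have h1 : ∑ X : G × G, phi χ ψ ω X * phi χ' ψ' ω' X
      = ∑ g : G, ∑ h : G, (ω g * ω' h) *
        ((∑ x : G, χ (g * x) * χ' (h * x)) * (∑ y : G, ψ (g * y) * ψ' (h * y))) := by
    unfold phi
    simp only [Finset.sum_mul_sum]
    rw [Finset.sum_comm]
    refine Finset.sum_congr rfl fun g _ => ?_
    rw [Finset.sum_comm]
    refine Finset.sum_congr rfl fun h _ => ?_
    rw [← Finset.univ_product_univ, Finset.sum_product, Finset.mul_sum]
    refine Finset.sum_congr rfl fun x _ => ?_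
    rw [Finset.mul_sum]
    refine Finset.sum_congr rfl fun y _ => ?_
    ring
  have h2 : (χ 1 * ψ 1) * ∑ X : G × G, phi χ ψ ω X * phi χ' ψ' ω' X
      = ∑ g : G, ∑ h : G, (ω g * ω' h) *
        ((if χ = χ' then (Nat.card G : ℂ) * χ (g * h⁻¹) else 0) *
          (if ψ = ψ' then (Nat.card G : ℂ) * ψ (g * h⁻¹) else 0)) := by
    rw [h1, Finset.mul_sum]
    refine Finset.sum_congr rfl fun g _ => ?_
    rw [Finset.mul_sum]
    refine Finset.sum_congr rfl fun h _ => ?_
    rw [← conv2 hreal hχ hχ' g h, ← conv2 hreal hψ hψ' g h]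
    ring
  by_cases hc : χ = χ'
  · by_cases hd : ψ = ψ'
    · simp only [if_pos hc, if_pos hd] at h2
      have h3 : ∑ g : G, ∑ h : G, (ω g * ω' h) *
          (((Nat.card G : ℂ) * χ (g * h⁻¹)) * ((Nat.card G : ℂ) * ψ (g * h⁻¹)))
          = (Nat.card G : ℂ) ^ 2 * ∑ u : G, χ u * ψ u * ∑ h : G, ω (u * h) * ω' (1 * h) := by
        rw [Finset.sum_comm]
        have : ∀ h : G, ∑ g : G, (ω g * ω' h) *
          (((Nat.card G : ℂ) * χ (g * h⁻¹)) * ((Nat.card G : ℂ) * ψ (g * h⁻¹)))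
          = ∑ u : G, (ω (u * h) * ω' h) * (((Nat.card G : ℂ) * χ u) *
            ((Nat.card G : ℂ) * ψ u)) := by
          intro h
          refine Finset.sum_equiv (Equiv.mulRight h⁻¹) (by simp) ?_
          intro g _
          simp
        simp only [this]
        rw [Finset.sum_comm, Finset.mul_sum]
        refine Finset.sum_congr rfl fun u _ => ?_
        rw [Finset.mul_sum, Finset.mul_sum]
        refine Finset.sum_congr rfl fun h _ => ?_
        rw [one_mul]
        ring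
      rw [h3] at h2
      have h4 : (χ 1 * ψ 1 * ω 1) * ∑ X : G × G, phi χ ψ ω X * phi χ' ψ' ω' X
          = (Nat.card G : ℂ) ^ 2 * ∑ u : G, χ u * ψ u *
            (ω 1 * ∑ h : G, ω (u * h) * ω' (1 * h)) := by
        calc (χ 1 * ψ 1 * ω 1) * ∑ X : G × G, phi χ ψ ω X * phi χ' ψ' ω' X
            = ω 1 * ((χ 1 * ψ 1) * ∑ X : G × G, phi χ ψ ω X * phi χ' ψ' ω' X) := by ring
          _ = _ := by
            rw [h2, Finset.mul_sum, Finset.mul_sum, Finset.mul_sum]
            refine Finset.sum_congr rfl fun u _ => ?_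
            ring
      rw [h4]
      simp only [conv2 hreal hω hω' _ 1, inv_one, mul_one]
      by_cases he : ω = ω'
      · simp only [if_pos he, if_pos (⟨hc, hd, he⟩ : χ = χ' ∧ ψ = ψ' ∧ ω = ω')]
        rw [Finset.mul_sum, Finset.mul_sum]
        refine Finset.sum_congr rfl fun u _ => ?_
        ring
      · rw [if_neg (fun h : χ = χ' ∧ ψ = ψ' ∧ ω = ω' => he h.2.2)]
        simp [if_neg he]
    · rw [if_neg (fun h : χ = χ' ∧ ψ = ψ' ∧ ω = ω' => hd h.2.1)]
      simp only [if_neg hd, mul_zero, Finset.sum_const_zero] at h2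
      rw [mul_right_comm, h2, zero_mul]
  · rw [if_neg (fun h : χ = χ' ∧ ψ = ψ' ∧ ω = ω' => hc h.1)]
    simp only [if_neg hc, zero_mul, mul_zero, Finset.sum_const_zero] at h2
    rw [mul_right_comm, h2, zero_mul]

/-- The kernel counting the elements moving a pair to another pair. -/
noncomputable def ker2 (X A : G × G) : ℂ := by
  classical exact ∑ k : G, if (k * X.1 * k⁻¹, k * X.2 * k⁻¹) = A then 1 else 0

open Classical in
lemma sum_ker2_mul (f : G × G → ℂ) (X : G × G) :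
    ∑ A : G × G, ker2 X A * f A = ∑ k : G, f (k * X.1 * k⁻¹, k * X.2 * k⁻¹) := by
  simp only [ker2, Finset.sum_mul]
  rw [Finset.sum_comm]
  refine Finset.sum_congr rfl fun k _ => ?_
  rw [Finset.sum_eq_single (k * X.1 * k⁻¹, k * X.2 * k⁻¹)]
  · simp
  · intro b _ hb
    rw [if_neg (fun h => hb h.symm), zero_mul]
  · intro h; exact absurd (Finset.mem_univ _) h

lemma sum_ker2_sq : ∑ X : G × G, ∑ A : G × G, ker2 X A ^ 2
    = (Nat.card G : ℂ) * ∑ u : G, cnt u u ^ 2 := by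
  classical
  have h1 : ∀ X : G × G, ∑ A : G × G, ker2 X A ^ 2
      = (Nat.card G : ℂ) * ∑ u : G, if (u * X.1 * u⁻¹, u * X.2 * u⁻¹) = X then 1 else 0 := by
    intro X
    simp only [pow_two]
    rw [sum_ker2_mul (fun A => ker2 X A) X]
    have : ∀ k : G, ker2 X (k * X.1 * k⁻¹, k * X.2 * k⁻¹)
        = ∑ u : G, if (u * X.1 * u⁻¹, u * X.2 * u⁻¹) = X then (1 : ℂ) else 0 := by
      intro k
      unfold ker2
      refine Finset.sum_equiv (Equiv.mulLeft k⁻¹) (by simp) ?_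
      intro g _
      rw [Equiv.coe_mulLeft]
      refine if_congr ?_ rfl rfl
      rw [Prod.ext_iff, Prod.ext_iff]
      have h2 : ∀ x : G, g * x * g⁻¹ = k * x * k⁻¹ ↔ (k⁻¹ * g) * x * (k⁻¹ * g)⁻¹ = x := by
        intro x
        constructor
        · intro h
          calc (k⁻¹ * g) * x * (k⁻¹ * g)⁻¹ = k⁻¹ * (g * x * g⁻¹) * k := by group
            _ = x := by rw [h]; group
        · intro h
          calc g * x * g⁻¹ = k * ((k⁻¹ * g) * x * (k⁻¹ * g)⁻¹) * k⁻¹ := by group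
            _ = _ := by rw [h]
      exact and_congr (h2 X.1) (h2 X.2)
    simp only [this]
    rw [Finset.sum_const, Finset.card_univ, nsmul_eq_mul, Nat.card_eq_fintype_card]
  simp only [h1]
  rw [← Finset.mul_sum, Finset.sum_comm]
  congr 1
  refine Finset.sum_congr rfl fun u _ => ?_
  have h3 : cnt u u = ∑ x : G, if u * x * u⁻¹ = x then (1 : ℂ) else 0 := by
    unfold cnt
    refine Finset.sum_congr rfl fun x _ => if_congr ?_ rfl rfl
    constructor
    · intro h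
      rw [mul_inv_eq_iff_eq_mul] at h
      rw [← h, mul_inv_cancel_right]
    · intro h
      rw [mul_inv_eq_iff_eq_mul] at h
      rw [← h, mul_inv_cancel_right]
  rw [h3, pow_two, Finset.sum_mul_sum, ← Finset.univ_product_univ, Finset.sum_product]
  refine Finset.sum_congr rfl fun x _ => Finset.sum_congr rfl fun y _ => ?_
  simp only [Prod.ext_iff]
  by_cases hx : u * x * u⁻¹ = x <;> by_cases hy : u * y * u⁻¹ = y <;> simp [hx, hy]

end Pool.Agent.helper4.SR
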