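import Mathlib
import Pool.Agent.helper4.SR.Alpha

/-!
The key lemma: elements of prime power order normalising an `r`-group of operators.
-/

open scoped Pointwise commutatorElement

namespace Pool.Agent.helper4.SR

variable {H V : Type*} [Group H] [Finite H] [AddCommGroup V] [Finite V] [DistribMulAction H V]

omit [Finite H] in
/-- If `c` commutes with `y` and `y z y⁻¹ = c⁻¹ z`, then some power of `c` prime to `r` is
trivial. -/
lemma pow_eq_one_of {y z c : H} (hyc : y * c = c * y) (h : y * z * y⁻¹ = c⁻¹ * z) (n : ℕ)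
    (hn : y ^ n = 1) : c ^ n = 1 := by
  have h1 : ∀ k : ℕ, y ^ k * z * (y ^ k)⁻¹ = (c⁻¹) ^ k * z := by
    intro k
    induction k with
    | zero => simp
    | succ k ih =>
      have e1 : y * (c⁻¹) ^ k * y⁻¹ = (c⁻¹) ^ k := by
        have : Commute y ((c⁻¹) ^ k) := (Commute.inv_right hyc).pow_right k
        rw [this.eq, mul_inv_cancel_right]
      calc y ^ (k + 1) * z * (y ^ (k + 1))⁻¹ = y * (y ^ k * z * (y ^ k)⁻¹) * y⁻¹ := by
            rw [pow_succ']; group
        _ = y * ((c⁻¹) ^ k * z) * y⁻¹ := by rw [ih]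
        _ = (y * (c⁻¹) ^ k * y⁻¹) * (y * z * y⁻¹) := by group
        _ = (c⁻¹) ^ k * (c⁻¹ * z) := by rw [e1, h]
        _ = (c⁻¹) ^ (k + 1) * z := by rw [pow_succ]; group
  have h2 := h1 n
  rw [hn] at h2
  have h3 : (c⁻¹) ^ n = 1 := by
    have h4 : (c⁻¹) ^ n * z = 1 * z := by rw [← h2]; group
    exact mul_right_cancel h4
  rw [inv_pow, inv_eq_one] at h3
  exact h3

omit [Finite H] in
lemma eq_one_of_coprime_pow {r s : ℕ} (hr : r.Prime) (hs : s.Prime) (hrs : s ≠ r) {c : H}
    {m k : ℕ} (h1 : c ^ (r ^ m) = 1) (h2 : c ^ (s ^ k) = 1) : c = 1 := by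
  have hc : Nat.Coprime (r ^ m) (s ^ k) :=
    Nat.Coprime.pow _ _ ((Nat.coprime_primes hr hs).mpr (Ne.symm hrs))
  have h3 : orderOf c ∣ 1 := by
    rw [← hc.gcd_eq_one]
    exact Nat.dvd_gcd (orderOf_dvd_of_pow_eq_one h1) (orderOf_dvd_of_pow_eq_one h2)
  exact orderOf_eq_one_iff.mp (Nat.dvd_one.mp h3)

/-- Structure of a minimal `x`-invariant subgroup not centralised by `x ^ 2`. -/
structure MinPair (r s : ℕ) (x : H) (R : Subgroup H) : Prop where
  pgroup : ∀ z ∈ R, ∃ m, z ^ (r ^ m) = 1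
  order : ∃ k, x ^ (s ^ k) = 1
  inv : ∀ z ∈ R, x * z * x⁻¹ ∈ R
  notcent : ¬ ∀ z ∈ R, x ^ 2 * z = z * x ^ 2
  minimal : ∀ K : Subgroup H, K ≤ R → (∀ z ∈ K, x * z * x⁻¹ ∈ K) → K ≠ R →
    ∀ z ∈ K, x ^ 2 * z = z * x ^ 2

lemma exists_minPair {r s : ℕ} {x : H} {R : Subgroup H} (h1 : ∀ z ∈ R, ∃ m, z ^ (r ^ m) = 1)
    (h2 : ∃ k, x ^ (s ^ k) = 1) (h3 : ∀ z ∈ R, x * z * x⁻¹ ∈ R)
    (h4 : ¬ ∀ z ∈ R, x ^ 2 * z = z * x ^ 2) : ∃ R1 ≤ R, MinPair r s x R1 := by
  obtain ⟨R1, ⟨hR1, hinv, hnc⟩, hmin⟩ := (Set.toFinite {K : Subgroup H | K ≤ R ∧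
    (∀ z ∈ K, x * z * x⁻¹ ∈ K) ∧ ¬ ∀ z ∈ K, x ^ 2 * z = z * x ^ 2}).exists_minimal
    ⟨R, le_rfl, h3, h4⟩
  refine ⟨R1, hR1, ⟨fun z hz => h1 z (hR1 hz), h2, hinv, hnc, ?_⟩⟩
  intro K hK hKinv hne
  by_contra hcon
  exact hne (le_antisymm hK (hmin ⟨hK.trans hR1, hKinv, hcon⟩ hK))

section

variable {r s : ℕ} {x : H} {R : Subgroup H}

omit [Finite H] in
lemma MinPair.gen (h : MinPair r s x R) {u : H} (hu : u ∈ R) (hyu : x ^ 2 * u ≠ u * x ^ 2)
    (K : Subgroup H) (huK : u ∈ K) (hK : ∀ k ∈ K, x * k * x⁻¹ ∈ K) : R ≤ K := by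
  by_contra hcon
  have h1 := h.minimal (R ⊓ K) inf_le_left
    (fun z hz => ⟨h.inv z hz.1, hK z hz.2⟩) (fun h2 => hcon (inf_eq_left.mp h2)) u ⟨hu, huK⟩
  exact hyu h1

omit [Finite H] in
lemma MinPair.comm2 (h : MinPair r s x R) (hr : r.Prime) (hs : s.Prime) (hrs : s ≠ r)
    (K : Subgroup H) (hK : ∀ z ∈ R, z * (x * (x * z * x⁻¹) * x⁻¹)⁻¹ ∈ K) : R ≤ K := by
  have hyz : ∀ z, x * (x * z * x⁻¹) * x⁻¹ = x ^ 2 * z * (x ^ 2)⁻¹ := fun z => by
    rw [pow_two]; group
  set K0 : Subgroup H := Subgroup.closure {c | ∃ z ∈ R, c = z * (x * (x * z * x⁻¹) * x⁻¹)⁻¹} with hK0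
  have hK0R : K0 ≤ R := by
    rw [hK0, Subgroup.closure_le]
    rintro _ ⟨z, hz, rfl⟩
    exact mul_mem hz (inv_mem (h.inv _ (h.inv z hz)))
  have hK0x : ∀ k ∈ K0, x * k * x⁻¹ ∈ K0 := by
    intro k hk
    have : K0 ≤ K0.comap (MulAut.conj x : H ≃* H).toMonoidHom := by
      rw [hK0, Subgroup.closure_le, ← hK0]
      rintro _ ⟨z, hz, rfl⟩
      change x * (z * (x * (x * z * x⁻¹) * x⁻¹)⁻¹) * x⁻¹ ∈ K0
      apply Subgroup.subset_closure
      refine ⟨x * z * x⁻¹, h.inv z hz, ?_⟩
      group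
    exact this hk
  have hle : K0 ≤ K := by
    rw [hK0, Subgroup.closure_le]
    rintro _ ⟨z, hz, rfl⟩
    exact hK z hz
  by_cases hne : K0 = R
  · rw [← hne]; exact hle
  · exfalso
    have hcent := h.minimal K0 hK0R hK0x hne
    apply h.notcent
    intro z hz
    set c := z * (x * (x * z * x⁻¹) * x⁻¹)⁻¹ with hc
    have hcK : c ∈ K0 := Subgroup.subset_closure ⟨z, hz, rfl⟩
    have h1 : x ^ 2 * c = c * x ^ 2 := hcent c hcK
    have h2 : x ^ 2 * z * (x ^ 2)⁻¹ = c⁻¹ * z := by
      rw [hc, hyz]; group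
    obtain ⟨k, hk⟩ := h.order
    have h3 : (x ^ 2) ^ (s ^ k) = 1 := by rw [← pow_mul, mul_comm, pow_mul, hk, one_pow]
    have h4 := pow_eq_one_of h1 h2 _ h3
    obtain ⟨m, hm⟩ := h.pgroup c (hK0R hcK)
    have h5 := eq_one_of_coprime_pow hr hs hrs hm h4
    rw [h5, inv_one, one_mul, mul_inv_eq_iff_eq_mul] at h2
    exact h2

omit [Finite H] in
lemma MinPair.comm1 (h : MinPair r s x R) (hr : r.Prime) (hs : s.Prime) (hrs : s ≠ r)
    (K : Subgroup H) (hK : ∀ z ∈ R, z * (x * z * x⁻¹)⁻¹ ∈ K) : R ≤ K := by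
  apply h.comm2 hr hs hrs
  intro z hz
  have h1 : z * (x * (x * z * x⁻¹) * x⁻¹)⁻¹
      = (z * (x * z * x⁻¹)⁻¹) * ((x * z * x⁻¹) * (x * (x * z * x⁻¹) * x⁻¹)⁻¹) := by group
  rw [h1]
  exact mul_mem (hK z hz) (hK _ (h.inv z hz))

omit [Finite H] in
/-- In the abelian case the centraliser of `x ^ 2` is trivial. -/
lemma MinPair.fixed (h : MinPair r s x R) (hr : r.Prime) (hs : s.Prime) (hrs : s ≠ r)
    (hab : ∀ a ∈ R, ∀ b ∈ R, a * b = b * a) {u : H} (hu : u ∈ R)
    (hyu : x ^ 2 * u = u * x ^ 2) : u = 1 := by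
  have hyz : ∀ z, x * (x * z * x⁻¹) * x⁻¹ = x ^ 2 * z * (x ^ 2)⁻¹ := fun z => by
    rw [pow_two]; group
  have hyR : ∀ z ∈ R, x ^ 2 * z * (x ^ 2)⁻¹ ∈ R := fun z hz => by
    rw [← hyz]; exact h.inv _ (h.inv z hz)
  -- the set of commutators is a subgroup
  let K : Subgroup H :=
    { carrier := {c | ∃ z ∈ R, c = z * (x ^ 2 * z * (x ^ 2)⁻¹)⁻¹}
      mul_mem' := by
        rintro _ _ ⟨a, ha, rfl⟩ ⟨b, hb, rfl⟩
        refine ⟨a * b, mul_mem ha hb, ?_⟩
        have e1 := hab _ (mul_mem hb (inv_mem (hyR b hb))) _ (inv_mem (hyR a ha))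
        calc a * (x ^ 2 * a * (x ^ 2)⁻¹)⁻¹ * (b * (x ^ 2 * b * (x ^ 2)⁻¹)⁻¹)
            = a * ((x ^ 2 * a * (x ^ 2)⁻¹)⁻¹ * (b * (x ^ 2 * b * (x ^ 2)⁻¹)⁻¹)) := by group
          _ = a * (b * (x ^ 2 * b * (x ^ 2)⁻¹)⁻¹ * (x ^ 2 * a * (x ^ 2)⁻¹)⁻¹) := by rw [e1]
          _ = _ := by group
      one_mem' := ⟨1, one_mem _, by group⟩
      inv_mem' := by
        rintro _ ⟨a, ha, rfl⟩
        refine ⟨a⁻¹, inv_mem ha, ?_⟩
        have e1 := hab _ (hyR a ha) _ (inv_mem ha)
        calc (a * (x ^ 2 * a * (x ^ 2)⁻¹)⁻¹)⁻¹ = (x ^ 2 * a * (x ^ 2)⁻¹) * a⁻¹ := by group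
          _ = a⁻¹ * (x ^ 2 * a * (x ^ 2)⁻¹) := e1
          _ = _ := by group }
  have hRK : R ≤ K := h.comm2 hr hs hrs K fun z hz => ⟨z, hz, by rw [hyz]⟩
  obtain ⟨z, hz, hzu⟩ := hRK hu
  have h2 : x ^ 2 * z * (x ^ 2)⁻¹ = u⁻¹ * z := by rw [hzu]; group
  obtain ⟨k, hk⟩ := h.order
  have h3 : (x ^ 2) ^ (s ^ k) = 1 := by rw [← pow_mul, mul_comm, pow_mul, hk, one_pow]
  have h4 := pow_eq_one_of hyu h2 _ h3
  obtain ⟨m, hm⟩ := h.pgroup u hu
  exact eq_one_of_coprime_pow hr hs hrs hm h4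

/-- The commutator subgroup is centralised by `x ^ 2`, and everything in `R` centralised by
`x ^ 2` is central in `R`. -/
lemma MinPair.central (h : MinPair r s x R) (hr : r.Prime) (hs : s.Prime) (hrs : s ≠ r) :
    (∀ c ∈ ⁅R, R⁆, x ^ 2 * c = c * x ^ 2) ∧
    (∀ b ∈ R, x ^ 2 * b = b * x ^ 2 → ∀ z ∈ R, z * b = b * z) := by
  have hRp : IsPGroup r R := by
    intro z
    obtain ⟨m, hm⟩ := h.pgroup z z.2
    exact ⟨m, Subtype.ext (by simpa using hm)⟩
  have hnt : Nontrivial R := by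
    by_contra hcon
    rw [not_nontrivial_iff_subsingleton] at hcon
    apply h.notcent
    intro z hz
    have : (⟨z, hz⟩ : R) = 1 := Subsingleton.elim _ _
    have hz1 : z = 1 := congrArg Subtype.val this
    rw [hz1, mul_one, one_mul]
  have : Fact r.Prime := ⟨hr⟩
  have hnil : Group.IsNilpotent R := hRp.isNilpotent
  have hlt : ⁅R, R⁆ ≠ R := by
    have h1 : commutator R < ⊤ := Group.IsSolvable.commutator_lt_top_of_nontrivial R
    intro h2
    apply h1.ne
    have h3 := Subgroup.map_subtype_commutator R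
    rw [h2] at h3
    rw [eq_top_iff]
    intro z _
    have : (z : H) ∈ (commutator R).map R.subtype := by rw [h3]; exact z.2
    obtain ⟨w, hw, hwz⟩ := this
    have : w = z := Subtype.ext hwz
    rwa [← this]
  have hRinv : ∀ z ∈ R, x⁻¹ * z * x ∈ R := by
    intro z hz
    have hbij : Function.Bijective (fun z : R => (⟨x * z * x⁻¹, h.inv z z.2⟩ : R)) := by
      apply Finite.injective_iff_bijective.mp
      intro z z' hzz
      have : x * (z : H) * x⁻¹ = x * (z' : H) * x⁻¹ := congrArg Subtype.val hzz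
      apply Subtype.ext
      simpa using this
    obtain ⟨y, hy⟩ := hbij.2 ⟨z, hz⟩
    have h1 : x * (y : H) * x⁻¹ = z := congrArg Subtype.val hy
    have h2 : x⁻¹ * z * x = y := by rw [← h1]; group
    rw [h2]; exact y.2
  have hc1 : ∀ c ∈ ⁅R, R⁆, x ^ 2 * c = c * x ^ 2 := by
    refine h.minimal ⁅R, R⁆ (Subgroup.commutator_le_self R) ?_ hlt
    intro z hz
    have h1 : ⁅R, R⁆ ≤ ⁅R, R⁆.comap (MulAut.conj x : H ≃* H).toMonoidHom := by
      rw [Subgroup.commutator_le]
      intro g1 hg1 g2 hg2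
      change x * ⁅g1, g2⁆ * x⁻¹ ∈ ⁅R, R⁆
      rw [conjugate_commutatorElement]
      exact Subgroup.commutator_mem_commutator (h.inv _ hg1) (h.inv _ hg2)
    exact h1 hz
  refine ⟨hc1, ?_⟩
  -- three subgroups
  let B : Subgroup H := R ⊓ Subgroup.centralizer {x ^ 2}
  have hB : ∀ b, b ∈ B ↔ b ∈ R ∧ x ^ 2 * b = b * x ^ 2 := by
    intro b
    rw [Subgroup.mem_inf, Subgroup.mem_centralizer_singleton_iff]
    exact and_congr_right fun _ => eq_comm
  have e1 : ⁅⁅Subgroup.zpowers (x ^ 2), B⁆, R⁆ = ⊥ := by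
    have : ⁅Subgroup.zpowers (x ^ 2), B⁆ = ⊥ := by
      rw [Subgroup.commutator_eq_bot_iff_le_centralizer, Subgroup.zpowers_le,
        Subgroup.mem_centralizer_iff]
      intro b hb
      exact (((hB b).mp hb).2).symm
    rw [this, Subgroup.commutator_bot_left]
  have e2 : ⁅⁅B, R⁆, Subgroup.zpowers (x ^ 2)⁆ = ⊥ := by
    rw [Subgroup.commutator_eq_bot_iff_le_centralizer]
    intro c hc
    have hc' : c ∈ ⁅R, R⁆ := Subgroup.commutator_mono inf_le_left le_rfl hc
    rw [Subgroup.mem_centralizer_iff]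
    intro y hy
    obtain ⟨k, rfl⟩ := Subgroup.mem_zpowers_iff.mp hy
    exact (Commute.zpow_left (hc1 c hc') k).eq
  have e3 := Subgroup.commutator_commutator_eq_bot_of_rotate e1 e2
  rw [Subgroup.commutator_eq_bot_iff_le_centralizer] at e3
  have e4 : R ≤ ⁅R, Subgroup.zpowers (x ^ 2)⁆ := by
    apply h.comm2 hr hs hrs
    intro z hz
    have h1 : z * (x * (x * z * x⁻¹) * x⁻¹)⁻¹ = ⁅z, x ^ 2⁆ := by
      have h2 : x * (x * z * x⁻¹) * x⁻¹ = x ^ 2 * z * (x ^ 2)⁻¹ := by rw [pow_two]; group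
      rw [commutatorElement_def, h2]; group
    rw [h1]
    exact Subgroup.commutator_mem_commutator hz (Subgroup.mem_zpowers _)
  intro b hb hyb z hz
  have h1 := e3 (e4 hz)
  rw [Subgroup.mem_centralizer_iff] at h1
  exact (h1 b ((hB b).mpr ⟨hb, hyb⟩)).symm

omit [Finite H] in
/-- Commutator identity for central commutators. -/
lemma inv_comm_formula {u w c : H} (hc : u * w = c * (w * u)) (hcu : c * u = u * c)
    (hcw : c * w = w * c) : u⁻¹ * w⁻¹ * u * w = c := by
  have h1 : u⁻¹ * w⁻¹ * u * w = (w * u)⁻¹ * (u * w) := by group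
  have h2 : c * (w * u) = (w * u) * c := by
    rw [← mul_assoc, hcw, mul_assoc, hcu, mul_assoc]
  rw [h1, hc, h2, inv_mul_cancel_left]

/-- The key lemma. -/
theorem key_pair (hstar : Star H V) (hfaith : ∀ h : H, (∀ v : V, h • v = v) → h = 1)
    (hr : r.Prime) (hr3 : 3 ≤ r) (hs : s.Prime) (hrs : s ≠ r)
    (hcop : Nat.Coprime r (Nat.card V)) (h : MinPair r s x R)
    (hcase : Odd s ∨ ∀ z ∈ R, x ^ 4 * z = z * x ^ 4) : False := by
  have : Fact r.Prime := ⟨hr⟩
  have hRp : IsPGroup r R := by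
    intro z
    obtain ⟨m, hm⟩ := h.pgroup z z.2
    exact ⟨m, Subtype.ext (by simpa using hm)⟩
  obtain ⟨u, hu, hyu⟩ : ∃ u ∈ R, x ^ 2 * u ≠ u * x ^ 2 := by
    by_contra hcon
    push Not at hcon
    exact h.notcent hcon
  by_cases hab : ∀ a ∈ R, ∀ b ∈ R, a * b = b * a
  · -- abelian case
    refine alpha hstar hr3 x R hab hRp ?_ h.inv ?_ (h.comm1 hr hs hrs) (h.comm2 hr hs hrs) ?_
    · obtain ⟨n, hn⟩ := IsPGroup.iff_card.mp hRp
      rw [hn]
      exact Nat.Coprime.pow_left _ hcop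
    · intro v hv hv1 K hK1 hK2
      exact h.gen hv (fun h1 => hv1 (h.fixed hr hs hrs hab hv h1)) K hK1 hK2
    · by_contra hcon
      push Not at hcon
      have h1 : u = 1 := hfaith u fun v => hcon u hu v
      exact hyu (by rw [h1, mul_one, one_mul])
  · -- nonabelian case
    obtain ⟨hcc, hcb⟩ := h.central hr hs hrs
    -- it is enough to find a suitable commutator
    have hodd : ∀ z ∈ R, Odd (orderOf z) := by
      intro z hz
      obtain ⟨m, hm⟩ := h.pgroup z hz
      have h1 : orderOf z ∣ r ^ m := orderOf_dvd_of_pow_eq_one hm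
      have h2 : Odd (r ^ m) := (hr.odd_of_ne_two (by omega)).pow
      exact h2.of_dvd_nat h1
    have hcopz : ∀ z ∈ R, Nat.Coprime (orderOf z) (Nat.card V) := by
      intro z hz
      obtain ⟨m, hm⟩ := h.pgroup z hz
      exact Nat.Coprime.coprime_dvd_left (orderOf_dvd_of_pow_eq_one hm)
        (Nat.Coprime.pow_left _ hcop)
    have hgood : ∀ (v : H) (j : ℕ), v ∈ R → (v * (x ^ j * v * (x⁻¹) ^ j) ≠ (x ^ j * v * (x⁻¹) ^ j) * v) →
        (⁅v, x ^ j * v * (x⁻¹) ^ j⁆ * x = x * ⁅v, x ^ j * v * (x⁻¹) ^ j⁆) → False := by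
      intro v j hv hne hzx
      have hxpow : ∀ n : ℕ, ∀ z ∈ R, x ^ n * z * (x⁻¹) ^ n ∈ R := by
        intro n
        induction n with
        | zero => intro z hz; simpa using hz
        | succ n ih =>
          intro z hz
          have h1 : x ^ (n + 1) * z * (x⁻¹) ^ (n + 1) = x * (x ^ n * z * (x⁻¹) ^ n) * x⁻¹ := by
            rw [pow_succ', pow_succ]; group
          rw [h1]
          exact h.inv _ (ih z hz)
      have hxinv : ∀ z ∈ R, x⁻¹ * z * x ∈ R := by
        intro z hz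
        have hbij : Function.Bijective (fun z : R => (⟨x * z * x⁻¹, h.inv z z.2⟩ : R)) := by
          apply Finite.injective_iff_bijective.mp
          intro z z' hzz
          have : x * (z : H) * x⁻¹ = x * (z' : H) * x⁻¹ := congrArg Subtype.val hzz
          apply Subtype.ext
          simpa using this
        obtain ⟨y, hy⟩ := hbij.2 ⟨z, hz⟩
        have h1 : x * (y : H) * x⁻¹ = z := congrArg Subtype.val hy
        have h2 : x⁻¹ * z * x = y := by rw [← h1]; group
        rw [h2]; exact y.2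
      have hxpow' : ∀ n : ℕ, ∀ z ∈ R, (x⁻¹) ^ n * z * x ^ n ∈ R := by
        intro n
        induction n with
        | zero => intro z hz; simpa using hz
        | succ n ih =>
          intro z hz
          have h1 : (x⁻¹) ^ (n + 1) * z * x ^ (n + 1) = x⁻¹ * ((x⁻¹) ^ n * z * x ^ n) * x := by
            rw [pow_succ', pow_succ]; group
          rw [h1]
          exact hxinv _ (ih z hz)
      set w := x ^ j * v * (x⁻¹) ^ j with hw
      have hwR : w ∈ R := hxpow j v hv
      set z := ⁅v, w⁆ with hz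
      have hzc : z ∈ ⁅R, R⁆ := Subgroup.commutator_mem_commutator hv hwR
      have hzR : z ∈ R := Subgroup.commutator_le_self R hzc
      have hzcen : ∀ y ∈ R, y * z = z * y := hcb z hzR (hcc z hzc)
      -- the element w' = x⁻ʲ v xʲ
      set w' := (x⁻¹) ^ j * v * x ^ j with hw'
      have hwR' : w' ∈ R := hxpow' j v hv
      have hxz : ∀ n : ℕ, (x⁻¹) ^ n * z * x ^ n = z := by
        intro n
        have : Commute ((x⁻¹) ^ n) z := by
          have h1 : Commute z x := hzx
          exact (h1.inv_right.pow_right n).symm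
        rw [this.eq, mul_assoc, inv_pow, inv_mul_cancel, mul_one]
      have hzw' : ⁅w', v⁆ = z := by
        rw [← hxz j, hz, commutatorElement_def, commutatorElement_def, hw, hw']
        simp only [inv_pow]
        group
      have hzinv : z⁻¹ = v⁻¹ * w'⁻¹ * v * w' := by
        have h1 : ⁅v, w'⁆ = z⁻¹ := by rw [← hzw', commutatorElement_inv]
        have h2 : v * w' = z⁻¹ * (w' * v) := by
          rw [← h1, commutatorElement_def]; group
        have h3 : ∀ y ∈ R, z⁻¹ * y = y * z⁻¹ := by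
          intro y hy
          have : Commute y z := hzcen y hy
          exact (this.inv_right.eq).symm
        exact (inv_comm_formula h2 (h3 v hv) (h3 w' hwR')).symm
      have hb := beta hstar x v j z
        (by rw [hz, commutatorElement_def, hw]; simp only [inv_pow]; group)
        (by rw [hzinv, hw']; simp only [inv_pow]; group)
        hzx (hzcen v hv).symm (hodd z hzR) (hcopz z hzR)
      have hz1 : z = 1 := hfaith z hb
      rw [hz, commutatorElement_eq_one_iff_mul_comm] at hz1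
      exact hne hz1
    rcases hcase with hodd_s | h4
    · -- x is a power of x ^ 2
      obtain ⟨k, hk⟩ := h.order
      have hso : Odd (s ^ k) := hodd_s.pow
      obtain ⟨m, hm⟩ := hso
      have hx : (x ^ 2) ^ (m + 1) = x := by
        rw [← pow_mul]
        have : 2 * (m + 1) = (2 * m + 1) + 1 := by ring
        rw [this, pow_succ, ← hm, hk, one_mul]
      have hxc : ∀ c ∈ ⁅R, R⁆, c * x = x * c := by
        intro c hc
        have h1 : Commute (x ^ 2) c := hcc c hc
        have h2 := h1.pow_left (m + 1)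
        rw [hx] at h2
        exact h2.eq.symm
      -- some conjugate of u does not commute with u
      by_cases hall : ∀ j : ℕ, u * (x ^ j * u * (x⁻¹) ^ j) = (x ^ j * u * (x⁻¹) ^ j) * u
      · -- then R is abelian
        exfalso
        apply hab
        set K : Subgroup H := Subgroup.closure {w | ∃ j : ℕ, w = x ^ j * u * (x⁻¹) ^ j} with hK
        have hcommK : ∀ a ∈ {w | ∃ j : ℕ, w = x ^ j * u * (x⁻¹) ^ j},
            ∀ b ∈ {w | ∃ j : ℕ, w = x ^ j * u * (x⁻¹) ^ j}, a * b = b * a := by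
          have hle : ∀ i j : ℕ, i ≤ j → (x ^ i * u * (x⁻¹) ^ i) * (x ^ j * u * (x⁻¹) ^ j)
              = (x ^ j * u * (x⁻¹) ^ j) * (x ^ i * u * (x⁻¹) ^ i) := by
            intro i j hij
            obtain ⟨l, rfl⟩ := Nat.exists_eq_add_of_le hij
            have h1 := hall l
            have h2 : x ^ (i + l) * u * (x⁻¹) ^ (i + l)
                = x ^ i * (x ^ l * u * (x⁻¹) ^ l) * (x⁻¹) ^ i := by
              rw [pow_add, pow_add, inv_pow, inv_pow]
              have : (x ^ i)⁻¹ * (x ^ l)⁻¹ = (x ^ l)⁻¹ * (x ^ i)⁻¹ := by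
                rw [← mul_inv_rev, ← mul_inv_rev, ← pow_add, ← pow_add, add_comm]
              rw [this]; group
            rw [h2]
            calc (x ^ i * u * (x⁻¹) ^ i) * (x ^ i * (x ^ l * u * (x⁻¹) ^ l) * (x⁻¹) ^ i)
                = x ^ i * (u * (x ^ l * u * (x⁻¹) ^ l)) * (x⁻¹) ^ i := by
                  simp only [inv_pow]; group
              _ = x ^ i * ((x ^ l * u * (x⁻¹) ^ l) * u) * (x⁻¹) ^ i := by rw [h1]
              _ = _ := by simp only [inv_pow]; group
          rintro _ ⟨i, rfl⟩ _ ⟨j, rfl⟩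
          rcases le_total i j with h1 | h1
          · exact hle i j h1
          · exact (hle j i h1).symm
        have hKx : ∀ k ∈ K, x * k * x⁻¹ ∈ K := by
          intro k hk
          have : K ≤ K.comap (MulAut.conj x : H ≃* H).toMonoidHom := by
            rw [hK, Subgroup.closure_le, ← hK]
            rintro _ ⟨j, rfl⟩
            change x * (x ^ j * u * (x⁻¹) ^ j) * x⁻¹ ∈ K
            apply Subgroup.subset_closure
            refine ⟨j + 1, ?_⟩
            rw [pow_succ', pow_succ]; group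
          exact this hk
        have huK : u ∈ K := Subgroup.subset_closure ⟨0, by simp⟩
        have hRK := h.gen hu hyu K huK hKx
        have hKab := Subgroup.isMulCommutative_closure hcommK
        intro a ha b hb
        have := hKab.is_comm.comm ⟨a, hRK ha⟩ ⟨b, hRK hb⟩
        exact congrArg Subtype.val this
      · push Not at hall
        obtain ⟨j, hj⟩ := hall
        have hwR : x ^ j * u * (x⁻¹) ^ j ∈ R := by
          have hxpow : ∀ n : ℕ, ∀ z ∈ R, x ^ n * z * (x⁻¹) ^ n ∈ R := by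
            intro n
            induction n with
            | zero => intro z hz; simpa using hz
            | succ n ih =>
              intro z hz
              have h1 : x ^ (n + 1) * z * (x⁻¹) ^ (n + 1) = x * (x ^ n * z * (x⁻¹) ^ n) * x⁻¹ := by
                rw [pow_succ', pow_succ]; group
              rw [h1]
              exact h.inv _ (ih z hz)
          exact hxpow j u hu
        exact hgood u j hu hj (hxc _ (Subgroup.commutator_mem_commutator hu hwR))
    · -- x ^ 4 centralises R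
      set v' := x ^ 2 * u * (x ^ 2)⁻¹ with hv'
      set w := x * u * x⁻¹ with hw
      have hwR : w ∈ R := h.inv u hu
      have hxw : x * w * x⁻¹ = v' := by rw [hw, hv', pow_two]; group
      have hv'R : v' ∈ R := by rw [← hxw]; exact h.inv w hwR
      have hyv' : x ^ 2 * v' * (x ^ 2)⁻¹ = u := by
        have h1 : x ^ 2 * v' * (x ^ 2)⁻¹ = x ^ 4 * u * (x ^ 4)⁻¹ := by
          have h2 : x ^ 4 = x ^ 2 * x ^ 2 := by rw [← pow_add]
          rw [hv', h2]; group
        rw [h1, h4 u hu, mul_inv_cancel_right]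
      set b := u * v' with hb
      have hbR : b ∈ R := mul_mem hu hv'R
      set d := b⁻¹ * (v' * u) with hd
      have hdc : d ∈ ⁅R, R⁆ := by
        have h1 : d = ⁅v'⁻¹, u⁻¹⁆ := by
          rw [hd, hb, commutatorElement_def]; group
        rw [h1]
        exact Subgroup.commutator_mem_commutator (inv_mem hv'R) (inv_mem hu)
      have hdR : d ∈ R := Subgroup.commutator_le_self R hdc
      have hyd : x ^ 2 * d = d * x ^ 2 := hcc d hdc
      have hbd : x ^ 2 * b * (x ^ 2)⁻¹ = b * d := by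
        have h1 : x ^ 2 * b * (x ^ 2)⁻¹ = (x ^ 2 * u * (x ^ 2)⁻¹) * (x ^ 2 * v' * (x ^ 2)⁻¹) := by
          rw [hb]; group
        rw [h1, hyv', ← hv', hd]; group
      have hd2 : d * d = 1 := by
        have h1 : x ^ 2 * (x ^ 2 * b * (x ^ 2)⁻¹) * (x ^ 2)⁻¹ = b := by
          have h2 : x ^ 2 * (x ^ 2 * b * (x ^ 2)⁻¹) * (x ^ 2)⁻¹ = x ^ 4 * b * (x ^ 4)⁻¹ := by
            have h3 : x ^ 4 = x ^ 2 * x ^ 2 := by rw [← pow_add]
            rw [h3]; group
          rw [h2, h4 b hbR, mul_inv_cancel_right]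
        rw [hbd] at h1
        have h2 : x ^ 2 * (b * d) * (x ^ 2)⁻¹ = (x ^ 2 * b * (x ^ 2)⁻¹) * (x ^ 2 * d * (x ^ 2)⁻¹) := by
          group
        rw [h2, hbd, hyd, mul_inv_cancel_right, mul_assoc, mul_eq_left] at h1
        exact h1
      have hd1 : d = 1 := by
        have h1 : orderOf d ∣ 2 := orderOf_dvd_of_pow_eq_one (by rw [pow_two, hd2])
        have h2 := hodd d hdR
        have h3 : orderOf d = 1 := by
          rcases (Nat.dvd_prime Nat.prime_two).mp h1 with h3 | h3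
          · exact h3
          · rw [h3] at h2
            exact absurd h2 (by decide)
        exact orderOf_eq_one_iff.mp h3
      have hyb : x ^ 2 * b = b * x ^ 2 := by
        rw [hd1, mul_one, mul_inv_eq_iff_eq_mul] at hbd
        exact hbd
      have hbcen := hcb b hbR hyb
      have hv'2 : v' = u⁻¹ * b := by rw [hb]; group
      by_cases huw : u * w = w * u
      · -- then R is abelian
        exfalso
        apply hab
        set S : Set H := {u, w} ∪ {c | c ∈ R ∧ x ^ 2 * c = c * x ^ 2} with hS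
        set K : Subgroup H := Subgroup.closure S with hK
        have hSR : ∀ c ∈ S, c ∈ R := by
          rintro c ((rfl | rfl) | hc)
          · exact hu
          · exact hwR
          · exact hc.1
        have hcommK : ∀ a ∈ S, ∀ c ∈ S, a * c = c * a := by
          rintro a ha c hc
          rcases ha with ha | ha
          · rcases hc with hc | hc
            · rcases ha with rfl | rfl
              · rcases hc with rfl | rfl
                · rfl
                · exact huw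
              · rcases hc with rfl | rfl
                · exact huw.symm
                · rfl
            · exact hcb c hc.1 hc.2 a (hSR a (Or.inl ha))
          · exact (hcb a ha.1 ha.2 c (hSR c hc)).symm
        have huK : u ∈ K := Subgroup.subset_closure (Or.inl (Or.inl rfl))
        have hwK : w ∈ K := Subgroup.subset_closure (Or.inl (Or.inr rfl))
        have hbK : b ∈ K := Subgroup.subset_closure (Or.inr ⟨hbR, hyb⟩)
        have hKx : ∀ k ∈ K, x * k * x⁻¹ ∈ K := by
          intro k hk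
          have : K ≤ K.comap (MulAut.conj x : H ≃* H).toMonoidHom := by
            rw [hK, Subgroup.closure_le, ← hK]
            rintro c ((rfl | rfl) | hc)
            · exact hwK
            · change x * w * x⁻¹ ∈ K
              rw [hxw, hv'2]
              exact mul_mem (inv_mem huK) hbK
            · change x * c * x⁻¹ ∈ K
              apply Subgroup.subset_closure
              right
              refine ⟨h.inv c hc.1, ?_⟩
              have h1 : x ^ 2 * (x * c * x⁻¹) = x * (x ^ 2 * c) * x⁻¹ := by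
                rw [pow_two]; group
              have h2 : x * c * x⁻¹ * x ^ 2 = x * (c * x ^ 2) * x⁻¹ := by
                rw [pow_two]; group
              rw [h1, h2, hc.2]
          exact this hk
        have hRK := h.gen hu hyu K huK hKx
        have hKab := Subgroup.isMulCommutative_closure hcommK
        intro a ha c hc
        have := hKab.is_comm.comm ⟨a, hRK ha⟩ ⟨c, hRK hc⟩
        exact congrArg Subtype.val this
      · have hw1 : x ^ 1 * u * (x⁻¹) ^ 1 = w := by rw [pow_one, pow_one]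
        apply hgood u 1 hu (by rw [hw1]; exact huw)
        rw [hw1]
        have hzc : ⁅u, w⁆ ∈ ⁅R, R⁆ := Subgroup.commutator_mem_commutator hu hwR
        have hzR : ⁅u, w⁆ ∈ R := Subgroup.commutator_le_self R hzc
        have hzcen : ∀ y ∈ R, y * ⁅u, w⁆ = ⁅u, w⁆ * y := hcb _ hzR (hcc _ hzc)
        have h1 : x * ⁅u, w⁆ * x⁻¹ = ⁅u, w⁆ := by
          rw [conjugate_commutatorElement, ← hw, hxw, hv'2]
          have e1 : ⁅w, u⁻¹ * b⁆ = ⁅w, u⁻¹⁆ := by
            have e2 : b * w⁻¹ = w⁻¹ * b := (hbcen _ (inv_mem hwR)).symm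
            rw [commutatorElement_def, commutatorElement_def]
            calc w * (u⁻¹ * b) * w⁻¹ * (u⁻¹ * b)⁻¹ = w * u⁻¹ * (b * w⁻¹) * b⁻¹ * u := by group
              _ = w * u⁻¹ * (w⁻¹ * b) * b⁻¹ * u := by rw [e2]
              _ = _ := by group
          rw [e1]
          have e3 : w * u⁻¹ = ⁅u, w⁆ * (u⁻¹ * w) := by
            have e4 : u⁻¹ * ⁅u, w⁆ = ⁅u, w⁆ * u⁻¹ := hzcen _ (inv_mem hu)
            rw [← mul_assoc, ← e4, commutatorElement_def]; group
          rw [commutatorElement_def w u⁻¹, e3]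
          group
        rw [mul_inv_eq_iff_eq_mul] at h1
        exact h1.symm

/-- The key lemma: an element of prime power order `s ^ k` normalising an `r`-group `R` of
operators, with `r ≠ s` odd, has a square centralising `R`. -/
theorem key (hstar : Star H V) (hfaith : ∀ h : H, (∀ v : V, h • v = v) → h = 1)
    (hr : r.Prime) (hr3 : 3 ≤ r) (hs : s.Prime) (hrs : s ≠ r)
    (hcop : Nat.Coprime r (Nat.card V)) (R : Subgroup H) (hR : ∀ z ∈ R, ∃ m, z ^ (r ^ m) = 1)
    (x : H) (hx : ∃ k, x ^ (s ^ k) = 1) (hxR : ∀ z ∈ R, x * z * x⁻¹ ∈ R) :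
    ∀ z ∈ R, x ^ 2 * z = z * x ^ 2 := by
  classical
  by_contra hcon
  by_cases hs2 : s = 2
  · subst hs2
    obtain ⟨k, hk⟩ := hx
    let P : ℕ → Prop := fun i => ∀ z ∈ R, x ^ (2 ^ i) * z = z * x ^ (2 ^ i)
    have hPk : P k := fun z _ => by rw [hk, one_mul, mul_one]
    have hP1 : ¬ P 1 := by
      intro h
      apply hcon
      simpa [P] using h
    have hPmono : ∀ i, P i → P (i + 1) := by
      intro i hi z hz
      have h1 : Commute (x ^ (2 ^ i)) z := hi z hz
      have h2 := h1.pow_left 2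
      rw [← pow_mul, ← pow_succ] at h2
      exact h2
    have hP0 : ¬ P 0 := fun h => hP1 (hPmono 0 h)
    have hex : ∃ i, P i := ⟨k, hPk⟩
    set m := Nat.find hex with hm
    have hPm : P m := Nat.find_spec hex
    have hm2 : 2 ≤ m := by
      by_contra h
      have : m = 0 ∨ m = 1 := by omega
      rcases this with h0 | h0
      · rw [h0] at hPm; exact hP0 hPm
      · rw [h0] at hPm; exact hP1 hPm
    obtain ⟨l, hl⟩ := Nat.exists_eq_add_of_le hm2
    have hnot : ¬ P (l + 1) := Nat.find_min hex (by omega)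
    set x' := x ^ (2 ^ l) with hx'
    have hx'2 : x' ^ 2 = x ^ (2 ^ (l + 1)) := by rw [hx', ← pow_mul, ← pow_succ]
    have hx'4 : x' ^ 4 = x ^ (2 ^ m) := by
      rw [hx', ← pow_mul, hl]
      congr 1
      rw [pow_add]; ring
    have hxpow : ∀ n : ℕ, ∀ z ∈ R, x ^ n * z * (x ^ n)⁻¹ ∈ R := by
      intro n
      induction n with
      | zero => intro z hz; simpa using hz
      | succ n ih =>
        intro z hz
        have h1 : x ^ (n + 1) * z * (x ^ (n + 1))⁻¹ = x * (x ^ n * z * (x ^ n)⁻¹) * x⁻¹ := by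
          rw [pow_succ']; group
        rw [h1]
        exact hxR _ (ih z hz)
    obtain ⟨R1, hR1, hmp⟩ := exists_minPair (s := 2) hR
      ⟨k, by rw [← pow_mul, mul_comm, pow_mul, hk, one_pow]⟩
      (hxpow (2 ^ l)) (by
        rw [← hx', hx'2]; exact hnot)
    refine key_pair hstar hfaith hr hr3 hs hrs hcop hmp (Or.inr ?_)
    intro z hz
    rw [← hx', hx'4]
    exact hPm z (hR1 hz)
  · obtain ⟨R1, hR1, hmp⟩ := exists_minPair hR hx hxR hcon
    exact key_pair hstar hfaith hr hr3 hs hrs hcop hmp (Or.inl (hs.odd_of_ne_two hs2))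

end

end Pool.Agent.helper4.SR
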