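import Mathlib

/-!
The series of iterated nilpotent residuals of a finite group.
-/

namespace Pool.Agent.helper4.SR

open Subgroup

variable {G : Type*} [Group G]

/-- The nilpotent residual of a subgroup. -/
def res (K : Subgroup G) : Subgroup G := ⨅ n, K.lowerCentralSeries n

lemma res_le_lcs (K : Subgroup G) (n : ℕ) : res K ≤ K.lowerCentralSeries n := iInf_le _ n

lemma res_le (K : Subgroup G) : res K ≤ K := res_le_lcs K 0

lemma res_mono {K L : Subgroup G} (h : K ≤ L) : res K ≤ res L :=
  le_iInf fun n => (res_le_lcs K n).trans (lowerCentralSeries_mono n h)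

instance res_normal (K : Subgroup G) [K.Normal] : (res K).Normal := by
  unfold res
  exact normal_iInf_normal fun n => inferInstance

lemma exists_res [Finite G] (K : Subgroup G) :
    ∃ n, ∀ m, n ≤ m → res K = K.lowerCentralSeries m := by
  obtain ⟨n, hn⟩ : ∃ n, ∀ m, Nat.card (K.lowerCentralSeries n)
      ≤ Nat.card (K.lowerCentralSeries m) := by
    let S : Set ℕ := Set.range fun n => Nat.card (K.lowerCentralSeries n)
    have hS : S.Nonempty := ⟨_, 0, rfl⟩
    obtain ⟨n, hn⟩ := Nat.sInf_mem hS
    exact ⟨n, fun m => by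
      have hn' : Nat.card (K.lowerCentralSeries n) = sInf S := hn
      rw [hn']; exact Nat.sInf_le ⟨m, rfl⟩⟩
  have hstab : ∀ m, n ≤ m → K.lowerCentralSeries m = K.lowerCentralSeries n := fun m hm =>
    Subgroup.eq_of_le_of_card_ge (K.lowerCentralSeries_antitone hm) (hn m)
  refine ⟨n, fun m hm => ?_⟩
  apply le_antisymm (res_le_lcs K m)
  rw [hstab m hm]
  refine le_iInf fun k => ?_
  rcases le_total n k with h | h
  · rw [hstab k h]
  · exact K.lowerCentralSeries_antitone h

lemma map_res [Finite G] {G' : Type*} [Group G'] [Finite G'] (f : G →* G') (K : Subgroup G) :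
    (res K).map f = res (K.map f) := by
  obtain ⟨n, hn⟩ := exists_res K
  obtain ⟨m, hm⟩ := exists_res (K.map f)
  rw [hn (max n m) (le_max_left _ _), hm (max n m) (le_max_right _ _), map_lowerCentralSeries]

lemma res_eq_bot_iff [Finite G] (K : Subgroup G) : res K = ⊥ ↔ Group.IsNilpotent K := by
  rw [isNilpotent_iff_lowerCentralSeries]
  constructor
  · intro h
    obtain ⟨n, hn⟩ := exists_res K
    exact ⟨n, by rw [← hn n le_rfl, h]⟩
  · rintro ⟨n, hn⟩
    exact le_bot_iff.mp (hn ▸ res_le_lcs K n)

lemma res_eq_bot_of_comm (K : Subgroup G) (h : ∀ a ∈ K, ∀ b ∈ K, a * b = b * a) : res K = ⊥ := by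
  rw [eq_bot_iff]
  refine (res_le_lcs K 1).trans ?_
  rw [Subgroup.lowerCentralSeries_succ, Subgroup.lowerCentralSeries_zero, commutator_le]
  intro a ha b hb
  rw [mem_bot, commutatorElement_eq_one_iff_mul_comm]
  exact h a ha b hb

variable (G) in
/-- The iterated nilpotent residuals. -/
def D : ℕ → Subgroup G
  | 0 => ⊤
  | n + 1 => res (D n)

@[simp] lemma D_zero : D G 0 = ⊤ := rfl

lemma D_succ (n : ℕ) : D G (n + 1) = res (D G n) := rfl

instance D_normal (n : ℕ) : (D G n).Normal := by
  induction n with
  | zero => rw [D_zero]; infer_instance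
  | succ n ih => rw [D_succ]; infer_instance

lemma D_antitone : Antitone (D G) := antitone_nat_of_succ_le fun _ => res_le _

lemma map_D [Finite G] {G' : Type*} [Group G'] [Finite G'] (f : G →* G')
    (hf : Function.Surjective f) (n : ℕ) : (D G n).map f = D G' n := by
  induction n with
  | zero => rw [D_zero, D_zero, ← MonoidHom.range_eq_map, MonoidHom.range_eq_top.mpr hf]
  | succ n ih => rw [D_succ, D_succ, map_res, ih]

/-- The quotient by the nilpotent residual is nilpotent. -/
lemma quotient_res_nilpotent [Finite G] (K : Subgroup G) :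
    ((res K).subgroupOf K).Normal ∧ ∀ _ : ((res K).subgroupOf K).Normal,
      Group.IsNilpotent (K ⧸ (res K).subgroupOf K) := by
  have h1 : res K = (res (⊤ : Subgroup K)).map K.subtype := by
    rw [map_res, ← MonoidHom.range_eq_map, range_subtype]
  have h2 : (res K).subgroupOf K = res (⊤ : Subgroup K) := by
    rw [h1, subgroupOf, comap_map_eq_self_of_injective K.subtype_injective]
  refine ⟨by rw [h2]; infer_instance, ?_⟩
  intro hN
  rw [← Group.isNilpotent_top, ← res_eq_bot_iff]
  have h3 : (⊤ : Subgroup (K ⧸ (res K).subgroupOf K))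
      = (⊤ : Subgroup K).map (QuotientGroup.mk' ((res K).subgroupOf K)) := by
    rw [← MonoidHom.range_eq_map, MonoidHom.range_eq_top.mpr (QuotientGroup.mk'_surjective _)]
  rw [h3, ← map_res, Subgroup.map_eq_bot_iff, QuotientGroup.ker_mk', h2]

end Pool.Agent.helper4.SR
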