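import Pool.Agent.helper4.SR.Compl

/-!
The complement in the second step is abelian.
-/

namespace Pool.Agent.helper4.SR

open Subgroup

variable {G : Type*} [Group G]

/-- Every nontrivial normal subgroup of a finite soluble group contains a nontrivial normal
subgroup of the whole group which is a `q`-group of exponent `q`. -/
lemma exists_min_normal [Finite G] [Group.IsSolvable G] (C : Subgroup G) (hCn : C.Normal)
    (hC : C ≠ ⊥) : ∃ (q : ℕ) (W : Subgroup G), q.Prime ∧ W.Normal ∧ W ≤ C ∧ W ≠ ⊥ ∧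
      (∀ a ∈ W, ∀ b ∈ W, a * b = b * a) ∧ ∀ w ∈ W, w ^ q = 1 := by
  let S : Set (Subgroup G) := {N | N.Normal ∧ N ≤ C ∧ N ≠ ⊥}
  have hS : S.Finite := Set.toFinite _
  obtain ⟨W, hW⟩ := hS.exists_minimal ⟨C, hCn, le_rfl, hC⟩
  obtain ⟨hWn, hWC, hWb⟩ := hW.prop
  have := hWn
  have hmin : ∀ N : Subgroup G, N.Normal → N ≠ ⊥ → N ≤ W → W ≤ N := fun N hN hNb hNW =>
    hW.le_of_le ⟨hN, hNW.trans hWC, hNb⟩ hNW
  have h1 : ⁅W, W⁆ < W := Group.IsSolvable.commutator_lt_of_ne_bot hWb
  have h2 : ⁅W, W⁆ = ⊥ := by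
    by_contra hne
    exact absurd (hmin _ inferInstance hne h1.le) (not_le_of_gt h1)
  have hc : ∀ a ∈ W, ∀ b ∈ W, a * b = b * a := by
    rw [commutator_eq_bot_iff_le_centralizer] at h2
    intro a ha b hb
    exact (mem_centralizer_iff.mp (h2 ha) b hb).symm
  have hnt : Nat.card W ≠ 1 := by
    rw [Ne, Subgroup.card_eq_one]
    exact hWb
  obtain ⟨p, hp, hpd⟩ := Nat.exists_prime_and_dvd hnt
  have := Fact.mk hp
  obtain ⟨v, hv⟩ := exists_prime_orderOf_dvd_card' (G := W) p hpd
  let N : Subgroup G :=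
    { carrier := {v | v ∈ W ∧ v ^ p = 1}
      one_mem' := ⟨one_mem _, one_pow p⟩
      mul_mem' := by
        rintro a b ⟨ha, ha'⟩ ⟨hb, hb'⟩
        refine ⟨mul_mem ha hb, ?_⟩
        have : Commute a b := hc a ha b hb
        rw [this.mul_pow, ha', hb', one_mul]
      inv_mem' := by
        rintro a ⟨ha, ha'⟩
        exact ⟨inv_mem ha, by rw [inv_pow, ha', inv_one]⟩ }
  have hN : N.Normal := ⟨by
    rintro a ⟨ha, ha'⟩ g
    exact ⟨hWn.conj_mem a ha g, by rw [conj_pow, ha', mul_one, mul_inv_cancel]⟩⟩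
  have hNb : N ≠ ⊥ := by
    intro hb
    have h1 : (v : G) ∈ N := ⟨v.2, by
      rw [← hv]
      have := pow_orderOf_eq_one v
      exact_mod_cast congrArg (Subtype.val) this⟩
    rw [hb, mem_bot] at h1
    have h2 : v = 1 := Subtype.ext h1
    rw [h2, orderOf_one] at hv
    exact hp.one_lt.ne hv
  exact ⟨p, W, hp, hWn, hWC, hWb, hc, fun w hw => (hmin N hN hNb (fun x hx => hx.1) hw).2⟩

/-- In a group of odd order only the identity is real. -/
lemma eq_one_of_odd (hodd : Odd (Nat.card G)) {x g : G} (h : g * x * g⁻¹ = x⁻¹) : x = 1 := by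
  obtain ⟨m, hm⟩ := hodd
  have hpow : ∀ y : G, (y ^ 2) ^ (m + 1) = y := by
    intro y
    have h1 : y ^ (2 * m + 1) = 1 := by rw [← hm]; exact pow_card_eq_one'
    rw [← pow_mul, show 2 * (m + 1) = 2 * m + 1 + 1 by ring, pow_succ, h1, one_mul]
  have h2 : Commute (g ^ 2) x := by
    have h3 : g * x⁻¹ * g⁻¹ = x := by
      have := congrArg (·⁻¹) h
      simp only [mul_inv_rev, inv_inv] at this
      rw [← mul_assoc] at this
      exact this
    have h4 : g ^ 2 * x * (g ^ 2)⁻¹ = x := by
      calc g ^ 2 * x * (g ^ 2)⁻¹ = g * (g * x * g⁻¹) * g⁻¹ := by rw [pow_two]; group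
        _ = x := by rw [h, h3]
    exact mul_inv_eq_iff_eq_mul.mp h4
  have h5 : Commute g x := by
    have := h2.pow_left (m + 1)
    rwa [hpow] at this
  have h6 : x = x⁻¹ := by
    rw [← h, h5.eq, mul_inv_cancel_right]
  have h7 : x ^ 2 = 1 := by
    rw [pow_two]
    nth_rw 2 [h6]
    exact mul_inv_cancel x
  rw [← hpow x, h7, one_pow]

lemma comm_of_sq {G : Type*} [Group G] {a b : G} (ha : a ^ 2 = 1) (hb : b ^ 2 = 1)
    (hab : (a * b) ^ 2 = 1) : a * b = b * a := by
  rw [pow_two] at ha hb hab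
  have h1 : a⁻¹ = a := inv_eq_of_mul_eq_one_left ha
  have h2 : b⁻¹ = b := inv_eq_of_mul_eq_one_left hb
  have h3 : (a * b)⁻¹ = a * b := inv_eq_of_mul_eq_one_left hab
  rw [mul_inv_rev, h1, h2] at h3
  exact h3.symm

theorem comm_of_struct [Finite G] [Group.IsSolvable G] (hI : Inv2 G) {r : ℕ}
    (hr2 : r ≠ 2) (hsq : ∀ s : ℕ, s.Prime → s ≠ r → ∀ y : G, (∃ k, y ^ (s ^ k) = 1) → y ^ 2 = 1)
    (hOr : ∀ N : Subgroup G, N.Normal → IsPGroup r N → N = ⊥) : ∀ a b : G, a * b = b * a := by
  let S : Set (Subgroup G) := {N | N.Normal ∧ IsPGroup 2 N}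
  have hS : S.Finite := Set.toFinite _
  obtain ⟨A, hA⟩ := hS.exists_maximal ⟨⊥, inferInstance, IsPGroup.of_bot⟩
  obtain ⟨hAn, hAp⟩ := hA.prop
  have hAsq : ∀ a ∈ A, a ^ 2 = 1 := by
    intro a ha
    obtain ⟨k, hk⟩ := hAp ⟨a, ha⟩
    refine hsq 2 Nat.prime_two hr2.symm a ⟨k, ?_⟩
    have := congrArg Subtype.val hk
    simpa using this
  have hAmax : ∀ N : Subgroup G, N.Normal → IsPGroup 2 N → A ≤ N → N ≤ A := fun N h1 h2 h3 =>
    hA.le_of_ge ⟨h1, h2⟩ h3
  have hAc : ∀ a ∈ A, ∀ b ∈ A, a * b = b * a := fun a ha b hb =>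
    comm_of_sq (hAsq a ha) (hAsq b hb) (hAsq _ (mul_mem ha hb))
  set f := QuotientGroup.mk' A with hf
  have hfs : Function.Surjective f := QuotientGroup.mk'_surjective A
  have hker : f.ker = A := QuotientGroup.ker_mk' A
  -- the centraliser of `A`
  have hC : centralizer (A : Set G) ≤ A := by
    by_contra hcon
    have hCn : (centralizer (A : Set G)).Normal := inferInstance
    have hAC : A ≤ centralizer (A : Set G) := by
      intro a ha
      rw [mem_centralizer_iff]
      exact fun b hb => hAc b hb a ha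
    have h1 : (centralizer (A : Set G)).map f ≠ ⊥ := by
      rw [Ne, Subgroup.map_eq_bot_iff, hker]
      exact hcon
    obtain ⟨q, W', hq, hW'n, hW'C, hW'b, hW'c, hW'q⟩ :=
      exists_min_normal _ (Normal.map hCn f hfs) h1
    set W := W'.comap f with hW
    have hWn : W.Normal := inferInstance
    have hAW : A ≤ W := hker ▸ ker_le_comap f W'
    have hWC : W ≤ centralizer (A : Set G) := by
      have := comap_mono (f := f) hW'C
      rwa [comap_map_eq, hker, sup_eq_left.mpr hAC] at this
    have hWq : ∀ w ∈ W, w ^ q ∈ A := by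
      intro w hw
      have := hW'q _ hw
      rw [← map_pow, ← MonoidHom.mem_ker, hker] at this
      exact this
    have hWA : ¬ W ≤ A := by
      intro h
      apply hW'b
      rw [← map_comap_eq_self_of_surjective hfs W', Subgroup.map_eq_bot_iff, hker]
      exact h
    by_cases hq2 : q = 2
    · subst hq2
      apply hWA
      refine hAmax W hWn ?_ hAW
      intro w
      refine ⟨2, Subtype.ext ?_⟩
      have h2 := hAsq _ (hWq w w.2)
      change ((w : G)) ^ 2 ^ 2 = 1
      rw [pow_two 2, pow_mul]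
      exact h2
    · have hqodd : Odd q := hq.odd_of_ne_two hq2
      -- `W` is abelian
      have hcent : ∀ a ∈ A, ∀ w ∈ W, a * w = w * a := fun a ha w hw =>
        mem_centralizer_iff.mp (hWC hw) a ha
      obtain ⟨m, hm⟩ := hqodd
      have hodd1 : ∀ c : G, c ^ 2 = 1 → c ^ q = c := by
        intro c hc
        rw [hm, pow_succ, pow_mul, hc, one_pow, one_mul]
      have hWc : ∀ x ∈ W, ∀ y ∈ W, x * y = y * x := by
        intro x hx y hy
        have hcA : x * y * x⁻¹ * y⁻¹ ∈ A := by
          have := hW'c _ hx _ hy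
          rw [← hker, MonoidHom.mem_ker, map_mul, map_mul, map_mul, map_inv, map_inv, this]
          group
        set c := x * y * x⁻¹ * y⁻¹ with hc
        have hxy : x * y = c * (y * x) := by rw [hc]; group
        have hcx : c * x = x * c := hcent c hcA x hx
        have hpow : ∀ k : ℕ, x ^ k * y = c ^ k * (y * x ^ k) := by
          intro k
          induction k with
          | zero => simp
          | succ k ih =>
            have e1 : x ^ k * c = c * x ^ k := ((show Commute c x from hcx).pow_right k).symm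
            calc x ^ (k + 1) * y = x ^ k * (x * y) := by rw [pow_succ, mul_assoc]
              _ = x ^ k * c * (y * x) := by rw [hxy]; exact (mul_assoc _ _ _).symm
              _ = c * (x ^ k * y) * x := by rw [e1]; simp only [mul_assoc]
              _ = c ^ (k + 1) * (y * x ^ (k + 1)) := by
                rw [ih, pow_succ', pow_succ]; simp only [mul_assoc]
        have h3 := hpow q
        rw [hcent _ (hWq x hx) y hy, hodd1 c (hAsq c hcA)] at h3
        have h4 : c = 1 := by
          have := mul_eq_right.mp h3.symm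
          exact this
        rw [hxy, h4, one_mul]
      let Q : Subgroup G :=
        { carrier := {v | v ∈ W ∧ v ^ q = 1}
          one_mem' := ⟨one_mem _, one_pow q⟩
          mul_mem' := by
            rintro a b ⟨ha, ha'⟩ ⟨hb, hb'⟩
            refine ⟨mul_mem ha hb, ?_⟩
            have : Commute a b := hWc a ha b hb
            rw [this.mul_pow, ha', hb', one_mul]
          inv_mem' := by
            rintro a ⟨ha, ha'⟩
            exact ⟨inv_mem ha, by rw [inv_pow, ha', inv_one]⟩ }
      have hQ : Q.Normal := ⟨by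
        rintro a ⟨ha, ha'⟩ g
        exact ⟨hWn.conj_mem a ha g, by rw [conj_pow, ha', mul_one, mul_inv_cancel]⟩⟩
      obtain ⟨w, hw, hwA⟩ := Set.not_subset.mp hWA
      have hu1 : (w ^ 2) ^ q = 1 := by
        rw [← pow_mul, mul_comm, pow_mul]
        exact hAsq _ (hWq w hw)
      have hu2 : w ^ 2 ≠ 1 := by
        intro h
        apply hwA
        have := hWq w hw
        rwa [hodd1 w h] at this
      by_cases hqr : q = r
      · have h3 : Q = ⊥ := by
          refine hOr Q hQ ?_
          intro z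
          refine ⟨1, Subtype.ext ?_⟩
          rw [← hqr, pow_one]
          exact z.2.2
        apply hu2
        rw [← mem_bot, ← h3]
        exact ⟨pow_mem hw 2, hu1⟩
      · have h3 := hsq q hq hqr (w ^ 2) ⟨1, by rw [pow_one]; exact hu1⟩
        apply hu2
        rw [← hu1]
        exact (hodd1 _ h3).symm
  -- `A` is a Sylow `2`-subgroup
  have : Fact (Nat.Prime 2) := ⟨Nat.prime_two⟩
  obtain ⟨T⟩ : Nonempty (Sylow 2 G) := inferInstance
  have hAT : A ≤ T := by
    have := T.is_maximal' (hAp.to_sup_of_normal_left T.isPGroup') le_sup_right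
    exact sup_eq_right.mp this
  have hTsq : ∀ t ∈ T, t ^ 2 = 1 := by
    intro t ht
    obtain ⟨k, hk⟩ := T.isPGroup' ⟨t, ht⟩
    refine hsq 2 Nat.prime_two hr2.symm t ⟨k, ?_⟩
    have := congrArg Subtype.val hk
    simpa using this
  have hTA : (T : Subgroup G) ≤ A := by
    intro t ht
    apply hC
    rw [mem_centralizer_iff]
    intro a ha
    exact comm_of_sq (hAsq a ha) (hTsq t ht) (hTsq _ (mul_mem (hAT ha) ht))
  have hTeq : (T : Subgroup G) = A := le_antisymm hTA hAT
  have hodd : Odd (Nat.card (G ⧸ A)) := by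
    rw [← Nat.not_even_iff_odd, even_iff_two_dvd, ← Subgroup.index_eq_card, ← hTeq]
    exact T.not_dvd_index
  have htop : ∀ x : G, x ∈ A := by
    intro x
    obtain ⟨g, hg, -⟩ := hI.of_surjective f hfs (f x) (f x)
    rw [← hker, MonoidHom.mem_ker]
    exact eq_one_of_odd hodd hg
  exact fun a b => hAc a (htop a) b (htop b)

end Pool.Agent.helper4.SR
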